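import Mathlib
import Pool.Agent.DetSpec.Odl

set_option autoImplicit false
set_option linter.unusedSectionVars false

open Matrix

namespace Pool.Agent.DetCnt

open Pool.Agent.DetSpec

/-- The sign vector of a Boolean vector. -/
def pv {n : ℕ} (f : Fin n → Bool) : Fin n → ℝ := fun j => if f j then 1 else -1

/-- The quadratic form of a matrix. -/
def qf {m : ℕ} (P : Matrix (Fin m) (Fin m) ℝ) (y : Fin m → ℝ) : ℝ := y ⬝ᵥ (P *ᵥ y)

lemma pv_true {n : ℕ} (f : Fin n → Bool) :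
    pv (Fin.cons true f : Fin (n + 1) → Bool) = Fin.cons 1 (pv f) := by
  funext j; refine Fin.cases rfl (fun i => rfl) j

lemma pv_false {n : ℕ} (f : Fin n → Bool) :
    pv (Fin.cons false f : Fin (n + 1) → Bool) = Fin.cons (-1) (pv f) := by
  funext j; refine Fin.cases rfl (fun i => rfl) j

lemma dot_cons {n : ℕ} (p : Fin (n + 1) → ℝ) (x : ℝ) (y : Fin n → ℝ) :
    p ⬝ᵥ (Fin.cons x y : Fin (n + 1) → ℝ) = p 0 * x + (fun k => p k.succ) ⬝ᵥ y := by
  simp [dotProduct, Fin.sum_univ_succ]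

lemma card_bool (n : ℕ) : ∑ _f : Fin n → Bool, (1 : ℝ) = 2 ^ n := by
  simp

lemma sum_lin_sq {n : ℕ} (p : Fin n → ℝ) :
    ∑ f : Fin n → Bool, (p ⬝ᵥ pv f) ^ 2 = 2 ^ n * (p ⬝ᵥ p) := by
  induction n with
  | zero => simp [dotProduct]
  | succ n ih =>
    rw [sum_cons, Fintype.sum_bool]
    simp_rw [pv_true, pv_false, dot_cons]
    rw [← Finset.sum_add_distrib]
    have h1 : ∀ f : Fin n → Bool,
        (p 0 * 1 + (fun k => p k.succ) ⬝ᵥ pv f) ^ 2 +
        (p 0 * (-1) + (fun k => p k.succ) ⬝ᵥ pv f) ^ 2 =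
        2 * p 0 ^ 2 + 2 * ((fun k => p k.succ) ⬝ᵥ pv f) ^ 2 := by
      intro f
      ring
    rw [Finset.sum_congr rfl (fun f _ => h1 f), Finset.sum_add_distrib, ← Finset.mul_sum,
      ← Finset.mul_sum, ih]
    have h2 : p ⬝ᵥ p = p 0 ^ 2 + (fun k : Fin n => p k.succ) ⬝ᵥ (fun k => p k.succ) := by
      simp [dotProduct, Fin.sum_univ_succ, sq]
    have h3 : ∑ _f : Fin n → Bool, p 0 ^ 2 = 2 ^ n * p 0 ^ 2 := by
      rw [← card_bool n, Finset.sum_mul]; simp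
    rw [h2, h3, pow_succ]
    ring

lemma qf_cons {n : ℕ} (P : Matrix (Fin (n + 1)) (Fin (n + 1)) ℝ) (hP : Pᵀ = P) (x : ℝ)
    (y : Fin n → ℝ) :
    qf P (Fin.cons x y) = P 0 0 * x ^ 2 + 2 * x * ((fun k => P 0 k.succ) ⬝ᵥ y) +
      qf (P.submatrix Fin.succ Fin.succ) y := by
  have hs : ∀ k : Fin n, P k.succ 0 = P 0 k.succ := by
    intro k
    have := congrFun (congrFun hP 0) k.succ
    exact this
  simp only [qf, dotProduct, Matrix.mulVec, Fin.sum_univ_succ, Fin.cons_zero, Fin.cons_succ,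
    Matrix.submatrix_apply, hs]
  simp only [mul_add, Finset.sum_add_distrib]
  have h1 : ∑ k : Fin n, y k * (P 0 k.succ * x) = x * ∑ k : Fin n, P 0 k.succ * y k := by
    rw [Finset.mul_sum]
    refine Finset.sum_congr rfl (fun k _ => by ring)
  rw [h1]
  ring

lemma sum_qf {m : ℕ} (P : Matrix (Fin m) (Fin m) ℝ) (hP : Pᵀ = P) :
    ∑ f : Fin m → Bool, qf P (pv f) = 2 ^ m * P.trace := by
  induction m with
  | zero => simp [qf, Matrix.trace]
  | succ n ih =>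
    have hP' : (P.submatrix Fin.succ Fin.succ)ᵀ = P.submatrix Fin.succ Fin.succ := by
      rw [Matrix.transpose_submatrix, hP]
    rw [sum_cons, Fintype.sum_bool]
    simp_rw [pv_true, pv_false, qf_cons P hP]
    rw [← Finset.sum_add_distrib]
    have h1 : ∀ f : Fin n → Bool,
        (P 0 0 * 1 ^ 2 +
          2 * 1 * ((fun k => P 0 k.succ) ⬝ᵥ pv f) +
          qf (P.submatrix Fin.succ Fin.succ) (pv f)) +
        (P 0 0 * (-1) ^ 2 +
          2 * (-1) * ((fun k => P 0 k.succ) ⬝ᵥ pv f) +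
          qf (P.submatrix Fin.succ Fin.succ) (pv f)) =
        2 * P 0 0 + 2 * qf (P.submatrix Fin.succ Fin.succ) (pv f) := by
      intro f
      ring
    rw [Finset.sum_congr rfl (fun f _ => h1 f), Finset.sum_add_distrib, ← Finset.mul_sum,
      ← Finset.mul_sum, ih _ hP']
    have h2 : P.trace = P 0 0 + (P.submatrix Fin.succ Fin.succ).trace := by
      simp [Matrix.trace, Fin.sum_univ_succ]
    have h3 : ∑ _f : Fin n → Bool, P 0 0 = 2 ^ n * P 0 0 := by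
      rw [← card_bool n, Finset.sum_mul]; simp
    rw [h2, h3, pow_succ]
    ring

lemma sum_qf_sq {m : ℕ} (P : Matrix (Fin m) (Fin m) ℝ) (hP : Pᵀ = P) :
    ∑ f : Fin m → Bool, qf P (pv f) ^ 2 ≤
      2 ^ m * (P.trace ^ 2 + 2 * ∑ i, ∑ j, P i j ^ 2) := by
  induction m with
  | zero => simp [qf, Matrix.trace]
  | succ n ih =>
    have hP' : (P.submatrix Fin.succ Fin.succ)ᵀ = P.submatrix Fin.succ Fin.succ := by
      rw [Matrix.transpose_submatrix, hP]
    have hs : ∀ k : Fin n, P k.succ 0 = P 0 k.succ := by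
      intro k
      have := congrFun (congrFun hP 0) k.succ
      exact this
    rw [sum_cons, Fintype.sum_bool]
    simp_rw [pv_true, pv_false, qf_cons P hP]
    rw [← Finset.sum_add_distrib]
    set P' := P.submatrix Fin.succ Fin.succ with hP'def
    have h1 : ∀ f : Fin n → Bool,
        (P 0 0 * 1 ^ 2 +
          2 * 1 * ((fun k => P 0 k.succ) ⬝ᵥ pv f) +
          qf P' (pv f)) ^ 2 +
        (P 0 0 * (-1) ^ 2 +
          2 * (-1) * ((fun k => P 0 k.succ) ⬝ᵥ pv f) +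
          qf P' (pv f)) ^ 2 =
        2 * P 0 0 ^ 2 + 4 * P 0 0 * qf P' (pv f) + 2 * qf P' (pv f) ^ 2 +
          8 * ((fun k => P 0 k.succ) ⬝ᵥ pv f) ^ 2 := by
      intro f
      ring
    rw [Finset.sum_congr rfl (fun f _ => h1 f), Finset.sum_add_distrib, Finset.sum_add_distrib,
      Finset.sum_add_distrib, ← Finset.mul_sum, ← Finset.mul_sum, ← Finset.mul_sum,
      sum_qf P' hP', ← Finset.mul_sum, sum_lin_sq]
    have h2 : P.trace = P 0 0 + P'.trace := by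
      simp [Matrix.trace, Fin.sum_univ_succ, hP'def]
    have h3 : ∑ _f : Fin n → Bool, P 0 0 ^ 2 = 2 ^ n * P 0 0 ^ 2 := by
      rw [← card_bool n, Finset.sum_mul]; simp
    have h4 : ∑ i, ∑ j, P i j ^ 2 = P 0 0 ^ 2 +
        2 * ((fun k : Fin n => P 0 k.succ) ⬝ᵥ (fun k => P 0 k.succ)) +
        ∑ i, ∑ j, P' i j ^ 2 := by
      simp only [Fin.sum_univ_succ, hs, Finset.sum_add_distrib, dotProduct, hP'def,
        Matrix.submatrix_apply, ← sq]
      ring
    rw [h2, h3, h4, pow_succ (2 : ℝ) n]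
    have h5 := ih P' hP'
    have h6 : 0 ≤ (2 : ℝ) ^ n * P 0 0 ^ 2 := by positivity
    nlinarith

/-- Sum of an even function over the sign vectors with first entry `1`. -/
lemma sum_even {n : ℕ} (F : (Fin (n + 1) → ℝ) → ℝ) (hF : ∀ y, F (-y) = F y) :
    ∑ g : Fin (n + 1) → Bool, F (pv g) = 2 * ∑ f : Fin n → Bool, F (Fin.cons 1 (pv f)) := by
  rw [sum_cons, Fintype.sum_bool, two_mul]
  simp_rw [pv_true, pv_false]
  congr 1
  let e : (Fin n → Bool) ≃ (Fin n → Bool) :=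
    { toFun := fun f j => !f j
      invFun := fun f j => !f j
      left_inv := fun f => by funext j; simp
      right_inv := fun f => by funext j; simp }
  rw [← Equiv.sum_comp e]
  refine Finset.sum_congr rfl (fun f _ => ?_)
  rw [← hF]
  congr 1
  funext j
  refine Fin.cases ?_ (fun i => ?_) j
  · simp
  · simp only [Pi.neg_apply, Fin.cons_succ, pv, e, Equiv.coe_fn_mk]
    by_cases h : f i = true
    · simp [h]
    · have h' : f i = false := by simpa using h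
      simp [h']

lemma qf_neg {m : ℕ} (P : Matrix (Fin m) (Fin m) ℝ) (y : Fin m → ℝ) : qf P (-y) = qf P y := by
  simp [qf, Matrix.mulVec_neg]

lemma sum_qf1 {n : ℕ} (P : Matrix (Fin (n + 1)) (Fin (n + 1)) ℝ) (hP : Pᵀ = P) :
    ∑ f : Fin n → Bool, qf P (Fin.cons 1 (pv f)) = 2 ^ n * P.trace := by
  have h1 := sum_even (fun y => qf P y) (fun y => qf_neg P y)
  rw [sum_qf P hP, pow_succ] at h1
  linarith

lemma sum_qf1_sq {n : ℕ} (P : Matrix (Fin (n + 1)) (Fin (n + 1)) ℝ) (hP : Pᵀ = P) :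
    ∑ f : Fin n → Bool, qf P (Fin.cons 1 (pv f)) ^ 2 ≤
      2 ^ n * (P.trace ^ 2 + 2 * ∑ i, ∑ j, P i j ^ 2) := by
  have h1 := sum_even (fun y => qf P y ^ 2) (fun y => by simp only [qf_neg])
  have h2 := sum_qf_sq P hP
  rw [h1, pow_succ] at h2
  linarith

/-! ### Gram determinants -/

/-- A matrix with one more row. -/
def addRow {i m : ℕ} (y : Fin m → ℝ) (Y : Matrix (Fin i) (Fin m) ℝ) :
    Matrix (Fin (i + 1)) (Fin m) ℝ :=
  Matrix.of fun k => (Fin.cons y (fun k => Y k) : Fin (i + 1) → Fin m → ℝ) k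

lemma addRow_zero {i m : ℕ} (y : Fin m → ℝ) (Y : Matrix (Fin i) (Fin m) ℝ) (j : Fin m) :
    addRow y Y 0 j = y j := rfl

lemma addRow_succ {i m : ℕ} (y : Fin m → ℝ) (Y : Matrix (Fin i) (Fin m) ℝ) (k : Fin i)
    (j : Fin m) : addRow y Y k.succ j = Y k j := rfl

/-- The projection onto the orthogonal complement of the rows. -/
noncomputable def prj {i m : ℕ} (Y : Matrix (Fin i) (Fin m) ℝ) : Matrix (Fin m) (Fin m) ℝ :=
  1 - Yᵀ * (Y * Yᵀ)⁻¹ * Y

lemma gram_symm {i m : ℕ} (Y : Matrix (Fin i) (Fin m) ℝ) : (Y * Yᵀ)ᵀ = Y * Yᵀ := by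
  rw [Matrix.transpose_mul, Matrix.transpose_transpose]

lemma prj_symm {i m : ℕ} (Y : Matrix (Fin i) (Fin m) ℝ) : (prj Y)ᵀ = prj Y := by
  unfold prj
  rw [Matrix.transpose_sub, Matrix.transpose_one, Matrix.transpose_mul, Matrix.transpose_mul,
    Matrix.transpose_transpose, Matrix.transpose_nonsing_inv, gram_symm, Matrix.mul_assoc]

lemma prj_trace {i m : ℕ} (Y : Matrix (Fin i) (Fin m) ℝ) (hG : (Y * Yᵀ).det ≠ 0) :
    (prj Y).trace = m - i := by
  unfold prj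
  rw [Matrix.trace_sub, Matrix.trace_one, Matrix.mul_assoc, Matrix.trace_mul_comm,
    Matrix.mul_assoc, Matrix.nonsing_inv_mul _ hG.isUnit, Matrix.trace_one]
  simp

lemma prj_sq {i m : ℕ} (Y : Matrix (Fin i) (Fin m) ℝ) (hG : (Y * Yᵀ).det ≠ 0) :
    prj Y * prj Y = prj Y := by
  have h1 : (Yᵀ * (Y * Yᵀ)⁻¹ * Y) * (Yᵀ * (Y * Yᵀ)⁻¹ * Y) = Yᵀ * (Y * Yᵀ)⁻¹ * Y := by
    calc (Yᵀ * (Y * Yᵀ)⁻¹ * Y) * (Yᵀ * (Y * Yᵀ)⁻¹ * Y)
        = Yᵀ * (((Y * Yᵀ)⁻¹ * (Y * Yᵀ)) * ((Y * Yᵀ)⁻¹ * Y)) := by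
          simp only [Matrix.mul_assoc]
      _ = Yᵀ * (Y * Yᵀ)⁻¹ * Y := by
          rw [Matrix.nonsing_inv_mul _ hG.isUnit, Matrix.one_mul, Matrix.mul_assoc]
  unfold prj
  rw [Matrix.sub_mul, Matrix.one_mul, Matrix.mul_sub, Matrix.mul_one, h1]
  abel

lemma prj_frob {i m : ℕ} (Y : Matrix (Fin i) (Fin m) ℝ) (hG : (Y * Yᵀ).det ≠ 0) :
    ∑ a, ∑ b, prj Y a b ^ 2 = m - i := by
  rw [← prj_trace Y hG]
  conv_rhs => rw [← prj_sq Y hG]
  rw [Matrix.trace]
  refine Finset.sum_congr rfl (fun a _ => ?_)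
  rw [Matrix.diag_apply, Matrix.mul_apply]
  refine Finset.sum_congr rfl (fun b _ => ?_)
  have := congrFun (congrFun (prj_symm Y) b) a
  rw [Matrix.transpose_apply] at this
  rw [← this, sq]

lemma gram_step {i m : ℕ} (Y : Matrix (Fin i) (Fin m) ℝ) (y : Fin m → ℝ)
    (hG : (Y * Yᵀ).det ≠ 0) :
    (addRow y Y * (addRow y Y)ᵀ).det = (Y * Yᵀ).det * qf (prj Y) y := by
  let e : Unit ⊕ Fin i ≃ Fin (i + 1) :=
    { toFun := Sum.elim (fun _ => 0) Fin.succ
      invFun := fun k => Fin.cases (Sum.inl ()) (fun j => Sum.inr j) k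
      left_inv := by rintro (u | k) <;> rfl
      right_inv := fun k => by refine Fin.cases rfl (fun j => rfl) k }
  rw [← Matrix.det_submatrix_equiv_self e]
  have h1 : (addRow y Y * (addRow y Y)ᵀ).submatrix e e =
      Matrix.fromBlocks (Matrix.of fun (_ _ : Unit) => y ⬝ᵥ y)
        (Matrix.of fun (_ : Unit) k => (Y *ᵥ y) k)
        (Matrix.of fun k (_ : Unit) => (Y *ᵥ y) k) (Y * Yᵀ) := by
    ext a b
    rcases a with a | a <;> rcases b with b | b
    · rfl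
    · simp only [Matrix.submatrix_apply, Matrix.fromBlocks_apply₁₂, Matrix.of_apply,
        Matrix.mul_apply, Matrix.transpose_apply, Matrix.mulVec, dotProduct]
      refine Finset.sum_congr rfl (fun j _ => ?_)
      exact mul_comm _ _
    · simp only [Matrix.submatrix_apply, Matrix.fromBlocks_apply₂₁, Matrix.of_apply,
        Matrix.mul_apply, Matrix.transpose_apply, Matrix.mulVec, dotProduct]
      rfl
    · simp only [Matrix.submatrix_apply, Matrix.fromBlocks_apply₂₂, 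
        Matrix.mul_apply, Matrix.transpose_apply]
      rfl
  rw [h1]
  have := (Y * Yᵀ).invertibleOfIsUnitDet hG.isUnit
  rw [Matrix.det_fromBlocks₂₂, Matrix.invOf_eq_nonsing_inv]
  congr 1
  have h2 : (Matrix.of (fun (_ : Unit) k => (Y *ᵥ y) k) * (Y * Yᵀ)⁻¹ *
      Matrix.of (fun k (_ : Unit) => (Y *ᵥ y) k)) default default =
      (Y *ᵥ y) ⬝ᵥ ((Y * Yᵀ)⁻¹ *ᵥ (Y *ᵥ y)) := by
    rw [Matrix.mul_assoc]
    rfl
  rw [Matrix.det_eq_elem_of_subsingleton _ (default : Unit), Matrix.sub_apply, h2]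
  unfold qf prj
  rw [Matrix.sub_mulVec, Matrix.one_mulVec, dotProduct_sub, ← Matrix.mulVec_mulVec,
    ← Matrix.mulVec_mulVec, Matrix.dotProduct_mulVec y Yᵀ, Matrix.vecMul_transpose]
  rfl

lemma gram_zero {i m : ℕ} (Y : Matrix (Fin i) (Fin m) ℝ) (y : Fin m → ℝ)
    (hG : (Y * Yᵀ).det = 0) : (addRow y Y * (addRow y Y)ᵀ).det = 0 := by
  obtain ⟨c, hc0, hc⟩ := Matrix.exists_vecMul_eq_zero_iff.2 hG
  have h1 : c ᵥ* Y = 0 := by
    have h2 : (c ᵥ* Y) ⬝ᵥ (c ᵥ* Y) = 0 := by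
      rw [← Matrix.vecMul_vecMul] at hc
      calc (c ᵥ* Y) ⬝ᵥ (c ᵥ* Y) = (c ᵥ* Y) ⬝ᵥ (Yᵀ *ᵥ c) := by rw [Matrix.mulVec_transpose]
        _ = ((c ᵥ* Y) ᵥ* Yᵀ) ⬝ᵥ c := by rw [Matrix.dotProduct_mulVec]
        _ = 0 := by rw [hc, zero_dotProduct]
    exact dotProduct_self_eq_zero.1 h2
  refine Matrix.exists_vecMul_eq_zero_iff.1 ⟨Fin.cons 0 c, ?_, ?_⟩
  · intro h
    apply hc0
    funext k
    exact congrFun h k.succ
  · have h3 : (Fin.cons 0 c : Fin (i + 1) → ℝ) ᵥ* addRow y Y = 0 := by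
      funext j
      have h4 := congrFun h1 j
      simp only [Matrix.vecMul, dotProduct] at h4 ⊢
      rw [Fin.sum_univ_succ]
      simp only [Fin.cons_zero, zero_mul, zero_add, Fin.cons_succ, addRow_succ]
      exact h4
    rw [← Matrix.vecMul_vecMul, h3, Matrix.zero_vecMul]

end Pool.Agent.DetCnt
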