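import Mathlib
import Pool.Agent.DetCnt.Moment

set_option autoImplicit false
set_option linter.unusedSectionVars false

open Matrix

namespace Pool.Agent.DetCnt

open Pool.Agent.DetSpec

/-- The sign matrix with first column `1`. -/
def Ym {i n : ℕ} (R : Fin i → Fin n → Bool) : Matrix (Fin i) (Fin (n + 1)) ℝ :=
  Matrix.of fun k => (Fin.cons 1 (pv (R k)) : Fin (n + 1) → ℝ)

/-- The Gram determinant of the rows. -/
noncomputable def gd {i n : ℕ} (R : Fin i → Fin n → Bool) : ℝ := (Ym R * (Ym R)ᵀ).det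

lemma Ym_cons {i n : ℕ} (b : Fin n → Bool) (R : Fin i → Fin n → Bool) :
    Ym (Fin.cons b R : Fin (i + 1) → Fin n → Bool) = addRow (Fin.cons 1 (pv b)) (Ym R) := by
  ext k j
  refine Fin.cases ?_ (fun k' => ?_) k
  · rfl
  · rfl

lemma sum_gd_row {i n : ℕ} (R : Fin i → Fin n → Bool) :
    ∑ b : Fin n → Bool, gd (Fin.cons b R : Fin (i + 1) → Fin n → Bool) =
      2 ^ n * ((n + 1 : ℝ) - i) * gd R := by
  by_cases h : gd R = 0
  · rw [h, mul_zero]
    refine Finset.sum_eq_zero (fun b _ => ?_)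
    unfold gd
    rw [Ym_cons]
    exact gram_zero _ _ h
  · have h1 : ∀ b : Fin n → Bool, gd (Fin.cons b R : Fin (i + 1) → Fin n → Bool) =
        gd R * qf (prj (Ym R)) (Fin.cons 1 (pv b)) := by
      intro b
      unfold gd
      rw [Ym_cons]
      exact gram_step _ _ h
    rw [Finset.sum_congr rfl (fun b _ => h1 b), ← Finset.mul_sum, sum_qf1 _ (prj_symm _),
      prj_trace _ h]
    push_cast
    ring

lemma sum_gd_row_sq {i n : ℕ} (R : Fin i → Fin n → Bool) :
    ∑ b : Fin n → Bool, gd (Fin.cons b R : Fin (i + 1) → Fin n → Bool) ^ 2 ≤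
      2 ^ n * (((n + 1 : ℝ) - i) * ((n + 3 : ℝ) - i)) * gd R ^ 2 := by
  by_cases h : gd R = 0
  · rw [h]
    refine le_of_eq ?_
    rw [zero_pow (by norm_num), mul_zero]
    refine Finset.sum_eq_zero (fun b _ => ?_)
    have h1 : gd (Fin.cons b R : Fin (i + 1) → Fin n → Bool) = 0 := by
      unfold gd
      rw [Ym_cons]
      exact gram_zero _ _ h
    rw [h1]; norm_num
  · have h1 : ∀ b : Fin n → Bool, gd (Fin.cons b R : Fin (i + 1) → Fin n → Bool) ^ 2 =
        gd R ^ 2 * qf (prj (Ym R)) (Fin.cons 1 (pv b)) ^ 2 := by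
      intro b
      have : gd (Fin.cons b R : Fin (i + 1) → Fin n → Bool) =
          gd R * qf (prj (Ym R)) (Fin.cons 1 (pv b)) := by
        unfold gd
        rw [Ym_cons]
        exact gram_step _ _ h
      rw [this, mul_pow]
    rw [Finset.sum_congr rfl (fun b _ => h1 b), ← Finset.mul_sum]
    have h2 := sum_qf1_sq (prj (Ym R)) (prj_symm _)
    rw [prj_trace _ h, prj_frob _ h] at h2
    have h3 : 0 ≤ gd R ^ 2 := sq_nonneg _
    calc gd R ^ 2 * ∑ b : Fin n → Bool, qf (prj (Ym R)) (Fin.cons 1 (pv b)) ^ 2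
        ≤ gd R ^ 2 * (2 ^ n * ((((n + 1 : ℕ) : ℝ) - i) ^ 2 + 2 * (((n + 1 : ℕ) : ℝ) - i))) :=
          mul_le_mul_of_nonneg_left h2 h3
      _ = _ := by push_cast; ring

lemma sum_gd (n i : ℕ) : ∑ R : Fin i → Fin n → Bool, gd R =
    (2 ^ n) ^ i * ∏ k ∈ Finset.range i, ((n + 1 : ℝ) - k) := by
  induction i with
  | zero => simp [gd]
  | succ i ih =>
    rw [sum_cons, Finset.sum_comm]
    rw [Finset.sum_congr rfl (fun R _ => sum_gd_row R), ← Finset.mul_sum, ih,
      Finset.prod_range_succ, pow_succ]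
    ring

lemma sum_gd_sq (n i : ℕ) (hi : i ≤ n + 1) : ∑ R : Fin i → Fin n → Bool, gd R ^ 2 ≤
    (2 ^ n) ^ i * ∏ k ∈ Finset.range i, (((n + 1 : ℝ) - k) * ((n + 3 : ℝ) - k)) := by
  induction i with
  | zero => simp [gd]
  | succ i ih =>
    have hi' : (i : ℝ) + 1 ≤ n + 1 := by exact_mod_cast hi
    have h1 := ih (by omega)
    rw [sum_cons, Finset.sum_comm]
    refine (Finset.sum_le_sum (fun R _ => sum_gd_row_sq R)).trans ?_
    rw [← Finset.mul_sum, Finset.prod_range_succ, pow_succ]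
    have h2 : 0 ≤ (2 : ℝ) ^ n * (((n + 1 : ℝ) - i) * ((n + 3 : ℝ) - i)) :=
      mul_nonneg (by positivity) (mul_nonneg (by linarith) (by linarith))
    calc _ ≤ (2 : ℝ) ^ n * (((n + 1 : ℝ) - i) * ((n + 3 : ℝ) - i)) *
        ((2 ^ n) ^ i * ∏ k ∈ Finset.range i, (((n + 1 : ℝ) - k) * ((n + 3 : ℝ) - k))) :=
          mul_le_mul_of_nonneg_left h1 h2
      _ = _ := by ring

lemma prod_fac (n : ℕ) : ∏ k ∈ Finset.range (n + 1), ((n + 1 : ℝ) - k) = (n + 1).factorial := by
  have h1 : (((n + 1).descFactorial (n + 1) : ℕ) : ℝ) =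
      ∏ k ∈ Finset.range (n + 1), ((n + 1 : ℝ) - k) := by
    rw [Nat.descFactorial_eq_prod_range]
    push_cast
    refine Finset.prod_congr rfl (fun k hk => ?_)
    rw [Nat.cast_sub (by have := Finset.mem_range.1 hk; omega)]
    push_cast
    ring
  rw [← h1, Nat.descFactorial_self]

lemma prod_fac3 (n : ℕ) : ∏ k ∈ Finset.range (n + 1), ((n + 3 : ℝ) - k) =
    (n + 1).factorial * ((n + 2) * (n + 3) / 2) := by
  have h1 : (((n + 3).descFactorial (n + 1) : ℕ) : ℝ) =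
      ∏ k ∈ Finset.range (n + 1), ((n + 3 : ℝ) - k) := by
    rw [Nat.descFactorial_eq_prod_range]
    push_cast
    refine Finset.prod_congr rfl (fun k hk => ?_)
    rw [Nat.cast_sub (by have := Finset.mem_range.1 hk; omega)]
    push_cast
    ring
  have h2 := Nat.factorial_mul_descFactorial (by omega : n + 1 ≤ n + 3)
  have h3 : n + 3 - (n + 1) = 2 := by omega
  rw [h3] at h2
  have h4 : (n + 3).factorial = (n + 3) * ((n + 2) * (n + 1).factorial) := by
    rw [Nat.factorial_succ, Nat.factorial_succ (n + 1)]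
  rw [h4] at h2
  have h5 : (2 : ℝ) * (((n + 3).descFactorial (n + 1) : ℕ) : ℝ) =
      (n + 3) * ((n + 2) * (n + 1).factorial) := by
    exact_mod_cast h2
  rw [← h1]
  linarith

open Classical in
/-- The Paley-Zygmund inequality for the determinant. -/
lemma pz (n : ℕ) : ((2 : ℝ) ^ n) ^ (n + 1) / (2 * (n + 2) * (n + 3)) ≤
    ∑ R : Fin (n + 1) → Fin n → Bool, (if ((n + 1).factorial : ℝ) / 2 ≤ gd R then (1 : ℝ) else 0) := by
  set T : ℝ := ((2 : ℝ) ^ n) ^ (n + 1) with hT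
  have hT0 : 0 < T := by positivity
  set μ : ℝ := ((n + 1).factorial : ℝ) with hμ
  have hμ0 : 0 < μ := by positivity
  have hS1 : ∑ R : Fin (n + 1) → Fin n → Bool, gd R = T * μ := by
    rw [sum_gd, prod_fac]
  have hS2 : ∑ R : Fin (n + 1) → Fin n → Bool, gd R ^ 2 ≤
      T * (μ * (μ * ((n + 2) * (n + 3) / 2))) := by
    refine (sum_gd_sq n (n + 1) le_rfl).trans (le_of_eq ?_)
    rw [Finset.prod_mul_distrib, prod_fac, prod_fac3]
  set A := ∑ R : Fin (n + 1) → Fin n → Bool, (if μ / 2 ≤ gd R then (1 : ℝ) else 0) with hA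
  set B := ∑ R : Fin (n + 1) → Fin n → Bool, (if μ / 2 ≤ gd R then (1 : ℝ) else 0) * gd R with hB
  have hcardT : ∑ _R : Fin (n + 1) → Fin n → Bool, (1 : ℝ) = T := by
    simp [hT]
  have hB1 : T * μ / 2 ≤ B := by
    have h1 : ∑ R : Fin (n + 1) → Fin n → Bool, gd R ≤
        ∑ R : Fin (n + 1) → Fin n → Bool,
          ((if μ / 2 ≤ gd R then (1 : ℝ) else 0) * gd R + μ / 2 * 1) := by
      refine Finset.sum_le_sum (fun R _ => ?_)
      split_ifs with h
      · linarith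
      · push Not at h; linarith
    rw [hS1, Finset.sum_add_distrib, ← Finset.mul_sum, hcardT] at h1
    linarith
  have hCS : B ^ 2 ≤ A * ∑ R : Fin (n + 1) → Fin n → Bool, gd R ^ 2 := by
    have h1 := Finset.sum_mul_sq_le_sq_mul_sq Finset.univ
      (fun R : Fin (n + 1) → Fin n → Bool => (if μ / 2 ≤ gd R then (1 : ℝ) else 0)) gd
    have h2 : ∑ R : Fin (n + 1) → Fin n → Bool, (if μ / 2 ≤ gd R then (1 : ℝ) else 0) ^ 2 = A := by
      refine Finset.sum_congr rfl (fun R _ => ?_)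
      split_ifs <;> norm_num
    rw [h2] at h1
    exact h1
  have hA0 : 0 ≤ A := Finset.sum_nonneg (fun R _ => by split_ifs <;> norm_num)
  have h3 : (T * μ / 2) ^ 2 ≤ A * (T * (μ * (μ * ((n + 2) * (n + 3) / 2)))) := by
    calc (T * μ / 2) ^ 2 ≤ B ^ 2 := pow_le_pow_left₀ (by positivity) hB1 2
      _ ≤ A * ∑ R : Fin (n + 1) → Fin n → Bool, gd R ^ 2 := hCS
      _ ≤ _ := mul_le_mul_of_nonneg_left hS2 hA0
  rw [div_le_iff₀ (by positivity)]
  have h4 : T * μ ^ 2 * T ≤ T * μ ^ 2 * (A * (2 * (n + 2) * (n + 3))) := by nlinarith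
  exact le_of_mul_le_mul_left h4 (by positivity)

end Pool.Agent.DetCnt
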