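import Mathlib
import Pool.Agent.DetSpec.Main

set_option autoImplicit false
set_option linter.unusedSectionVars false

open Matrix

namespace Pool.Agent.DetCnt

open Pool.Agent.DetSpec

/-- The vector `(1, f)` over `K`. -/
def v1 (K : Type) [Field K] {n : ℕ} (f : Fin n → Bool) : Fin (n + 1) → K := Fin.cons 1 (bv K f)

/-- The span of the rows `(1, B k)`. -/
def sp (K : Type) [Field K] {i n : ℕ} (B : Fin i → Fin n → Bool) :
    Submodule K (Fin (n + 1) → K) := Submodule.span K (Set.range (fun k => v1 K (B k)))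

lemma sp_cons (K : Type) [Field K] {i n : ℕ} (b : Fin n → Bool) (B : Fin i → Fin n → Bool) :
    sp K (Fin.cons b B : Fin (i + 1) → Fin n → Bool) =
      Submodule.span K {v1 K b} ⊔ sp K B := by
  have : Set.range (fun k : Fin (i + 1) =>
      v1 K ((Fin.cons b B : Fin (i + 1) → Fin n → Bool) k)) =
      insert (v1 K b) (Set.range (fun k => v1 K (B k))) := by
    ext x
    constructor
    · rintro ⟨k, rfl⟩
      refine Fin.cases ?_ (fun j => ?_) k
      · exact Or.inl rfl
      · exact Or.inr ⟨j, rfl⟩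
    · rintro (rfl | ⟨j, rfl⟩)
      · exact ⟨0, rfl⟩
      · exact ⟨j.succ, rfl⟩
  rw [sp, this, Submodule.span_insert]
  rfl

lemma finrank_sp_le (K : Type) [Field K] {i n : ℕ} (B : Fin i → Fin n → Bool) :
    Module.finrank K (sp K B) ≤ i := by
  have := finrank_range_le_card (R := K) (fun k => v1 K (B k))
  rwa [Fintype.card_fin] at this

lemma rwt_half {n : ℕ} (a f : Fin n → Bool) : rwt (1 / 2) a f = (1 / 2 : ℝ) ^ n := by
  have : ∀ x y : Bool, wt (1 / 2) x y = 1 / 2 := by
    intro x y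
    unfold wt
    split_ifs <;> norm_num
  unfold rwt
  simp_rw [this]
  simp

open Classical in
/-- The number of binary vectors `f` with `(1, f)` in a subspace. -/
lemma count_mem (K : Type) [Field K] {n : ℕ} (W : Submodule K (Fin (n + 1) → K)) :
    2 * ∑ f : Fin n → Bool, (if v1 K f ∈ W then (1 : ℝ) else 0) ≤
      2 ^ Module.finrank K W := by
  by_cases hex : ∃ f0 : Fin n → Bool, v1 K f0 ∈ W
  · obtain ⟨f0, hf0⟩ := hex
    let i0 : (Fin n → K) →ₗ[K] (Fin (n + 1) → K) :=
      { toFun := fun v => Fin.cons 0 v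
        map_add' := fun x y => by
          funext j; refine Fin.cases ?_ (fun i => ?_) j <;> simp
        map_smul' := fun r x => by
          funext j; refine Fin.cases ?_ (fun i => ?_) j <;> simp }
    have hi0 : Function.Injective i0 := by
      intro x y hxy
      have : (Fin.cons 0 x : Fin (n + 1) → K) = Fin.cons 0 y := hxy
      exact (Fin.cons_injective2 this).2
    set V : Submodule K (Fin n → K) := W.comap i0 with hV
    have hdim : Module.finrank K (V.map i0) = Module.finrank K V :=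
      (LinearEquiv.finrank_eq (Submodule.equivMapOfInjective i0 hi0 V)).symm
    have hlt : V.map i0 < W := by
      refine lt_of_le_of_ne (Submodule.map_comap_le _ _) ?_
      intro heq
      rw [← heq] at hf0
      obtain ⟨w, -, hw⟩ := hf0
      have h1 := congrFun hw 0
      have h2 : (i0 w) 0 = 0 := rfl
      have h3 : (v1 K f0) 0 = 1 := rfl
      rw [h2, h3] at h1
      exact zero_ne_one h1
    have hlt' : Module.finrank K V < Module.finrank K W := by
      rw [← hdim]; exact Submodule.finrank_lt_finrank_of_lt hlt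
    have hVn : Module.finrank K V ≤ n := by
      have := Submodule.finrank_le V
      rwa [Module.finrank_fin_fun] at this
    have hodl := odlyzko K (by norm_num : (0 : ℝ) ≤ 1 / 2) le_rfl n V (bv K f0) f0
    have hle : ∑ f : Fin n → Bool, (if v1 K f ∈ W then (1 : ℝ) else 0) ≤
        2 ^ n * ∑ f : Fin n → Bool,
          (if bv K f - bv K f0 ∈ V then rwt (1 / 2) f0 f else 0) := by
      rw [Finset.mul_sum]
      refine Finset.sum_le_sum (fun f _ => ?_)
      rw [rwt_half]
      have h2 : (2 : ℝ) ^ n * (1 / 2) ^ n = 1 := by rw [← mul_pow]; norm_num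
      by_cases hf : v1 K f ∈ W
      · have hf' : bv K f - bv K f0 ∈ V := by
          rw [hV, Submodule.mem_comap]
          have e1 : i0 (bv K f - bv K f0) = v1 K f - v1 K f0 := by
            funext j
            refine Fin.cases ?_ (fun i => ?_) j
            · change (0 : K) = 1 - 1
              ring
            · rfl
          rw [e1]
          exact W.sub_mem hf hf0
        rw [if_pos hf, if_pos hf', h2]
      · rw [if_neg hf]
        split_ifs
        · rw [h2]; norm_num
        · simp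
    have h3 : (2 : ℝ) ^ n * (1 - 1 / 2) ^ (n - Module.finrank K V) =
        2 ^ Module.finrank K V := by
      have : (2 : ℝ) ^ n = 2 ^ (n - Module.finrank K V) * 2 ^ Module.finrank K V := by
        rw [← pow_add]; congr 1; omega
      rw [this]
      have h4 : (2 : ℝ) ^ (n - Module.finrank K V) * (1 - 1 / 2) ^ (n - Module.finrank K V) = 1 := by
        rw [← mul_pow]; norm_num
      calc _ = ((2 : ℝ) ^ (n - Module.finrank K V) * (1 - 1 / 2) ^ (n - Module.finrank K V)) *
            2 ^ Module.finrank K V := by ring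
        _ = _ := by rw [h4, one_mul]
    calc 2 * ∑ f : Fin n → Bool, (if v1 K f ∈ W then (1 : ℝ) else 0)
        ≤ 2 * (2 ^ n * (1 - 1 / 2) ^ (n - Module.finrank K V)) := by
          have := mul_le_mul_of_nonneg_left hodl (by positivity : (0 : ℝ) ≤ 2 ^ n)
          linarith
      _ = 2 ^ (Module.finrank K V + 1) := by rw [h3, pow_succ]; ring
      _ ≤ 2 ^ Module.finrank K W := pow_le_pow_right₀ (by norm_num) (by omega)
  · push Not at hex
    have : ∑ f : Fin n → Bool, (if v1 K f ∈ W then (1 : ℝ) else 0) = 0 :=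
      Finset.sum_eq_zero (fun f _ => if_neg (hex f))
    rw [this, mul_zero]
    positivity

/-! ### The integer Gram determinant -/

/-- The integer matrix with rows `(1, B k)`. -/
def YZ {i n : ℕ} (B : Fin i → Fin n → Bool) : Matrix (Fin i) (Fin (n + 1)) ℤ :=
  Matrix.of fun k => (Fin.cons 1 (fun j => if B k j then 1 else 0) : Fin (n + 1) → ℤ)

/-- The integer Gram determinant. -/
def GZ {i n : ℕ} (B : Fin i → Fin n → Bool) : ℤ := (YZ B * (YZ B)ᵀ).det

/-- The matrix with rows `(1, B k)` over `K`. -/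
def YK (K : Type) [Field K] {i n : ℕ} (B : Fin i → Fin n → Bool) :
    Matrix (Fin i) (Fin (n + 1)) K := Matrix.of fun k => v1 K (B k)

lemma YZ_map (K : Type) [Field K] {i n : ℕ} (B : Fin i → Fin n → Bool) :
    (YZ B).map (Int.castRingHom K) = YK K B := by
  ext k j
  refine Fin.cases ?_ (fun j' => ?_) j
  · simp [YZ, YK, v1]
  · simp only [YZ, YK, v1, Matrix.map_apply, Matrix.of_apply, Fin.cons_succ, bv, eq_intCast]
    split_ifs <;> simp

lemma GZ_cast (K : Type) [Field K] {i n : ℕ} (B : Fin i → Fin n → Bool) :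
    ((GZ B : ℤ) : K) = (YK K B * (YK K B)ᵀ).det := by
  have h := (Int.castRingHom K).map_det (YZ B * (YZ B)ᵀ)
  rw [eq_intCast] at h
  rw [GZ, h, RingHom.mapMatrix_apply, Matrix.map_mul, Matrix.transpose_map, YZ_map]

lemma dep_of_lt (K : Type) [Field K] {i n : ℕ} (B : Fin i → Fin n → Bool)
    (h : Module.finrank K (sp K B) < i) : ∃ c : Fin i → K, c ≠ 0 ∧ c ᵥ* YK K B = 0 := by
  by_contra hcon
  push Not at hcon
  have hli : LinearIndependent K (fun k => v1 K (B k)) := by
    rw [Fintype.linearIndependent_iff]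
    intro c hc
    by_contra hne
    push Not at hne
    obtain ⟨k, hk⟩ := hne
    refine hcon c (fun h0 => hk (by rw [h0]; rfl)) ?_
    funext j
    have := congrFun hc j
    simp only [Finset.sum_apply, Pi.smul_apply, smul_eq_mul] at this
    simp only [Matrix.vecMul, dotProduct, YK, Matrix.of_apply]
    exact this
  have h2 := finrank_span_eq_card hli
  rw [Fintype.card_fin] at h2
  have h3 : Module.finrank K (sp K B) = i := h2
  omega

/-- If the rational rank is full then the Gram determinant is nonzero. -/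
lemma GZ_ne_zero {i n : ℕ} (B : Fin i → Fin n → Bool)
    (h : Module.finrank ℚ (sp ℚ B) = i) : GZ B ≠ 0 := by
  intro h0
  have h1 : (YK ℚ B * (YK ℚ B)ᵀ).det = 0 := by
    rw [← GZ_cast, h0, Int.cast_zero]
  obtain ⟨c, hc0, hc⟩ := Matrix.exists_vecMul_eq_zero_iff.2 h1
  have h2 : c ᵥ* YK ℚ B = 0 := by
    have h3 : (c ᵥ* YK ℚ B) ⬝ᵥ (c ᵥ* YK ℚ B) = 0 := by
      rw [← Matrix.vecMul_vecMul] at hc
      calc (c ᵥ* YK ℚ B) ⬝ᵥ (c ᵥ* YK ℚ B) = (c ᵥ* YK ℚ B) ⬝ᵥ ((YK ℚ B)ᵀ *ᵥ c) := by
            rw [Matrix.mulVec_transpose]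
        _ = ((c ᵥ* YK ℚ B) ᵥ* (YK ℚ B)ᵀ) ⬝ᵥ c := by rw [Matrix.dotProduct_mulVec]
        _ = 0 := by rw [hc, zero_dotProduct]
    exact dotProduct_self_eq_zero.1 h3
  have hli : LinearIndependent ℚ (fun k => v1 ℚ (B k)) := by
    rw [linearIndependent_iff_card_eq_finrank_span, Fintype.card_fin]
    exact h.symm
  rw [Fintype.linearIndependent_iff] at hli
  apply hc0
  funext k
  refine hli c ?_ k
  funext j
  have := congrFun h2 j
  simp only [Matrix.vecMul, dotProduct, YK, Matrix.of_apply] at this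
  simp only [Finset.sum_apply, Pi.smul_apply, smul_eq_mul]
  exact this

lemma dvd_GZ {i n : ℕ} (p : ℕ) [Fact p.Prime] (B : Fin i → Fin n → Bool)
    (h : Module.finrank (ZMod p) (sp (ZMod p) B) < i) : (p : ℤ) ∣ GZ B := by
  obtain ⟨c, hc0, hc⟩ := dep_of_lt (ZMod p) B h
  have h1 : (YK (ZMod p) B * (YK (ZMod p) B)ᵀ).det = 0 := by
    refine Matrix.exists_vecMul_eq_zero_iff.1 ⟨c, hc0, ?_⟩
    rw [← Matrix.vecMul_vecMul, hc, Matrix.zero_vecMul]
  rw [← GZ_cast] at h1
  exact (ZMod.intCast_zmod_eq_zero_iff_dvd _ _).1 h1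

lemma GZ_bound {i n : ℕ} (B : Fin i → Fin n → Bool) :
    (GZ B).natAbs ≤ i.factorial * (n + 1) ^ i := by
  have h1 : ∀ k l, |(YZ B * (YZ B)ᵀ) k l| ≤ ((n + 1 : ℕ) : ℤ) := by
    intro k l
    rw [Matrix.mul_apply]
    refine (Finset.abs_sum_le_sum_abs _ _).trans ?_
    have h2 : ∀ j : Fin (n + 1), |YZ B k j * (YZ B)ᵀ j l| ≤ 1 := by
      intro j
      have h3 : ∀ k j, |YZ B k j| ≤ 1 := by
        intro k j
        refine Fin.cases ?_ (fun j' => ?_) j
        · simp [YZ]
        · simp only [YZ, Matrix.of_apply, Fin.cons_succ]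
          split_ifs <;> simp
      rw [abs_mul, Matrix.transpose_apply]
      calc |YZ B k j| * |YZ B l j| ≤ 1 * 1 :=
            mul_le_mul (h3 k j) (h3 l j) (abs_nonneg _) (by norm_num)
        _ = 1 := by norm_num
    calc ∑ j, |YZ B k j * (YZ B)ᵀ j l| ≤ ∑ _j : Fin (n + 1), (1 : ℤ) :=
          Finset.sum_le_sum (fun j _ => h2 j)
      _ = ((n + 1 : ℕ) : ℤ) := by simp
  have h4 := Matrix.det_le (abv := (IsAbsoluteValue.toAbsoluteValue (fun x : ℤ => |x|)))
    (A := YZ B * (YZ B)ᵀ) (x := ((n + 1 : ℕ) : ℤ)) h1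
  rw [Fintype.card_fin] at h4
  have h5 : |GZ B| ≤ ((i.factorial * (n + 1) ^ i : ℕ) : ℤ) := by
    refine h4.trans (le_of_eq ?_)
    push_cast
    rw [nsmul_eq_mul]
  have h6 : (((GZ B).natAbs : ℕ) : ℤ) ≤ ((i.factorial * (n + 1) ^ i : ℕ) : ℤ) := by
    rw [Int.natCast_natAbs]; exact h5
  exact_mod_cast h6

lemma card_primes_GZ {i n l : ℕ} (B : Fin i → Fin n → Bool) (h0 : GZ B ≠ 0) (hi : i ≤ n + 1)
    (hl : n + 1 < 2 ^ l) : (GZ B).natAbs.primeFactors.card ≤ 2 * (n + 1) * l := by
  set D := (GZ B).natAbs with hD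
  have hD0 : D ≠ 0 := by simpa [hD] using h0
  have h1 : 2 ^ D.primeFactors.card ≤ D := by
    calc 2 ^ D.primeFactors.card = ∏ _p ∈ D.primeFactors, 2 := by
          rw [Finset.prod_const]
      _ ≤ ∏ p ∈ D.primeFactors, p :=
          Finset.prod_le_prod' (fun p hp => (Nat.prime_of_mem_primeFactors hp).two_le)
      _ ≤ D := Nat.le_of_dvd (Nat.pos_of_ne_zero hD0) (Nat.prod_primeFactors_dvd D)
  have h2 : D ≤ (2 ^ l) ^ (2 * (n + 1)) := by
    calc D ≤ i.factorial * (n + 1) ^ i := GZ_bound B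
      _ ≤ (n + 1) ^ (n + 1) * (n + 1) ^ (n + 1) := by
          apply Nat.mul_le_mul
          · calc i.factorial ≤ (n + 1).factorial := Nat.factorial_le hi
              _ ≤ (n + 1) ^ (n + 1) := Nat.factorial_le_pow _
          · exact Nat.pow_le_pow_right (by omega) hi
      _ = (n + 1) ^ (2 * (n + 1)) := by rw [← pow_add]; congr 1; ring
      _ ≤ (2 ^ l) ^ (2 * (n + 1)) := Nat.pow_le_pow_left hl.le _
  rw [← pow_mul] at h2
  have h3 := (Nat.pow_le_pow_iff_right (by norm_num : 1 < 2)).1 (h1.trans h2)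
  calc _ ≤ l * (2 * (n + 1)) := h3
    _ = _ := by ring

end Pool.Agent.DetCnt
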