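import Mathlib
import Pool.Agent.DetCnt.Rank
import Pool.Agent.DetCnt.Pz

set_option autoImplicit false
set_option linter.unusedSectionVars false

open Matrix

namespace Pool.Agent.DetCnt

open Pool.Agent.DetSpec

/-- Full rational rank, and corank at most one modulo every prime. -/
def GoodR {i n : ℕ} (B : Fin i → Fin n → Bool) : Prop :=
  Module.finrank ℚ (sp ℚ B) = i ∧
    ∀ (p : ℕ) [Fact p.Prime], i ≤ Module.finrank (ZMod p) (sp (ZMod p) B) + 1

lemma sp_le_cons (K : Type) [Field K] {i n : ℕ} (b : Fin n → Bool) (B : Fin i → Fin n → Bool) :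
    Module.finrank K (sp K B) ≤
      Module.finrank K (sp K (Fin.cons b B : Fin (i + 1) → Fin n → Bool)) := by
  rw [sp_cons]
  exact Submodule.finrank_mono le_sup_right

lemma good_cons {i n : ℕ} (b : Fin n → Bool) (B : Fin i → Fin n → Bool) (hB : GoodR B)
    (h0 : v1 ℚ b ∉ sp ℚ B)
    (hp : ∀ p ∈ (GZ B).natAbs.primeFactors,
      ¬ ∃ _ : Fact p.Prime, v1 (ZMod p) b ∈ sp (ZMod p) B) :
    GoodR (Fin.cons b B : Fin (i + 1) → Fin n → Bool) := by
  obtain ⟨hQ, hP⟩ := hB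
  refine ⟨?_, ?_⟩
  · rw [sp_cons, finrank_sup_not_mem ℚ _ _ h0, hQ]
  · intro p hpp
    by_cases h : Module.finrank (ZMod p) (sp (ZMod p) B) < i
    · have hd := dvd_GZ p B h
      have hmem : p ∈ (GZ B).natAbs.primeFactors := by
        refine Nat.mem_primeFactors.2 ⟨hpp.out, Int.natCast_dvd.1 hd, ?_⟩
        simpa using GZ_ne_zero B hQ
      have hnot : v1 (ZMod p) b ∉ sp (ZMod p) B := fun hmem' => hp p hmem ⟨hpp, hmem'⟩
      rw [sp_cons, finrank_sup_not_mem (ZMod p) _ _ hnot]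
      have := hP p
      omega
    · have h1 := sp_le_cons (ZMod p) b B
      omega

open Classical in
lemma bad_row {i n l : ℕ} (B : Fin i → Fin n → Bool) (hB : GoodR B) (hi : i ≤ n + 1)
    (hl : n + 1 < 2 ^ l) :
    ∑ b : Fin n → Bool,
      (if GoodR (Fin.cons b B : Fin (i + 1) → Fin n → Bool) then (0 : ℝ) else 1) ≤
      (1 + (2 * (n + 1) * l : ℕ)) * (2 ^ i / 2) := by
  have hterm : ∀ b : Fin n → Bool,
      (if GoodR (Fin.cons b B : Fin (i + 1) → Fin n → Bool) then (0 : ℝ) else 1) ≤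
      (if v1 ℚ b ∈ sp ℚ B then (1 : ℝ) else 0) +
        ∑ p ∈ (GZ B).natAbs.primeFactors,
          (if ∃ _ : Fact p.Prime, v1 (ZMod p) b ∈ sp (ZMod p) B then (1 : ℝ) else 0) := by
    intro b
    have hnn : ∀ p ∈ (GZ B).natAbs.primeFactors, (0 : ℝ) ≤
        (if ∃ _ : Fact p.Prime, v1 (ZMod p) b ∈ sp (ZMod p) B then (1 : ℝ) else 0) := by
      intro p _
      split_ifs <;> norm_num
    have hnn' := Finset.sum_nonneg hnn
    by_cases hg : GoodR (Fin.cons b B : Fin (i + 1) → Fin n → Bool)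
    · rw [if_pos hg]
      split_ifs
      · linarith
      · linarith
    · rw [if_neg hg]
      by_cases h0 : v1 ℚ b ∈ sp ℚ B
      · rw [if_pos h0]; linarith
      · rw [if_neg h0, zero_add]
        have hex : ∃ p ∈ (GZ B).natAbs.primeFactors,
            ∃ _ : Fact p.Prime, v1 (ZMod p) b ∈ sp (ZMod p) B := by
          by_contra hcon
          push Not at hcon
          exact hg (good_cons b B hB h0 (fun p hp ⟨hpp, hm⟩ => hcon p hp hpp hm))
        obtain ⟨p, hp, hpm⟩ := hex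
        calc (1 : ℝ) = (if ∃ _ : Fact p.Prime, v1 (ZMod p) b ∈ sp (ZMod p) B then (1 : ℝ)
              else 0) := (if_pos hpm).symm
          _ ≤ _ := Finset.single_le_sum (f := fun p =>
              (if ∃ _ : Fact p.Prime, v1 (ZMod p) b ∈ sp (ZMod p) B then (1 : ℝ) else 0)) hnn hp
  refine (Finset.sum_le_sum (fun b _ => hterm b)).trans ?_
  rw [Finset.sum_add_distrib, Finset.sum_comm]
  have hcount : ∀ (K : Type) [Field K],
      ∑ f : Fin n → Bool, (if v1 K f ∈ sp K B then (1 : ℝ) else 0) ≤ 2 ^ i / 2 := by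
    intro K _
    have h1 := count_mem K (sp K B)
    have h2 : (2 : ℝ) ^ Module.finrank K (sp K B) ≤ 2 ^ i :=
      pow_le_pow_right₀ (by norm_num) (finrank_sp_le K B)
    linarith
  have h2 : ∑ p ∈ (GZ B).natAbs.primeFactors, ∑ b : Fin n → Bool,
      (if ∃ _ : Fact p.Prime, v1 (ZMod p) b ∈ sp (ZMod p) B then (1 : ℝ) else 0) ≤
      ∑ p ∈ (GZ B).natAbs.primeFactors, (2 ^ i / 2 : ℝ) := by
    refine Finset.sum_le_sum (fun p hp => ?_)
    have hpp : Fact p.Prime := ⟨Nat.prime_of_mem_primeFactors hp⟩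
    refine le_trans (le_of_eq ?_) (hcount (ZMod p))
    refine Finset.sum_congr rfl (fun f _ => ?_)
    refine if_congr ?_ rfl rfl
    exact ⟨fun ⟨_, hh⟩ => hh, fun hh => ⟨hpp, hh⟩⟩
  rw [Finset.sum_const, nsmul_eq_mul] at h2
  have h3 : (((GZ B).natAbs.primeFactors.card : ℕ) : ℝ) ≤ ((2 * (n + 1) * l : ℕ) : ℝ) := by
    exact_mod_cast card_primes_GZ B (GZ_ne_zero B hB.1) hi hl
  have h4 : (0 : ℝ) ≤ 2 ^ i / 2 := by positivity
  have h5 := mul_le_mul_of_nonneg_right h3 h4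
  have h6 := hcount ℚ
  linarith

lemma good_zero {n : ℕ} (B : Fin 0 → Fin n → Bool) : GoodR B := by
  refine ⟨?_, fun p _ => by omega⟩
  have := finrank_sp_le ℚ B
  omega

open Classical in
lemma bad_le (n l : ℕ) (hl : n + 1 < 2 ^ l) (i : ℕ) (hi : i ≤ n + 1) :
    ∑ B : Fin i → Fin n → Bool, (if GoodR B then (0 : ℝ) else 1) ≤
      (1 + (2 * (n + 1) * l : ℕ)) * (2 ^ i / 2 ^ (n + 1)) * (2 ^ n) ^ i := by
  induction i with
  | zero =>
    have : ∀ B : Fin 0 → Fin n → Bool, (if GoodR B then (0 : ℝ) else 1) = 0 :=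
      fun B => if_pos (good_zero B)
    rw [Finset.sum_congr rfl (fun B _ => this B), Finset.sum_const_zero]
    positivity
  | succ i ih =>
    have ih' := ih (by omega)
    set Q : ℝ := 1 + (2 * (n + 1) * l : ℕ) with hQ
    have hQ0 : 0 ≤ Q := by rw [hQ]; positivity
    rw [sum_cons, Finset.sum_comm]
    have hrow : ∀ B : Fin i → Fin n → Bool, ∑ b : Fin n → Bool,
        (if GoodR (Fin.cons b B : Fin (i + 1) → Fin n → Bool) then (0 : ℝ) else 1) ≤
        2 ^ n * (if GoodR B then (0 : ℝ) else 1) + Q * (2 ^ i / 2) := by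
      intro B
      by_cases hB : GoodR B
      · rw [if_pos hB, mul_zero, zero_add]
        exact bad_row B hB (by omega) hl
      · rw [if_neg hB, mul_one]
        have h1 : ∑ b : Fin n → Bool,
            (if GoodR (Fin.cons b B : Fin (i + 1) → Fin n → Bool) then (0 : ℝ) else 1) ≤
            ∑ _b : Fin n → Bool, (1 : ℝ) := by
          refine Finset.sum_le_sum (fun b _ => ?_)
          split_ifs <;> norm_num
        rw [card_bool] at h1
        have h2 : 0 ≤ Q * (2 ^ i / 2) := by positivity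
        linarith
    refine (Finset.sum_le_sum (fun B _ => hrow B)).trans ?_
    rw [Finset.sum_add_distrib, ← Finset.mul_sum, Finset.sum_const, nsmul_eq_mul]
    have hc : ((Finset.univ : Finset (Fin i → Fin n → Bool)).card : ℝ) = (2 ^ n) ^ i := by
      simp
    rw [hc]
    have h3 : (2 : ℝ) ^ n * ∑ B : Fin i → Fin n → Bool, (if GoodR B then (0 : ℝ) else 1) ≤
        2 ^ n * (Q * (2 ^ i / 2 ^ (n + 1)) * (2 ^ n) ^ i) :=
      mul_le_mul_of_nonneg_left ih' (by positivity)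
    refine (add_le_add_left h3 _).trans (le_of_eq ?_)
    have e1 : (2 : ℝ) ^ (n + 1) = 2 * 2 ^ n := by rw [pow_succ]; ring
    rw [e1, pow_succ (2 : ℝ) i, pow_succ ((2 : ℝ) ^ n) i]
    field_simp
    ring

/-- Lower bound for the ranks modulo all primes. -/
def RkGe {i n : ℕ} (r : ℕ) (B : Fin i → Fin n → Bool) : Prop :=
  ∀ (p : ℕ) [Fact p.Prime], r ≤ Module.finrank (ZMod p) (sp (ZMod p) B)

open Classical in
lemma rk_tail (n r i t : ℕ) : ∀ N : ℕ, N = i + t →
    ∑ B : Fin N → Fin n → Bool, (if RkGe r B then (0 : ℝ) else 1) ≤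
      (2 ^ n) ^ t * ∑ B : Fin i → Fin n → Bool, (if RkGe r B then (0 : ℝ) else 1) := by
  induction t with
  | zero => rintro N rfl; simp
  | succ t ih =>
    rintro N rfl
    have h1 := ih (i + t) rfl
    change ∑ B : Fin (i + t + 1) → Fin n → Bool, (if RkGe r B then (0 : ℝ) else 1) ≤ _
    rw [sum_cons, Finset.sum_comm]
    have hrow : ∀ B : Fin (i + t) → Fin n → Bool, ∑ b : Fin n → Bool,
        (if RkGe r (Fin.cons b B : Fin (i + t + 1) → Fin n → Bool) then (0 : ℝ) else 1) ≤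
        2 ^ n * (if RkGe r B then (0 : ℝ) else 1) := by
      intro B
      rw [← card_bool n, Finset.sum_mul]
      refine Finset.sum_le_sum (fun b _ => ?_)
      rw [one_mul]
      by_cases hB : RkGe r B
      · rw [if_pos hB, if_pos]
        intro p hp
        exact (hB p).trans (sp_le_cons (ZMod p) b B)
      · rw [if_neg hB]
        split_ifs <;> norm_num
    refine (Finset.sum_le_sum (fun B _ => hrow B)).trans ?_
    rw [← Finset.mul_sum, pow_succ]
    calc (2 : ℝ) ^ n * ∑ B : Fin (i + t) → Fin n → Bool, (if RkGe r B then (0 : ℝ) else 1)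
        ≤ 2 ^ n * ((2 ^ n) ^ t * ∑ B : Fin i → Fin n → Bool,
          (if RkGe r B then (0 : ℝ) else 1)) := mul_le_mul_of_nonneg_left h1 (by positivity)
      _ = _ := by ring

open Classical in
/-- Most families of `n + 1` rows have small corank modulo all primes. -/
lemma rk_final (n l s : ℕ) (hl : n + 1 < 2 ^ l) (hs : s ≤ n) :
    ∑ B : Fin (n + 1) → Fin n → Bool, (if RkGe (n - s) B then (0 : ℝ) else 1) ≤
      (1 + (2 * (n + 1) * l : ℕ)) / 2 ^ s * (2 ^ n) ^ (n + 1) := by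
  have h1 := rk_tail n (n - s) (n + 1 - s) s (n + 1) (by omega)
  refine h1.trans ?_
  have h2 : ∑ B : Fin (n + 1 - s) → Fin n → Bool, (if RkGe (n - s) B then (0 : ℝ) else 1) ≤
      ∑ B : Fin (n + 1 - s) → Fin n → Bool, (if GoodR B then (0 : ℝ) else 1) := by
    refine Finset.sum_le_sum (fun B _ => ?_)
    by_cases hB : GoodR B
    · rw [if_pos hB, if_pos]
      intro p hp
      have := hB.2 p
      omega
    · rw [if_neg hB]
      split_ifs <;> norm_num
  have h3 := bad_le n l hl (n + 1 - s) (by omega)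
  have h4 := mul_le_mul_of_nonneg_left (h2.trans h3) (by positivity : (0 : ℝ) ≤ (2 ^ n) ^ s)
  refine h4.trans (le_of_eq ?_)
  have e1 : (2 : ℝ) ^ (n + 1) = 2 ^ (n + 1 - s) * 2 ^ s := by
    rw [← pow_add]; congr 1; omega
  have e2 : ((2 : ℝ) ^ n) ^ (n + 1) = (2 ^ n) ^ (n + 1 - s) * (2 ^ n) ^ s := by
    rw [← pow_add]; congr 1; omega
  rw [e2]
  rw [e1]
  have e3 : (2 : ℝ) ^ (n + 1 - s) / (2 ^ (n + 1 - s) * 2 ^ s) = 1 / 2 ^ s := by
    rw [div_mul_eq_div_div, div_self (by positivity)]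
  rw [e3]
  ring

open Classical in
/-- Many good cores. -/
lemma cores (n l s : ℕ) (hl : n + 1 < 2 ^ l) (hs : s ≤ n)
    (hsmall : (1 + (2 * (n + 1) * l : ℕ) : ℝ) / 2 ^ s ≤ 1 / (4 * (n + 2) * (n + 3))) :
    ((2 : ℝ) ^ n) ^ (n + 1) / (4 * (n + 2) * (n + 3)) ≤
      ∑ R : Fin (n + 1) → Fin n → Bool,
        (if ((n + 1).factorial : ℝ) / 2 ≤ gd R ∧ RkGe (n - s) R then (1 : ℝ) else 0) := by
  have h1 := pz n
  have h2 := rk_final n l s hl hs
  have h3 : ∑ R : Fin (n + 1) → Fin n → Bool,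
      (if ((n + 1).factorial : ℝ) / 2 ≤ gd R then (1 : ℝ) else 0) ≤
      ∑ R : Fin (n + 1) → Fin n → Bool,
        ((if ((n + 1).factorial : ℝ) / 2 ≤ gd R ∧ RkGe (n - s) R then (1 : ℝ) else 0) +
          (if RkGe (n - s) R then (0 : ℝ) else 1)) := by
    refine Finset.sum_le_sum (fun R _ => ?_)
    by_cases h : ((n + 1).factorial : ℝ) / 2 ≤ gd R
    · by_cases h' : RkGe (n - s) R
      · rw [if_pos h, if_pos ⟨h, h'⟩, if_pos h']; norm_num
      · rw [if_pos h, if_neg h']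
        split_ifs <;> norm_num
    · rw [if_neg h]
      split_ifs <;> norm_num
  rw [Finset.sum_add_distrib] at h3
  have hT : (0 : ℝ) ≤ ((2 : ℝ) ^ n) ^ (n + 1) := by positivity
  have h4 := mul_le_mul_of_nonneg_right hsmall hT
  have h5 : ((2 : ℝ) ^ n) ^ (n + 1) / (2 * (n + 2) * (n + 3)) =
      ((2 : ℝ) ^ n) ^ (n + 1) / (4 * (n + 2) * (n + 3)) +
        1 / (4 * (n + 2) * (n + 3)) * ((2 : ℝ) ^ n) ^ (n + 1) := by
    field_simp
    ring
  linarith

end Pool.Agent.DetCnt
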