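import Mathlib
import Pool.Agent.DetSpec.Cheap

set_option autoImplicit false
set_option linter.unusedSectionVars false

/-! MP_ef01bd_co, counts: the steps of `DetSpec` keep the starting matrix as a submatrix. -/

open Matrix

namespace Pool.Agent.DetCnt

open Pool.Agent.DetSpec

/-- `B` contains `A` as a submatrix on an injective choice of indices -/
def Cont {κ κ' : Type} (A : Matrix κ κ ℤ) (B : Matrix κ' κ' ℤ) : Prop :=
  ∃ ι : κ → κ', Function.Injective ι ∧ ∀ i j, B (ι i) (ι j) = A i j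

lemma Cont.rfl' {κ : Type} (A : Matrix κ κ ℤ) : Cont A A :=
  ⟨id, Function.injective_id, fun _ _ => rfl⟩

lemma Cont.trans' {κ κ' κ'' : Type} {A : Matrix κ κ ℤ} {B : Matrix κ' κ' ℤ}
    {C : Matrix κ'' κ'' ℤ} (h1 : Cont A B) (h2 : Cont B C) : Cont A C := by
  obtain ⟨f, hf, h⟩ := h1
  obtain ⟨g, hg, h'⟩ := h2
  exact ⟨g ∘ f, hg.comp hf, fun i j => (h' _ _).trans (h i j)⟩

variable {κ : Type} [Fintype κ] [DecidableEq κ]

/-- A bordered binary matrix can be turned into a binary matrix. -/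
lemma binarize' (A : Matrix κ κ ℤ) (hbin : IsBin A) (b c : κ → ℤ) (e : ℤ)
    (h : BordBd κ b c e) (m : ℕ) (hm : (Fintype.card κ : ℤ) ^ 2 + 1 < 2 ^ (m + 1)) :
    ∃ (κ' : Type) (_ : Fintype κ') (_ : DecidableEq κ'),
      Fintype.card κ' = Fintype.card κ + 1 + 6 * m ∧
      ∃ B : Matrix κ' κ' ℤ, IsBin B ∧ B.det = (bord A b c e).det ∧
        (∀ (p : ℕ) [Fact p.Prime], nul p B ≤ nul p (bord A b c e)) ∧ Cont A B := by
  have hcard : (Fintype.card κ : ℤ) ≤ (Fintype.card κ : ℤ) ^ 2 := by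
    have : (0 : ℤ) ≤ Fintype.card κ := by positivity
    rcases this.eq_or_lt with h | h
    · rw [← h]; norm_num
    · nlinarith
  obtain ⟨τ, i1, i2, hc1, M1, hdet1, hnul1, hrest1, hi01, ht1, hlr1⟩ :=
    row_expand m (bord A b c e) (Sum.inr ()) (by
      intro j
      rcases j with j | j
      · rw [bord_rl]
        have h1 := h.c0 j
        have h2 := h.c1 j
        omega
      · rw [bord_rr]
        have h1 := h.e0
        have h2 := h.e1
        omega)
  obtain ⟨τ', i3, i4, hc2, M2, hdet2, hnul2, hrest2, hi02, ht2, hlr2⟩ :=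
    row_expand m M1ᵀ (Sum.inl (Sum.inr ())) (by
      intro j
      rw [Matrix.transpose_apply]
      have hsmall : (1 : ℤ) < 2 ^ (m + 1) := by
        have : (0 : ℤ) ≤ (Fintype.card κ : ℤ) ^ 2 := by positivity
        omega
      rcases j with (j | j) | j
      · rw [hrest1 _ _ (by simp), bord_lr]
        have h1 := h.b0 j
        have h2 := h.b1 j
        omega
      · rcases hi01 (Sum.inl (Sum.inr ())) with h | h
        · rw [show (Sum.inl (Sum.inr j) : (κ ⊕ Unit) ⊕ τ) = Sum.inl (Sum.inr ()) from rfl, h]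
          omega
        · rw [show (Sum.inl (Sum.inr j) : (κ ⊕ Unit) ⊕ τ) = Sum.inl (Sum.inr ()) from rfl, h]
          omega
      · rcases ht1 j (Sum.inl (Sum.inr ())) with h | h
        · rw [h]; omega
        · rw [h]; omega)
  refine ⟨((κ ⊕ Unit) ⊕ τ) ⊕ τ', inferInstance, inferInstance, ?_, M2ᵀ, ?_, ?_, ?_, ?_⟩
  · rw [Fintype.card_sum, Fintype.card_sum, Fintype.card_sum, hc1, hc2, Fintype.card_unit]
    ring
  · intro i j
    rw [Matrix.transpose_apply]
    rcases j with j | j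
    · by_cases hj : j = Sum.inl (Sum.inr ())
      · rw [hj]; exact hi02 i
      · rcases i with i | i
        · rw [hrest2 _ _ hj, Matrix.transpose_apply]
          rcases i with i | i
          · by_cases hi : i = Sum.inr ()
            · rw [hi]; exact hi01 j
            · rcases j with j | j
              · rw [hrest1 _ _ hi]
                rcases i with i | i
                · rcases j with j | j
                  · exact hbin i j
                  · exact (hj rfl).elim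
                · exact (hi rfl).elim
              · exact hlr1 _ _
          · exact ht1 _ _
        · exact hlr2 _ _
    · exact ht2 _ _
  · rw [Matrix.det_transpose, hdet2, Matrix.det_transpose, hdet1]
  · intro p _
    rw [nul_transpose]
    refine (hnul2 p).trans ?_
    rw [nul_transpose]
    exact hnul1 p
  · refine ⟨fun i => Sum.inl (Sum.inl (Sum.inl i)), ?_, ?_⟩
    · intro i j hij
      exact Sum.inl_injective (Sum.inl_injective (Sum.inl_injective hij))
    · intro i j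
      rw [Matrix.transpose_apply, hrest2 _ _ (by simp), Matrix.transpose_apply,
        hrest1 _ _ (by simp), bord_ll]

lemma big_step_reduce' (A : Matrix κ κ ℤ) (hbin : IsBin A) (hA : A.det ≠ 0) (r : ℕ) (hr : 1 ≤ r)
    (hn : ∀ (p : ℕ) [Fact p.Prime], nul p A ≤ r + 1) (m : ℕ)
    (hm : (Fintype.card κ : ℤ) ^ 2 + 1 < 2 ^ (m + 1)) :
    ∃ (κ' : Type) (_ : Fintype κ') (_ : DecidableEq κ'),
      Fintype.card κ' = Fintype.card κ + (1 + 6 * m) ∧
      ∃ B : Matrix κ' κ' ℤ, IsBin B ∧ |A.det| ≤ |B.det| ∧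
        (∀ (p : ℕ) [Fact p.Prime], nul p B ≤ r) ∧ Cont A B := by
  obtain ⟨b, c, e, hbd, hdet, hnul⟩ := step_reduce A hbin hA r hr hn
  obtain ⟨κ', h1, h2, hcard, B, hB, hBdet, hBn, hBc⟩ := binarize' A hbin b c e hbd m hm
  exact ⟨κ', h1, h2, by rw [hcard]; ring, B, hB, by rw [hBdet]; exact hdet,
    fun p _ => (hBn p).trans (hnul p), hBc⟩

lemma big_step_exact' (A : Matrix κ κ ℤ) (hbin : IsBin A) (hA : A.det ≠ 0)
    (hn : ∀ (p : ℕ) [Fact p.Prime], nul p A ≤ 1) (m : ℕ)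
    (hm : (Fintype.card κ : ℤ) ^ 2 + 1 < 2 ^ (m + 1)) (x : ℕ) (hx : (x : ℤ) ≤ |A.det|) :
    ∃ (κ' : Type) (_ : Fintype κ') (_ : DecidableEq κ'),
      Fintype.card κ' = Fintype.card κ + (1 + 6 * m) ∧
      ∃ B : Matrix κ' κ' ℤ, IsBin B ∧ |B.det| = x ∧ Cont A B := by
  obtain ⟨y, hy, hy0, hy1⟩ : ∃ y : ℤ, |y| = x ∧ 0 ≤ (y : ℚ) / A.det ∧ (y : ℚ) / A.det ≤ 1 := by
    rcases lt_or_gt_of_ne hA with h | h
    · refine ⟨-x, by simp, ?_, ?_⟩
      · have hq : (A.det : ℚ) < 0 := by exact_mod_cast h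
        exact div_nonneg_of_nonpos (by push_cast; simp) hq.le
      · have hq : (A.det : ℚ) < 0 := by exact_mod_cast h
        rw [div_le_one_of_neg hq]
        have : (A.det : ℤ) ≤ -x := by rw [abs_of_neg h] at hx; omega
        exact_mod_cast this
    · refine ⟨x, by simp, ?_, ?_⟩
      · have hq : (0 : ℚ) < A.det := by exact_mod_cast h
        exact div_nonneg (by push_cast; simp) hq.le
      · have hq : (0 : ℚ) < A.det := by exact_mod_cast h
        rw [div_le_one hq]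
        have : (x : ℤ) ≤ A.det := by rwa [abs_of_pos h] at hx
        exact_mod_cast this
  obtain ⟨b, c, e, hbd, hdet⟩ := step_exact A hbin hA hn y hy0 hy1
  obtain ⟨κ', h1, h2, hcard, B, hB, hBdet, -, hBc⟩ := binarize' A hbin b c e hbd m hm
  exact ⟨κ', h1, h2, by rw [hcard]; ring, B, hB, by rw [hBdet, hdet, hy], hBc⟩

/-- Iteration of the reduction step. -/
lemma iter_reduce' (m t : ℕ) : ∀ {κ : Type} [Fintype κ] [DecidableEq κ] (A : Matrix κ κ ℤ),
    IsBin A → A.det ≠ 0 → (∀ (p : ℕ) [Fact p.Prime], nul p A ≤ t + 1) →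
    ((Fintype.card κ + t * (1 + 6 * m) : ℕ) : ℤ) ^ 2 + 1 < 2 ^ (m + 1) →
    ∃ (κ' : Type) (_ : Fintype κ') (_ : DecidableEq κ'),
      Fintype.card κ' = Fintype.card κ + t * (1 + 6 * m) ∧
      ∃ B : Matrix κ' κ' ℤ, IsBin B ∧ |A.det| ≤ |B.det| ∧
        (∀ (p : ℕ) [Fact p.Prime], nul p B ≤ 1) ∧ Cont A B := by
  induction t with
  | zero =>
    intro κ _ _ A hbin hA hn hm
    exact ⟨κ, inferInstance, inferInstance, by simp, A, hbin, le_refl _, hn, Cont.rfl' A⟩
  | succ t ih =>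
    intro κ _ _ A hbin hA hn hm
    obtain ⟨κ', h1, h2, hcard, B, hB, hBdet, hBn, hBc⟩ :=
      big_step_reduce' A hbin hA (t + 1) (by omega) hn m (by
        refine lt_of_le_of_lt ?_ hm
        gcongr
        omega)
    have hB0 : B.det ≠ 0 := by
      intro h0
      rw [h0, abs_zero] at hBdet
      exact hA (abs_nonpos_iff.1 hBdet)
    obtain ⟨κ'', h3, h4, hcard', C, hC, hCdet, hCn, hCc⟩ := ih B hB hB0 hBn (by
      refine lt_of_le_of_lt (le_of_eq ?_) hm
      rw [hcard]; ring_nf)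
    exact ⟨κ'', h3, h4, by rw [hcard', hcard]; ring, C, hC, hBdet.trans hCdet, hCn,
      hBc.trans' hCc⟩

/-- All integers up to `|det A|` are reached when `A` has small coranks. -/
lemma reach' (m t : ℕ) (A : Matrix κ κ ℤ) (hbin : IsBin A) (hA : A.det ≠ 0)
    (hn : ∀ (p : ℕ) [Fact p.Prime], nul p A ≤ t + 1)
    (hm : ((Fintype.card κ + t * (1 + 6 * m) : ℕ) : ℤ) ^ 2 + 1 < 2 ^ (m + 1))
    (x : ℕ) (hx : (x : ℤ) ≤ |A.det|) :
    ∃ (κ' : Type) (_ : Fintype κ') (_ : DecidableEq κ'),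
      Fintype.card κ' = Fintype.card κ + (t + 1) * (1 + 6 * m) ∧
      ∃ B : Matrix κ' κ' ℤ, IsBin B ∧ |B.det| = x ∧ Cont A B := by
  obtain ⟨κ', h1, h2, hcard, B, hB, hBdet, hBn, hBc⟩ := iter_reduce' m t A hbin hA hn hm
  have hB0 : B.det ≠ 0 := by
    intro h0
    rw [h0, abs_zero] at hBdet
    exact hA (abs_nonpos_iff.1 hBdet)
  obtain ⟨κ'', h3, h4, hcard', C, hC, hCdet, hCc⟩ := big_step_exact' B hB hB0 hBn m (by
    rw [hcard]; exact hm) x (hx.trans hBdet)
  exact ⟨κ'', h3, h4, by rw [hcard', hcard]; ring, C, hC, hCdet,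
    hBc.trans' hCc⟩

/-- The cheap reduction step: only one new row and column. -/
lemma cheap_step' {n : ℕ} (A : Matrix (Fin n) (Fin n) ℤ) (hbin : IsBin A) (hA : A.det ≠ 0) (r : ℕ)
    (hr : 1 ≤ r) (hcard : A.det.natAbs.primeFactors.card < 2 ^ r)
    (hn : ∀ (p : ℕ) [Fact p.Prime], nul p A ≤ r + 1) :
    ∃ B : Matrix (Fin (n + 1)) (Fin (n + 1)) ℤ, IsBin B ∧ |A.det| ≤ 2 * |B.det| ∧
      (∀ (p : ℕ) [Fact p.Prime], nul p B ≤ r) ∧ Cont A B := by
  obtain ⟨f, hf⟩ := exists_colGood01 A hA r hr hcard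
  obtain ⟨g, hg⟩ := exists_colGood01 Aᵀ (by rwa [Matrix.det_transpose]) r hr
    (by rwa [Matrix.det_transpose])
  -- choice of the corner
  obtain ⟨e, he01, he⟩ : ∃ e : ℤ, (e = 0 ∨ e = 1) ∧
      |A.det| ≤ 2 * |(bord A (bz f) (bz g) e).det| := by
    have hcase : (1 / 2 : ℚ) ≤ |((0 : ℤ) : ℚ) - phi A (bz f) (bz g)| ∨
        (1 / 2 : ℚ) ≤ |((1 : ℤ) : ℚ) - phi A (bz f) (bz g)| := by
      by_contra hcon
      push Not at hcon
      obtain ⟨h1, h2⟩ := hcon
      rw [abs_lt] at h1 h2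
      push_cast at h1 h2
      linarith [h1.1, h1.2, h2.1, h2.2]
    have key : ∀ e : ℤ, (1 / 2 : ℚ) ≤ |(e : ℚ) - phi A (bz f) (bz g)| →
        |A.det| ≤ 2 * |(bord A (bz f) (bz g) e).det| := by
      intro e he
      have h1 : |(A.det : ℚ)| ≤ 2 * |((bord A (bz f) (bz g) e).det : ℚ)| := by
        rw [det_bord A hA, abs_mul]
        nlinarith [abs_nonneg (A.det : ℚ)]
      exact_mod_cast h1
    rcases hcase with h | h
    · exact ⟨0, Or.inl rfl, key 0 h⟩
    · exact ⟨1, Or.inr rfl, key 1 h⟩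
  have hbz : ∀ (f : Fin n → Bool) (j : Fin n), bz f j = 0 ∨ bz f j = 1 := by
    intro f j
    simp only [bz]
    split_ifs <;> simp
  have hcardE : Fintype.card (Fin n ⊕ Unit) = Fintype.card (Fin (n + 1)) := by simp
  let eqv : Fin n ⊕ Unit ≃ Fin (n + 1) := Fintype.equivOfCardEq hcardE
  refine ⟨(bord A (bz f) (bz g) e).reindex eqv eqv, ?_, ?_, ?_, ?_⟩
  · intro i j
    rw [Matrix.reindex_apply, Matrix.submatrix_apply]
    rcases eqv.symm i with i | i <;> rcases eqv.symm j with j | j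
    · exact hbin i j
    · exact hbz f i
    · exact hbz g j
    · exact he01
  · rw [Matrix.det_reindex_self]; exact he
  · intro p hp
    refine (nul_reindex p eqv _).trans ?_
    refine nul_bord_le_max p A _ _ _ r (hn p) (fun hrp => ⟨hf p hrp, hg p ?_⟩)
    rw [nul_transpose]; exact hrp
  · refine ⟨fun i => eqv (Sum.inl i), fun i j hij => Sum.inl_injective (eqv.injective hij), ?_⟩
    intro i j
    rw [Matrix.reindex_apply, Matrix.submatrix_apply, Equiv.symm_apply_apply,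
      Equiv.symm_apply_apply, bord_ll]

lemma iter_cheap' {N l r : ℕ} (hr1 : 1 ≤ r) (hl : N < 2 ^ l) (hr : N * l < 2 ^ r) (j : ℕ) :
    ∀ {n : ℕ} (A : Matrix (Fin n) (Fin n) ℤ), IsBin A → A.det ≠ 0 → n + j ≤ N →
    (∀ (p : ℕ) [Fact p.Prime], nul p A ≤ r + j) →
    ∃ B : Matrix (Fin (n + j)) (Fin (n + j)) ℤ, IsBin B ∧ |A.det| ≤ 2 ^ j * |B.det| ∧
      (∀ (p : ℕ) [Fact p.Prime], nul p B ≤ r) ∧ Cont A B := by
  induction j with
  | zero =>
    intro n A hbin hA hn hnul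
    exact ⟨A, hbin, by simp, hnul, Cont.rfl' A⟩
  | succ j ih =>
    intro n A hbin hA hn hnul
    have hc := card_primeFactors_lt A hbin hA (by omega : n ≤ N) hl hr
    obtain ⟨B, hB, hBdet, hBnul, hBc⟩ := cheap_step' A hbin hA (r + j) (by omega)
      (hc.trans_le (Nat.pow_le_pow_right (by norm_num) (by omega))) hnul
    have hB0 : B.det ≠ 0 := by
      intro h0
      rw [h0, abs_zero, mul_zero] at hBdet
      exact hA (abs_nonpos_iff.1 hBdet)
    obtain ⟨C, hC, hCdet, hCnul, hCc⟩ := ih B hB hB0 (by omega) hBnul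
    have e : n + 1 + j = n + (j + 1) := by omega
    rw [← e]
    refine ⟨C, hC, ?_, hCnul, hBc.trans' hCc⟩
    calc |A.det| ≤ 2 * |B.det| := hBdet
      _ ≤ 2 * (2 ^ j * |C.det|) := by gcongr
      _ = 2 ^ (j + 1) * |C.det| := by ring

/-- Combined statement: from a matrix of order `n` with coranks at most `2 l + j`, all
numbers up to `|det| / 2 ^ j` are reached in order `n + j + 2 l (1 + 12 l)`. -/
lemma reach2' {n j l N : ℕ} (hl1 : 1 ≤ l) (hN : N = n + j + 2 * l * (1 + 12 * l)) (hl : N < 2 ^ l)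
    (A : Matrix (Fin n) (Fin n) ℤ) (hbin : IsBin A) (hA : A.det ≠ 0)
    (hnul : ∀ (p : ℕ) [Fact p.Prime], nul p A ≤ 2 * l + j) (x : ℕ)
    (hx : 2 ^ j * (x : ℤ) ≤ |A.det|) :
    ∃ B : Matrix (Fin N) (Fin N) ℤ, IsBin B ∧ |B.det| = x ∧ Cont A B := by
  have hr : N * l < 2 ^ (2 * l) := by
    have h1 : l < 2 ^ l := Nat.lt_two_pow_self
    calc N * l ≤ N * 2 ^ l := Nat.mul_le_mul_left _ h1.le
      _ < 2 ^ l * 2 ^ l := Nat.mul_lt_mul_of_pos_right hl (by positivity)
      _ = 2 ^ (2 * l) := by rw [← pow_add]; congr 1; ring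
  obtain ⟨B, hB, hBdet, hBnul, hBc⟩ := iter_cheap' (by omega : 1 ≤ 2 * l) hl hr j A hbin hA
    (by omega) hnul
  have hB0 : B.det ≠ 0 := by
    intro h0
    rw [h0, abs_zero, mul_zero] at hBdet
    exact hA (abs_nonpos_iff.1 hBdet)
  have hxB : (x : ℤ) ≤ |B.det| := by
    have h1 : (2 : ℤ) ^ j * x ≤ 2 ^ j * |B.det| := hx.trans hBdet
    exact le_of_mul_le_mul_left h1 (by positivity)
  have ht : 2 * l - 1 + 1 = 2 * l := by omega
  obtain ⟨κ, i1, i2, hcard, C, hC, hCdet, hCc⟩ := reach' (2 * l) (2 * l - 1) B hB hB0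
    (by rw [ht]; exact hBnul) (by
      rw [Fintype.card_fin]
      have h1 : n + j + (2 * l - 1) * (1 + 6 * (2 * l)) ≤ N := by
        rw [hN]
        have : (2 * l - 1) * (1 + 6 * (2 * l)) ≤ 2 * l * (1 + 12 * l) := by
          apply Nat.mul_le_mul (by omega) (by omega)
        omega
      have h2 : ((n + j + (2 * l - 1) * (1 + 6 * (2 * l)) : ℕ) : ℤ) ≤ (N : ℤ) := by
        exact_mod_cast h1
      have h3 : (N : ℤ) ≤ 2 ^ l - 1 := by
        have : (N : ℤ) < 2 ^ l := by exact_mod_cast hl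
        omega
      have h4 : (0 : ℤ) ≤ ((n + j + (2 * l - 1) * (1 + 6 * (2 * l)) : ℕ) : ℤ) := by positivity
      have h5 : (1 : ℤ) ≤ 2 ^ l := one_le_pow₀ (by norm_num)
      have h6 : ((n + j + (2 * l - 1) * (1 + 6 * (2 * l)) : ℕ) : ℤ) ^ 2 ≤ (2 ^ l - 1) ^ 2 := by
        apply pow_le_pow_left₀ h4; linarith
      have h7 : (2 : ℤ) ^ (2 * l + 1) = 2 * (2 ^ l) ^ 2 := by
        rw [← pow_mul, pow_succ, mul_comm l 2]; ring
      rw [h7]
      nlinarith) x hxB
  have hcard' : Fintype.card κ = Fintype.card (Fin N) := by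
    rw [hcard, Fintype.card_fin, Fintype.card_fin, ht, hN]
    ring
  let eqv : κ ≃ Fin N := Fintype.equivOfCardEq hcard'
  refine ⟨C.reindex eqv eqv, ?_, ?_, ?_⟩
  · intro i k
    exact hC _ _
  · rw [Matrix.det_reindex_self]; exact hCdet
  · obtain ⟨ι, hι, hC'⟩ := hBc.trans' hCc
    refine ⟨fun i => eqv (ι i), fun i j hij => hι (eqv.injective hij), ?_⟩
    intro i j
    rw [Matrix.reindex_apply, Matrix.submatrix_apply, Equiv.symm_apply_apply,
      Equiv.symm_apply_apply]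
    exact hC' i j

end Pool.Agent.DetCnt
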