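import Mathlib
import Pool.Agent.DetCnt.Cores
import Pool.Agent.DetCnt.Reach
import Pool.Agent.TopDet.Defs

set_option autoImplicit false
set_option linter.unusedSectionVars false

open Matrix

namespace Pool.Agent.DetCnt

open Pool.Agent.DetSpec

/-! ### The core matrices -/

lemma YZ_bin {n : ℕ} (R : Fin (n + 1) → Fin n → Bool) : IsBin (YZ R) := by
  intro i j
  refine Fin.cases ?_ (fun j' => ?_) j
  · exact Or.inr rfl
  · change (if R i j' then (1 : ℤ) else 0) = 0 ∨ (if R i j' then (1 : ℤ) else 0) = 1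
    split_ifs <;> simp

/-- The change of variables `r ↦ 2 r - 1`. -/
def Tm (n : ℕ) : Matrix (Fin (n + 1)) (Fin (n + 1)) ℝ :=
  Matrix.of fun i j => Fin.cases (if j = 0 then (1 : ℝ) else -1)
    (fun i' => if i'.succ = j then 2 else 0) i

lemma Tm_det (n : ℕ) : (Tm n).det = 2 ^ n := by
  have h : (Tm n).BlockTriangular id := by
    intro i j hij
    have hij' : j < i := hij
    revert hij'
    refine Fin.cases ?_ (fun i' => ?_) i
    · intro h; exact absurd h (Fin.not_lt_zero j)
    · intro h
      change (if i'.succ = j then (2 : ℝ) else 0) = 0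
      rw [if_neg h.ne']
  rw [Matrix.det_of_isUpperTriangular h, Fin.prod_univ_succ]
  have h0 : Tm n 0 0 = 1 := rfl
  have h1 : ∀ i : Fin n, Tm n i.succ i.succ = 2 := fun i => if_pos rfl
  rw [h0, Finset.prod_congr rfl (fun i _ => h1 i)]
  simp

lemma Ym_eq {n : ℕ} (R : Fin (n + 1) → Fin n → Bool) :
    Ym R = (YZ R).map (Int.castRingHom ℝ) * Tm n := by
  ext k j
  rw [Matrix.mul_apply, Fin.sum_univ_succ]
  have h0 : (YZ R).map (Int.castRingHom ℝ) k 0 = 1 := by simp [YZ]
  have h1 : ∀ i : Fin n, (YZ R).map (Int.castRingHom ℝ) k i.succ = if R k i then 1 else 0 := by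
    intro i
    simp only [YZ, Matrix.map_apply, Matrix.of_apply, Fin.cons_succ, eq_intCast]
    split_ifs <;> simp
  rw [h0]
  simp_rw [h1]
  have h2 : ∀ i : Fin n, Tm n i.succ j = if i.succ = j then 2 else 0 := fun i => rfl
  have h3 : Tm n 0 j = if j = 0 then 1 else -1 := rfl
  simp_rw [h2]
  rw [h3]
  refine Fin.cases ?_ (fun j' => ?_) j
  · have : ∀ i : Fin n, (if (i.succ : Fin (n + 1)) = 0 then (2 : ℝ) else 0) = 0 :=
      fun i => if_neg (Fin.succ_ne_zero i)
    simp_rw [this]
    simp [Ym]
  · have h4 : ∀ i : Fin n, (if R k i then (1 : ℝ) else 0) *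
        (if (i.succ : Fin (n + 1)) = j'.succ then (2 : ℝ) else 0) =
        if i = j' then (if R k j' then (1 : ℝ) else 0) * 2 else 0 := by
      intro i
      by_cases h : i = j'
      · subst h; simp
      · rw [if_neg h, if_neg (fun h' => h (Fin.succ_injective n h')), mul_zero]
    simp_rw [h4]
    rw [Finset.sum_ite_eq' Finset.univ j', if_pos (Finset.mem_univ _),
      if_neg (Fin.succ_ne_zero j')]
    simp only [Ym, Matrix.of_apply, Fin.cons_succ, pv]
    split_ifs <;> norm_num

lemma gd_eq {n : ℕ} (R : Fin (n + 1) → Fin n → Bool) :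
    gd R = (2 ^ n * ((YZ R).det : ℝ)) ^ 2 := by
  have h1 : (Ym R).det = 2 ^ n * ((YZ R).det : ℝ) := by
    rw [Ym_eq, Matrix.det_mul, Tm_det, mul_comm]
    have h := (Int.castRingHom ℝ).map_det (YZ R)
    rw [eq_intCast, RingHom.mapMatrix_apply] at h
    rw [h]
  rw [gd, Matrix.det_mul, Matrix.det_transpose, h1, sq]

lemma nul_YZ {n r : ℕ} (R : Fin (n + 1) → Fin n → Bool) (h : RkGe r R) (p : ℕ)
    [Fact p.Prime] : nul p (YZ R) + r ≤ n + 1 := by
  let B : Fin (n + 1) → Fin (n + 1) → Bool := fun k => Fin.cons true (R k)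
  have h1 : YZ R = matZ B := by
    ext i j
    refine Fin.cases ?_ (fun j' => ?_) j
    · rfl
    · rfl
  have h2 : ∀ k, bv (ZMod p) (B k) = v1 (ZMod p) (R k) := by
    intro k
    funext j
    refine Fin.cases ?_ (fun j' => ?_) j
    · rfl
    · rfl
  have h3 := nul_eq_rowspan p B
  rw [← h1] at h3
  have h4 : rowspan (ZMod p) B = sp (ZMod p) R := by
    unfold rowspan sp
    simp_rw [h2]
  rw [h4] at h3
  have := h p
  omega

/-! ### Counting matrices -/

open Classical in
/-- The binary matrices of order `N` with determinant `± x`. -/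
noncomputable def WW (N x : ℕ) : Finset (Fin N → Fin N → Bool) :=
  Finset.univ.filter (fun C => |(matZ C).det| = x)

open Classical in
lemma card_cores {N n : ℕ} (x : ℕ) (S : Finset (Fin (n + 1) → Fin n → Bool))
    (h : ∀ R ∈ S, ∃ B : Matrix (Fin N) (Fin N) ℤ, IsBin B ∧ |B.det| = x ∧ Cont (YZ R) B) :
    S.card ≤ (WW N x).card * N ^ (n + 1) := by
  have hsub : S ⊆ ((WW N x) ×ˢ (Finset.univ : Finset (Fin (n + 1) → Fin N))).image
      (fun q => (fun i j => q.1 (q.2 i) (q.2 j.succ) : Fin (n + 1) → Fin n → Bool)) := by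
    intro R hR
    obtain ⟨B, hB, hdet, ι, -, hι⟩ := h R hR
    obtain ⟨C, rfl⟩ := exists_matZ B hB
    refine Finset.mem_image.2 ⟨(C, ι), Finset.mem_product.2
      ⟨Finset.mem_filter.2 ⟨Finset.mem_univ _, hdet⟩, Finset.mem_univ _⟩, ?_⟩
    funext i j
    have h1 := hι i j.succ
    change (if C (ι i) (ι j.succ) then (1 : ℤ) else 0) = (if R i j then 1 else 0) at h1
    change C (ι i) (ι j.succ) = R i j
    cases hc : C (ι i) (ι j.succ) <;> cases hr : R i j <;> simp [hc, hr] at h1 ⊢
  calc S.card ≤ _ := Finset.card_le_card hsub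
    _ ≤ ((WW N x) ×ˢ (Finset.univ : Finset (Fin (n + 1) → Fin N))).card := Finset.card_image_le
    _ = (WW N x).card * N ^ (n + 1) := by
        rw [Finset.card_product, Finset.card_univ, Fintype.card_fun, Fintype.card_fin,
          Fintype.card_fin]

open Pool.Agent.TopDet in
lemma bordered_cons_det {N : ℕ} (B : Fin N → Fin N → Bool) :
    (borderedMatrix (Fin.cons (fun _ => false) B : Fin (N + 1) → (Fin N → Bool))).det =
      (matZ B).det := by
  set R : Fin (N + 1) → (Fin N → Bool) := Fin.cons (fun _ => false) B with hR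
  rw [Matrix.det_succ_row_zero, Fin.sum_univ_succ]
  have h2 : ∀ k : Fin N, borderedMatrix R 0 k.succ = 0 := fun k => rfl
  have h3 : (borderedMatrix R).submatrix Fin.succ (Fin.succAbove 0) = matZ B := by
    ext i k
    rfl
  have h4 : borderedMatrix R 0 0 = 1 := rfl
  rw [h3, h4]
  simp [h2]

open Pool.Agent.TopDet in
lemma bordered_inj {N : ℕ} (R : Fin (N + 1) → (Fin N → Bool)) (h : (borderedMatrix R).det ≠ 0) :
    Function.Injective R := by
  intro i i' hii
  by_contra hne
  apply h
  refine Matrix.det_zero_of_row_eq hne ?_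
  funext k
  refine Fin.cases rfl (fun k' => ?_) k
  change (if R i k' then (1 : ℤ) else 0) = (if R i' k' then 1 else 0)
  rw [hii]

open Classical in
open Pool.Agent.TopDet in
lemma card_WW (N x : ℕ) (hx : x ≠ 0) : (WW N x).card ≤ detCount N x * (N + 1) ^ N := by
  set D : Finset (Finset (Fin N → Bool)) := Finset.univ.filter (fun R =>
    ∃ r : Fin (N + 1) → (Fin N → Bool), Function.Injective r ∧ Finset.univ.image r = R ∧
      (borderedMatrix r).det.natAbs = x) with hD
  have hDc : D.card = detCount N x := by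
    rw [detCount, Nat.card_eq_fintype_card, Fintype.card_subtype]
  have key := Finset.card_le_mul_card_image_of_maps_to (s := WW N x) (t := D)
    (f := fun C => Finset.univ.image (Fin.cons (fun _ => false) C : Fin (N + 1) → (Fin N → Bool)))
    (n := (N + 1) ^ N) ?_ ?_
  · rw [← hDc, mul_comm]
    exact key
  · intro C hC
    have hdet : |(matZ C).det| = x := (Finset.mem_filter.1 hC).2
    have h1 := bordered_cons_det C
    have h0 : (borderedMatrix (Fin.cons (fun _ => false) C :
        Fin (N + 1) → (Fin N → Bool))).det ≠ 0 := by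
      rw [h1]
      intro h0
      rw [h0, abs_zero] at hdet
      apply hx
      exact_mod_cast hdet.symm
    refine Finset.mem_filter.2 ⟨Finset.mem_univ _, _, bordered_inj _ h0, rfl, ?_⟩
    rw [h1]
    rw [Int.abs_eq_natAbs] at hdet
    exact_mod_cast hdet
  · intro R hR
    obtain ⟨r, hr, hrR, -⟩ := (Finset.mem_filter.1 hR).2
    have hcard : R.card = N + 1 := by
      rw [← hrR, Finset.card_image_of_injective _ hr, Finset.card_univ, Fintype.card_fin]
    calc _ ≤ (Fintype.piFinset (fun _ : Fin N => R)).card := by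
          apply Finset.card_le_card
          intro C hC
          obtain ⟨-, hC2⟩ := Finset.mem_filter.1 hC
          rw [Fintype.mem_piFinset]
          intro i
          rw [← hC2]
          refine Finset.mem_image.2 ⟨i.succ, Finset.mem_univ _, rfl⟩
      _ = (N + 1) ^ N := by
          rw [Fintype.card_piFinset_const, hcard]

end Pool.Agent.DetCnt
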