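import Mathlib
import Pool.Agent.DetCnt.Pz

set_option autoImplicit false
set_option linter.unusedSectionVars false

/-! MP_ef01bd_co, counts: exponential moments of quadratic forms in random signs. -/

open Matrix

namespace Pool.Agent.DetCnt

open Pool.Agent.DetSpec

/-- The Schur complement of the first entry of `1 - M` is `1 - sch M`. -/
noncomputable def sch {n : ℕ} (M : Matrix (Fin (n + 1)) (Fin (n + 1)) ℝ) :
    Matrix (Fin n) (Fin n) ℝ :=
  M.submatrix Fin.succ Fin.succ +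
    (1 - M 0 0)⁻¹ • Matrix.vecMulVec (fun k => M 0 k.succ) (fun k => M 0 k.succ)

lemma qf_sch {n : ℕ} (M : Matrix (Fin (n + 1)) (Fin (n + 1)) ℝ) (y : Fin n → ℝ) :
    qf (sch M) y = qf (M.submatrix Fin.succ Fin.succ) y +
      (1 - M 0 0)⁻¹ * ((fun k => M 0 k.succ) ⬝ᵥ y) ^ 2 := by
  unfold sch qf
  rw [Matrix.add_mulVec, dotProduct_add, Matrix.smul_mulVec, dotProduct_smul, smul_eq_mul]
  congr 2
  rw [Matrix.vecMulVec_mulVec, dotProduct_smul]
  simp only [MulOpposite.smul_eq_mul_unop, MulOpposite.unop_op]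
  rw [dotProduct_comm y, sq]

lemma sch_symm {n : ℕ} (M : Matrix (Fin (n + 1)) (Fin (n + 1)) ℝ) (h : Mᵀ = M) :
    (sch M)ᵀ = sch M := by
  unfold sch
  rw [Matrix.transpose_add, Matrix.transpose_smul, Matrix.transpose_submatrix, h,
    Matrix.transpose_vecMulVec]

lemma det_sch {n : ℕ} (M : Matrix (Fin (n + 1)) (Fin (n + 1)) ℝ) (h : Mᵀ = M)
    (h0 : M 0 0 < 1) : (1 - M).det = (1 - M 0 0) * (1 - sch M).det := by
  let e : Unit ⊕ Fin n ≃ Fin (n + 1) :=
    { toFun := Sum.elim (fun _ => 0) Fin.succ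
      invFun := fun k => Fin.cases (Sum.inl ()) (fun j => Sum.inr j) k
      left_inv := by rintro (u | k) <;> rfl
      right_inv := fun k => by refine Fin.cases rfl (fun j => rfl) k }
  have hs : ∀ k : Fin n, M k.succ 0 = M 0 k.succ := fun k => congrFun (congrFun h 0) k.succ
  rw [← Matrix.det_submatrix_equiv_self e]
  have h1 : (1 - M).submatrix e e =
      Matrix.fromBlocks (Matrix.of fun (_ _ : Unit) => 1 - M 0 0)
        (Matrix.of fun (_ : Unit) k => -M 0 k.succ)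
        (Matrix.of fun k (_ : Unit) => -M 0 k.succ) (1 - M.submatrix Fin.succ Fin.succ) := by
    ext a b
    rcases a with a | a <;> rcases b with b | b
    · simp [e]
    · simp [e, (Fin.succ_ne_zero b).symm]
    · simp [e, Fin.succ_ne_zero a, hs]
    · simp [e, Matrix.one_apply]
  rw [h1]
  have hne : (1 : ℝ) - M 0 0 ≠ 0 := by linarith
  let A : Matrix Unit Unit ℝ := Matrix.of fun (_ _ : Unit) => 1 - M 0 0
  have hA : A.det = 1 - M 0 0 := by
    rw [Matrix.det_eq_elem_of_subsingleton _ (default : Unit)]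
    rfl
  have hiA : Invertible A := A.invertibleOfIsUnitDet (by rw [hA]; exact hne.isUnit)
  have hAi : ⅟A = Matrix.of fun (_ _ : Unit) => (1 - M 0 0)⁻¹ := by
    apply invOf_eq_right_inv
    ext a b
    simp [A, Matrix.mul_apply, hne]
  rw [Matrix.det_fromBlocks₁₁ (A := A), hA, hAi]
  congr 2
  ext a b
  simp only [Matrix.sub_apply, Matrix.mul_apply, Matrix.of_apply, Finset.univ_unique,
    Finset.sum_singleton, sch, Matrix.add_apply, Matrix.smul_apply, Matrix.vecMulVec_apply,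
    smul_eq_mul]
  ring

/-- Exponential moments of quadratic forms. -/
lemma mgf {m : ℕ} : ∀ (M : Matrix (Fin m) (Fin m) ℝ), Mᵀ = M → (∀ y, 0 ≤ qf M y) →
    (∀ y, y ≠ 0 → qf M y < y ⬝ᵥ y) → 0 < (1 - M).det ∧
    (∑ f : Fin m → Bool, Real.exp (qf M (pv f) / 2)) ^ 2 * (1 - M).det ≤ 4 ^ m := by
  induction m with
  | zero =>
    intro M _ _ _
    refine ⟨by simp, ?_⟩
    simp [qf]
  | succ n ih =>
    intro M hM h1 h2
    have hq1 : qf M (Fin.cons 1 (0 : Fin n → ℝ)) = M 0 0 := by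
      rw [qf_cons M hM]
      simp [qf]
    have h00 : 0 ≤ M 0 0 := by
      have := h1 (Fin.cons 1 (0 : Fin n → ℝ))
      rwa [hq1] at this
    have h01 : M 0 0 < 1 := by
      have := h2 (Fin.cons 1 (0 : Fin n → ℝ)) (fun h => by
        have := congrFun h 0
        simp at this)
      rw [hq1, dot_cons] at this
      simpa using this
    have hc : 0 < 1 - M 0 0 := by linarith
    have hdet := det_sch M hM h01
    obtain ⟨i1, i2⟩ := ih (sch M) (sch_symm M hM) (by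
      intro y
      have h3 := h1 (Fin.cons 0 y)
      rw [qf_cons M hM] at h3
      rw [qf_sch]
      have h4 : 0 ≤ (1 - M 0 0)⁻¹ * ((fun k => M 0 k.succ) ⬝ᵥ y) ^ 2 := by positivity
      nlinarith) (by
      intro y hy
      obtain ⟨β, hβ⟩ : ∃ β : ℝ, β = (fun k : Fin n => M 0 k.succ) ⬝ᵥ y := ⟨_, rfl⟩
      have h3 := h2 (Fin.cons ((1 - M 0 0)⁻¹ * β) y) (fun h => by
        apply hy
        funext j
        have := congrFun h j.succ
        simpa using this)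
      rw [qf_cons M hM, dot_cons, ← hβ] at h3
      rw [qf_sch, ← hβ]
      simp only [Fin.cons_zero, Fin.cons_succ] at h3
      have h4 : (1 - M 0 0) * (1 - M 0 0)⁻¹ = 1 := mul_inv_cancel₀ hc.ne'
      have h5 : M 0 0 * ((1 - M 0 0)⁻¹ * β) ^ 2 + 2 * ((1 - M 0 0)⁻¹ * β) * β -
          (1 - M 0 0)⁻¹ * β * ((1 - M 0 0)⁻¹ * β) = (1 - M 0 0)⁻¹ * β ^ 2 := by
        have h6 : M 0 0 = 1 - (1 - M 0 0) := by ring
        calc _ = (2 - (1 - M 0 0) * (1 - M 0 0)⁻¹) * ((1 - M 0 0)⁻¹ * β ^ 2) := by ring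
          _ = _ := by rw [h4]; ring
      have h7 : (fun k : Fin n => y k) = y := rfl
      rw [h7] at h3
      linarith)
    have hdet0 : 0 < (1 - M).det := by
      rw [hdet]; positivity
    refine ⟨hdet0, ?_⟩
    -- the sum
    have hS : ∑ f : Fin (n + 1) → Bool, Real.exp (qf M (pv f) / 2) ≤
        2 * Real.exp (M 0 0 / 2) * ∑ f : Fin n → Bool, Real.exp (qf (sch M) (pv f) / 2) := by
      rw [sum_cons, Fintype.sum_bool, ← Finset.sum_add_distrib, Finset.mul_sum]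
      refine Finset.sum_le_sum (fun f _ => ?_)
      rw [pv_true, pv_false, qf_cons M hM, qf_cons M hM, qf_sch]
      obtain ⟨β, hβ⟩ : ∃ β : ℝ, β = (fun k : Fin n => M 0 k.succ) ⬝ᵥ pv f := ⟨_, rfl⟩
      obtain ⟨q, hq⟩ : ∃ q : ℝ, q = qf (M.submatrix Fin.succ Fin.succ) (pv f) := ⟨_, rfl⟩
      rw [← hβ, ← hq]
      have e1 : Real.exp ((M 0 0 * 1 ^ 2 + 2 * 1 * β + q) / 2) +
          Real.exp ((M 0 0 * (-1) ^ 2 + 2 * (-1) * β + q) / 2) =
          2 * Real.exp (M 0 0 / 2) * (Real.exp (q / 2) * Real.cosh β) := by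
        rw [Real.cosh_eq]
        have e2 : (M 0 0 * 1 ^ 2 + 2 * 1 * β + q) / 2 = M 0 0 / 2 + q / 2 + β := by ring
        have e3 : (M 0 0 * (-1) ^ 2 + 2 * (-1) * β + q) / 2 = M 0 0 / 2 + q / 2 + -β := by ring
        rw [e2, e3, Real.exp_add (M 0 0 / 2 + q / 2) β, Real.exp_add (M 0 0 / 2 + q / 2) (-β),
          Real.exp_add (M 0 0 / 2) (q / 2)]
        ring
      rw [e1]
      refine mul_le_mul_of_nonneg_left ?_ (by positivity)
      have e4 : (q + (1 - M 0 0)⁻¹ * β ^ 2) / 2 = q / 2 + (1 - M 0 0)⁻¹ * β ^ 2 / 2 := by ring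
      rw [e4, Real.exp_add]
      refine mul_le_mul_of_nonneg_left ?_ (Real.exp_pos _).le
      refine (Real.cosh_le_exp_half_sq β).trans (Real.exp_le_exp.2 ?_)
      have e5 : 1 ≤ (1 - M 0 0)⁻¹ := (one_le_inv₀ hc).2 (by linarith)
      have e6 : 0 ≤ β ^ 2 := sq_nonneg β
      nlinarith
    have hS0 : 0 ≤ ∑ f : Fin (n + 1) → Bool, Real.exp (qf M (pv f) / 2) :=
      Finset.sum_nonneg (fun f _ => (Real.exp_pos _).le)
    have hS' : 0 ≤ ∑ f : Fin n → Bool, Real.exp (qf (sch M) (pv f) / 2) :=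
      Finset.sum_nonneg (fun f _ => (Real.exp_pos _).le)
    have hE : Real.exp (M 0 0) * (1 - M 0 0) ≤ 1 := by
      have h3 : 1 - M 0 0 ≤ Real.exp (-M 0 0) := Real.one_sub_le_exp_neg _
      calc Real.exp (M 0 0) * (1 - M 0 0) ≤ Real.exp (M 0 0) * Real.exp (-M 0 0) :=
            mul_le_mul_of_nonneg_left h3 (Real.exp_pos _).le
        _ = 1 := by rw [← Real.exp_add, add_neg_cancel, Real.exp_zero]
    calc (∑ f : Fin (n + 1) → Bool, Real.exp (qf M (pv f) / 2)) ^ 2 * (1 - M).det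
        ≤ (2 * Real.exp (M 0 0 / 2) *
            ∑ f : Fin n → Bool, Real.exp (qf (sch M) (pv f) / 2)) ^ 2 * (1 - M).det := by
          gcongr
      _ = 4 * (Real.exp (M 0 0) * (1 - M 0 0)) *
          ((∑ f : Fin n → Bool, Real.exp (qf (sch M) (pv f) / 2)) ^ 2 * (1 - sch M).det) := by
          have e7 : Real.exp (M 0 0) = Real.exp (M 0 0 / 2) ^ 2 := by
            rw [← Real.exp_nat_mul]; congr 1; push_cast; ring
          rw [hdet, e7]
          ring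
      _ ≤ 4 * 1 * 4 ^ n := by
          gcongr
      _ = 4 ^ (n + 1) := by rw [pow_succ]; ring

/-! ### projections -/

lemma qf_idem {m : ℕ} (P : Matrix (Fin m) (Fin m) ℝ) (hP : Pᵀ = P) (hPP : P * P = P)
    (y : Fin m → ℝ) : 0 ≤ qf P y := by
  have h1 : qf P y = (P *ᵥ y) ⬝ᵥ (P *ᵥ y) := by
    unfold qf
    conv_lhs => rw [← hPP, ← Matrix.mulVec_mulVec, Matrix.dotProduct_mulVec]
    congr 1
    rw [← Matrix.mulVec_transpose, hP]
  rw [h1]
  exact Finset.sum_nonneg (fun i _ => mul_self_nonneg _)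

lemma qf_le_self {m : ℕ} (P : Matrix (Fin m) (Fin m) ℝ) (hP : Pᵀ = P) (hPP : P * P = P)
    (y : Fin m → ℝ) : qf P y ≤ y ⬝ᵥ y := by
  have h1 : qf (1 - P) y = y ⬝ᵥ y - qf P y := by
    unfold qf
    rw [Matrix.sub_mulVec, Matrix.one_mulVec, dotProduct_sub]
  have h2 := qf_idem (1 - P) (by rw [Matrix.transpose_sub, Matrix.transpose_one, hP]) (by
    rw [Matrix.sub_mul, Matrix.one_mul, Matrix.mul_sub, Matrix.mul_one, hPP]
    abel) y
  rw [h1] at h2
  linarith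

lemma qf_smul {m : ℕ} (P : Matrix (Fin m) (Fin m) ℝ) (t : ℝ) (y : Fin m → ℝ) :
    qf (t • P) y = t * qf P y := by
  unfold qf
  rw [Matrix.smul_mulVec, dotProduct_smul, smul_eq_mul]

lemma det_prj {i m : ℕ} (Y : Matrix (Fin i) (Fin m) ℝ) (hG : (Y * Yᵀ).det ≠ 0) (t : ℝ)
    (ht : t < 1) : (1 - t • prj Y).det * (1 - t) ^ i = (1 - t) ^ m := by
  have hc : (1 : ℝ) - t ≠ 0 := by linarith
  have h1 : 1 - t • prj Y = (1 - t) • (1 + (t / (1 - t)) • (Yᵀ * ((Y * Yᵀ)⁻¹ * Y))) := by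
    unfold prj
    rw [smul_add, smul_smul, mul_div_cancel₀ _ hc, smul_sub, sub_smul, one_smul, Matrix.mul_assoc]
    abel
  rw [h1, Matrix.det_smul, Fintype.card_fin]
  have h2 : (1 + (t / (1 - t)) • (Yᵀ * ((Y * Yᵀ)⁻¹ * Y))).det = (1 / (1 - t)) ^ i := by
    have e1 : (t / (1 - t)) • (Yᵀ * ((Y * Yᵀ)⁻¹ * Y)) = Yᵀ * ((t / (1 - t)) • ((Y * Yᵀ)⁻¹ * Y)) := by
      rw [Matrix.mul_smul]
    rw [e1, Matrix.det_one_add_mul_comm]
    have e2 : (t / (1 - t)) • ((Y * Yᵀ)⁻¹ * Y) * Yᵀ = (t / (1 - t)) • (1 : Matrix (Fin i) (Fin i) ℝ) := by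
      rw [Matrix.smul_mul, Matrix.mul_assoc, Matrix.nonsing_inv_mul _ hG.isUnit]
    have e3 : (1 : Matrix (Fin i) (Fin i) ℝ) + (t / (1 - t)) • (1 : Matrix (Fin i) (Fin i) ℝ) =
        (1 / (1 - t)) • (1 : Matrix (Fin i) (Fin i) ℝ) := by
      have e4 : (1 : Matrix (Fin i) (Fin i) ℝ) = (1 : ℝ) • (1 : Matrix (Fin i) (Fin i) ℝ) := by
        rw [one_smul]
      conv_lhs => 
        arg 1
        rw [e4]
      rw [← add_smul]
      congr 1
      field_simp
      ring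
    rw [e2, e3, Matrix.det_smul, Matrix.det_one, mul_one, Fintype.card_fin]
  rw [h2, mul_assoc, ← mul_pow, one_div, inv_mul_cancel₀ hc, one_pow, mul_one]

lemma one_sub_ge {x : ℝ} (h0 : 0 ≤ x) (h1 : x ≤ 1 / 2) : Real.exp (-(x + x ^ 2)) ≤ 1 - x := by
  have h2 : 1 + (x + x ^ 2) + (x + x ^ 2) ^ 2 / 2 ≤ Real.exp (x + x ^ 2) :=
    Real.quadratic_le_exp_of_nonneg (by positivity)
  have h3 : 1 ≤ (1 - x) * Real.exp (x + x ^ 2) := by
    have h4 : (1 - x) * (1 + (x + x ^ 2) + (x + x ^ 2) ^ 2 / 2) ≤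
        (1 - x) * Real.exp (x + x ^ 2) := mul_le_mul_of_nonneg_left h2 (by linarith)
    have h5 : (1 - x) * (1 + (x + x ^ 2) + (x + x ^ 2) ^ 2 / 2) =
        1 + x ^ 2 / 2 * (1 - x - x ^ 2 - x ^ 3) := by ring
    have h6 : 0 ≤ 1 - x - x ^ 2 - x ^ 3 := by
      have : x ^ 2 ≤ (1 / 2) ^ 2 := by gcongr
      have : x ^ 3 ≤ (1 / 2) ^ 3 := by gcongr
      norm_num at *
      linarith
    have h7 : 0 ≤ x ^ 2 / 2 * (1 - x - x ^ 2 - x ^ 3) := by positivity
    linarith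
  rw [Real.exp_neg, inv_le_iff_one_le_mul₀ (Real.exp_pos _)]
  exact h3

/-- Exponential moments for the projections. -/
lemma mgf_prj {i n : ℕ} (hin : i ≤ n + 1) (Y : Matrix (Fin i) (Fin (n + 1)) ℝ)
    (hG : (Y * Yᵀ).det ≠ 0) (μ : ℝ) (h0 : 0 ≤ μ) (h1 : μ ≤ 1 / 4) :
    ∑ f : Fin n → Bool, Real.exp (μ * qf (prj Y) (Fin.cons 1 (pv f))) ≤
      2 ^ n * Real.exp (((n + 1 : ℝ) - i) * (μ + 2 * μ ^ 2)) := by
  have hs := prj_symm Y
  have hi := prj_sq Y hG
  have key := (mgf ((2 * μ) • prj Y) (by rw [Matrix.transpose_smul, hs]) (by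
    intro y
    rw [qf_smul]
    exact mul_nonneg (by positivity) (qf_idem _ hs hi y)) (by
    intro y hy
    rw [qf_smul]
    have h2 := qf_le_self _ hs hi y
    have h3 : 0 < y ⬝ᵥ y := by
      rcases (Finset.sum_nonneg (fun i _ => mul_self_nonneg (y i)) :
        0 ≤ ∑ i, y i * y i).lt_or_eq with h | h
      · exact h
      · exact absurd (dotProduct_self_eq_zero.1 h.symm) hy
    nlinarith [qf_idem _ hs hi y])).2
  have hev := sum_even (fun y => Real.exp (qf ((2 * μ) • prj Y) y / 2)) (fun y => by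
    simp only [qf_neg])
  rw [hev] at key
  have hd := det_prj Y hG (2 * μ) (by linarith)
  set S := ∑ f : Fin n → Bool, Real.exp (qf ((2 * μ) • prj Y) (Fin.cons 1 (pv f)) / 2) with hS
  have hSe : ∑ f : Fin n → Bool, Real.exp (μ * qf (prj Y) (Fin.cons 1 (pv f))) = S := by
    rw [hS]
    refine Finset.sum_congr rfl (fun f _ => ?_)
    rw [qf_smul]
    congr 1
    ring
  rw [hSe]
  have hS0 : 0 ≤ S := Finset.sum_nonneg (fun f _ => (Real.exp_pos _).le)
  have hc : 0 < 1 - 2 * μ := by linarith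
  have hge := one_sub_ge (x := 2 * μ) (by linarith) (by linarith)
  have h4 : S ^ 2 * (1 - 2 * μ) ^ (n + 1) ≤ 4 ^ n * (1 - 2 * μ) ^ i := by
    rw [← hd]
    have h5 : (2 * S) ^ 2 * (1 - (2 * μ) • prj Y).det * (1 - 2 * μ) ^ i ≤
        4 ^ (n + 1) * (1 - 2 * μ) ^ i := mul_le_mul_of_nonneg_right key (by positivity)
    have h6 : (4 : ℝ) ^ (n + 1) = 4 * 4 ^ n := by rw [pow_succ]; ring
    rw [h6] at h5
    linarith
  -- `S ^ 2 ≤ 4 ^ n * exp ((n + 1 - i) * (2 μ + 4 μ ^ 2))`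
  have h7 : S ^ 2 ≤ (2 ^ n * Real.exp (((n + 1 : ℝ) - i) * (μ + 2 * μ ^ 2))) ^ 2 := by
    obtain ⟨j, hj⟩ : ∃ j, n + 1 = i + j := ⟨n + 1 - i, by omega⟩
    have hjr : ((n : ℝ) + 1) - i = j := by
      have : ((n + 1 : ℕ) : ℝ) = ((i + j : ℕ) : ℝ) := by rw [hj]
      push_cast at this
      linarith
    rw [hjr]
    have h8 : S ^ 2 * (1 - 2 * μ) ^ j ≤ 4 ^ n := by
      rw [hj, pow_add] at h4
      have h9 : (1 - 2 * μ) ^ i * (S ^ 2 * (1 - 2 * μ) ^ j) ≤ (1 - 2 * μ) ^ i * 4 ^ n := by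
        linarith
      exact le_of_mul_le_mul_left h9 (by positivity)
    have h10 : Real.exp (-(j * (2 * μ + (2 * μ) ^ 2))) ≤ (1 - 2 * μ) ^ j := by
      calc Real.exp (-(j * (2 * μ + (2 * μ) ^ 2))) = Real.exp (-(2 * μ + (2 * μ) ^ 2)) ^ j := by
            rw [← Real.exp_nat_mul]; congr 1; ring
        _ ≤ (1 - 2 * μ) ^ j := by gcongr
    have h11 : S ^ 2 * Real.exp (-(j * (2 * μ + (2 * μ) ^ 2))) ≤ 4 ^ n :=
      (mul_le_mul_of_nonneg_left h10 (sq_nonneg S)).trans h8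
    have h12 : (2 ^ n * Real.exp (j * (μ + 2 * μ ^ 2))) ^ 2 =
        4 ^ n * Real.exp (j * (2 * μ + (2 * μ) ^ 2)) := by
      rw [mul_pow, ← Real.exp_nat_mul, ← pow_mul, mul_comm n 2, pow_mul]
      have e1 : ((2 : ℕ) : ℝ) * (j * (μ + 2 * μ ^ 2)) = j * (2 * μ + (2 * μ) ^ 2) := by
        push_cast; ring
      rw [e1]
      norm_num
    rw [h12]
    calc S ^ 2 = S ^ 2 * Real.exp (-(j * (2 * μ + (2 * μ) ^ 2))) *
          Real.exp (j * (2 * μ + (2 * μ) ^ 2)) := by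
          rw [mul_assoc, ← Real.exp_add, neg_add_cancel, Real.exp_zero, mul_one]
      _ ≤ 4 ^ n * Real.exp (j * (2 * μ + (2 * μ) ^ 2)) := by gcongr
  exact le_of_sq_le_sq h7 (by positivity)

/-- The moments of one factor. -/
lemma mom_row {i n : ℕ} (hin : i ≤ n) (R : Fin i → Fin n → Bool) (Λ : ℕ)
    (hΛ : 4 * (Λ : ℝ) ≤ (n + 1 : ℝ) - i) :
    ∑ b : Fin n → Bool, gd (Fin.cons b R : Fin (i + 1) → Fin n → Bool) ^ Λ ≤
      2 ^ n * ((n + 1 : ℝ) - i) ^ Λ * Real.exp (2 * Λ ^ 2 / ((n + 1 : ℝ) - i)) * gd R ^ Λ := by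
  have hd1 : (1 : ℝ) ≤ (n + 1 : ℝ) - i := by
    have : (i : ℝ) ≤ n := by exact_mod_cast hin
    linarith
  set d : ℝ := (n + 1 : ℝ) - i with hd
  have hd0 : 0 < d := by linarith
  by_cases h : gd R = 0
  · have h1 : ∀ b : Fin n → Bool, gd (Fin.cons b R : Fin (i + 1) → Fin n → Bool) = 0 := by
      intro b
      unfold gd
      rw [Ym_cons]
      exact gram_zero _ _ h
    simp_rw [h1, h]
    rcases Nat.eq_zero_or_pos Λ with hz | hz
    · rw [hz]
      simp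
    · rw [zero_pow (by omega), mul_zero]
      simp
  · have h1 : ∀ b : Fin n → Bool, gd (Fin.cons b R : Fin (i + 1) → Fin n → Bool) =
        gd R * qf (prj (Ym R)) (Fin.cons 1 (pv b)) := by
      intro b
      unfold gd
      rw [Ym_cons]
      exact gram_step _ _ h
    have hg0 : 0 ≤ gd R := by
      unfold gd
      rw [← Matrix.conjTranspose_eq_transpose_of_trivial]
      exact (Matrix.posSemidef_self_mul_conjTranspose (Ym R)).det_nonneg
    simp_rw [h1, mul_pow]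
    rw [← Finset.mul_sum]
    have h2 : ∀ b : Fin n → Bool, qf (prj (Ym R)) (Fin.cons 1 (pv b)) ^ Λ ≤
        d ^ Λ * Real.exp (-Λ) * Real.exp (Λ / d * qf (prj (Ym R)) (Fin.cons 1 (pv b))) := by
      intro b
      obtain ⟨q, hq⟩ : ∃ q : ℝ, q = qf (prj (Ym R)) (Fin.cons 1 (pv b)) := ⟨_, rfl⟩
      have hq0 : 0 ≤ q := by
        rw [hq]
        exact qf_idem _ (prj_symm _) (prj_sq _ h) _
      rw [← hq]
      have h3 : q / d ≤ Real.exp (q / d - 1) := by
        have := Real.add_one_le_exp (q / d - 1)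
        linarith
      calc q ^ Λ = d ^ Λ * (q / d) ^ Λ := by
            rw [← mul_pow]; congr 1; field_simp
        _ ≤ d ^ Λ * (Real.exp (q / d - 1)) ^ Λ := by gcongr
        _ = d ^ Λ * Real.exp (-Λ) * Real.exp (Λ / d * q) := by
            rw [← Real.exp_nat_mul, mul_assoc, ← Real.exp_add]
            congr 2
            ring
    have h4 := mgf_prj (by omega : i ≤ n + 1) (Ym R) h (Λ / d) (by positivity) (by
      rw [div_le_iff₀ hd0]; linarith)
    rw [← hd] at h4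
    have h5 : ∑ b : Fin n → Bool, qf (prj (Ym R)) (Fin.cons 1 (pv b)) ^ Λ ≤
        2 ^ n * d ^ Λ * Real.exp (2 * Λ ^ 2 / d) := by
      calc ∑ b : Fin n → Bool, qf (prj (Ym R)) (Fin.cons 1 (pv b)) ^ Λ
          ≤ ∑ b : Fin n → Bool, d ^ Λ * Real.exp (-Λ) *
              Real.exp (Λ / d * qf (prj (Ym R)) (Fin.cons 1 (pv b))) :=
            Finset.sum_le_sum (fun b _ => h2 b)
        _ = d ^ Λ * Real.exp (-Λ) * ∑ b : Fin n → Bool,
              Real.exp (Λ / d * qf (prj (Ym R)) (Fin.cons 1 (pv b))) := by rw [Finset.mul_sum]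
        _ ≤ d ^ Λ * Real.exp (-Λ) * (2 ^ n * Real.exp (d * (Λ / d + 2 * (Λ / d) ^ 2))) := by
            gcongr
        _ = 2 ^ n * d ^ Λ * (Real.exp (-Λ) * Real.exp (d * (Λ / d + 2 * (Λ / d) ^ 2))) := by ring
        _ = 2 ^ n * d ^ Λ * Real.exp (2 * Λ ^ 2 / d) := by
            rw [← Real.exp_add]
            congr 2
            field_simp
            ring
    calc gd R ^ Λ * ∑ b : Fin n → Bool, qf (prj (Ym R)) (Fin.cons 1 (pv b)) ^ Λ
        ≤ gd R ^ Λ * (2 ^ n * d ^ Λ * Real.exp (2 * Λ ^ 2 / d)) := by gcongr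
      _ = _ := by ring

end Pool.Agent.DetCnt
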