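import Mathlib
import Pool.Agent.DetCnt.Main

set_option autoImplicit false

open Matrix

namespace Pool.Agent.DetCnt

open Pool.Agent.DetSpec

lemma pow_big (l : ℕ) (hl : 15 ≤ l) : 24 * l ^ 2 + 10 * l + 2 ≤ 2 ^ (l - 1) := by
  induction l, hl using Nat.le_induction with
  | base => norm_num
  | succ l hl ih =>
    have e : l + 1 - 1 = (l - 1) + 1 := by omega
    have e2 : 2 ^ (l - 1 + 1) = 2 * 2 ^ (l - 1) := by rw [pow_succ]; ring
    rw [e, e2]
    nlinarith

lemma exists_l (N : ℕ) (hN : 16384 ≤ N) : ∃ l : ℕ, 15 ≤ l ∧ 2 ^ (l - 1) ≤ N ∧ N < 2 ^ l := by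
  refine ⟨Nat.log 2 N + 1, ?_, ?_, ?_⟩
  · have : 14 ≤ Nat.log 2 N := by
      apply Nat.le_log_of_pow_le (by norm_num)
      simpa using hN
    omega
  · exact Nat.pow_log_le_self 2 (by omega)
  · exact Nat.lt_pow_succ_log_self (by norm_num) N

lemma l_le_log {N l : ℕ} (hl : 15 ≤ l) (h : 2 ^ (l - 1) ≤ N) : (l : ℝ) ≤ 1.547 * Real.log N := by
  have h1 : ((l - 1 : ℕ) : ℝ) * Real.log 2 ≤ Real.log N := by
    rw [← Real.log_pow]
    apply Real.log_le_log (by positivity)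
    exact_mod_cast h
  have h2 : ((l - 1 : ℕ) : ℝ) = l - 1 := by
    rw [Nat.cast_sub (by omega)]; norm_num
  rw [h2] at h1
  have h3 := Real.log_two_gt_d9
  have h4 : (15 : ℝ) ≤ l := by exact_mod_cast hl
  nlinarith

lemma k_le {N l : ℕ} (hl : 15 ≤ l) (h : 2 ^ (l - 1) ≤ N) :
    ((24 * l ^ 2 + 5 * l + 2 : ℕ) : ℝ) ≤ 59 * Real.log N ^ 2 := by
  have h1 := l_le_log hl h
  have h4 : (15 : ℝ) ≤ l := by exact_mod_cast hl
  have h5 : (l : ℝ) ^ 2 ≤ (1.547 * Real.log N) ^ 2 := by gcongr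
  push_cast
  nlinarith

lemma log_big {N : ℕ} (hN : 16384 ≤ N) : 9.7 ≤ Real.log N := by
  have h1 : Real.log ((2 : ℝ) ^ 14) ≤ Real.log N := by
    apply Real.log_le_log (by positivity)
    have : (16384 : ℝ) ≤ N := by exact_mod_cast hN
    linarith
  rw [Real.log_pow] at h1
  have := Real.log_two_gt_d9
  push_cast at h1
  linarith

lemma fac_le {N n k : ℕ} (h : n + 1 + k = N) :
    (N.factorial : ℝ) ≤ ((n + 1).factorial : ℝ) * (N : ℝ) ^ k := by
  have h1 := Nat.factorial_mul_descFactorial (n := N) (k := k) (by omega)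
  have h2 := Nat.descFactorial_le_pow N k
  have h3 : N - k = n + 1 := by omega
  rw [h3] at h1
  have : N.factorial ≤ (n + 1).factorial * N ^ k := by
    rw [← h1]
    exact Nat.mul_le_mul_left _ h2
  exact_mod_cast this

/-- The size of the determinant of the cores. -/
lemma size_ok {N l n x : ℕ} (hN : 16384 ≤ N) (hl : 15 ≤ l) (h : 2 ^ (l - 1) ≤ N)
    (hn : n + (24 * l ^ 2 + 5 * l + 2) = N)
    (hx : (x : ℝ) ≤ √(N.factorial) * (1 / 2) ^ N * Real.exp (-(128 * Real.log N ^ 3))) :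
    (4 : ℝ) ^ n * (2 ^ (3 * l + 1) * x) ^ 2 ≤ ((n + 1).factorial : ℝ) / 2 := by
  have hL := log_big hN
  have hk := k_le hl h
  have hf := fac_le (N := N) (n := n) (k := 24 * l ^ 2 + 5 * l + 1) (by omega)
  have hN0 : (0 : ℝ) < N := by
    have : 0 < N := by omega
    exact_mod_cast this
  set L := Real.log N with hLd
  have h1 : (x : ℝ) ^ 2 ≤ N.factorial * (1 / 4) ^ N * Real.exp (-(256 * L ^ 3)) := by
    calc (x : ℝ) ^ 2 ≤ (√(N.factorial) * (1 / 2) ^ N * Real.exp (-(128 * L ^ 3))) ^ 2 := by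
          gcongr
      _ = (√(N.factorial)) ^ 2 * ((1 / 2) ^ N) ^ 2 * Real.exp (-(128 * L ^ 3)) ^ 2 := by ring
      _ = _ := by
          rw [Real.sq_sqrt (by positivity), ← Real.exp_nat_mul, ← pow_mul, mul_comm N 2, pow_mul]
          norm_num
          ring_nf
          tauto
  have h2 : (N : ℝ) ^ (24 * l ^ 2 + 5 * l + 1) ≤ Real.exp (256 * L ^ 3) := by
    have e1 : (N : ℝ) ^ (24 * l ^ 2 + 5 * l + 1) =
        Real.exp (((24 * l ^ 2 + 5 * l + 1 : ℕ) : ℝ) * L) := by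
      rw [Real.exp_nat_mul, hLd, Real.exp_log hN0]
    rw [e1]
    apply Real.exp_le_exp.2
    have e2 : ((24 * l ^ 2 + 5 * l + 1 : ℕ) : ℝ) ≤ 59 * L ^ 2 := by
      refine le_trans ?_ hk
      push_cast
      linarith
    calc ((24 * l ^ 2 + 5 * l + 1 : ℕ) : ℝ) * L ≤ (59 * L ^ 2) * L := by gcongr
      _ = 59 * L ^ 3 := by ring
      _ ≤ 256 * L ^ 3 := by
          have : 0 ≤ L ^ 3 := by positivity
          linarith
  have h3 : (4 : ℝ) ^ n * (2 ^ (3 * l + 1)) ^ 2 * (1 / 4) ^ N ≤ 1 / 2 := by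
    have e1 : ((2 : ℝ) ^ (3 * l + 1)) ^ 2 = 4 ^ (3 * l + 1) := by
      rw [← pow_mul, mul_comm, pow_mul]; norm_num
    have e2 : (1 / 4 : ℝ) ^ N = (1 / 4) ^ n * (1 / 4) ^ (3 * l + 1) *
        (1 / 4) ^ (24 * l ^ 2 + 2 * l + 1) := by
      rw [← pow_add, ← pow_add]; congr 1; omega
    have e3 : (4 : ℝ) ^ n * (1 / 4) ^ n = 1 := by rw [← mul_pow]; norm_num
    have e4 : (4 : ℝ) ^ (3 * l + 1) * (1 / 4) ^ (3 * l + 1) = 1 := by rw [← mul_pow]; norm_num
    rw [e1, e2]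
    calc (4 : ℝ) ^ n * 4 ^ (3 * l + 1) * ((1 / 4) ^ n * (1 / 4) ^ (3 * l + 1) *
          (1 / 4) ^ (24 * l ^ 2 + 2 * l + 1))
        = ((4 : ℝ) ^ n * (1 / 4) ^ n) * (4 ^ (3 * l + 1) * (1 / 4) ^ (3 * l + 1)) *
          (1 / 4) ^ (24 * l ^ 2 + 2 * l + 1) := by ring
      _ = (1 / 4) ^ (24 * l ^ 2 + 2 * l + 1) := by rw [e3, e4]; ring
      _ ≤ (1 / 4) ^ 1 := by
          apply pow_le_pow_of_le_one (by norm_num) (by norm_num)
          omega
      _ ≤ 1 / 2 := by norm_num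
  calc (4 : ℝ) ^ n * (2 ^ (3 * l + 1) * x) ^ 2
      = (4 : ℝ) ^ n * (2 ^ (3 * l + 1)) ^ 2 * (x : ℝ) ^ 2 := by ring
    _ ≤ (4 : ℝ) ^ n * (2 ^ (3 * l + 1)) ^ 2 *
        (N.factorial * (1 / 4) ^ N * Real.exp (-(256 * L ^ 3))) := by gcongr
    _ = ((4 : ℝ) ^ n * (2 ^ (3 * l + 1)) ^ 2 * (1 / 4) ^ N) * (N.factorial *
        Real.exp (-(256 * L ^ 3))) := by ring
    _ ≤ (1 / 2) * ((((n + 1).factorial : ℝ) * (N : ℝ) ^ (24 * l ^ 2 + 5 * l + 1)) *
        Real.exp (-(256 * L ^ 3))) := by gcongr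
    _ ≤ (1 / 2) * ((((n + 1).factorial : ℝ) * Real.exp (256 * L ^ 3)) *
        Real.exp (-(256 * L ^ 3))) := by gcongr
    _ = (1 / 2) * (n + 1).factorial * (Real.exp (256 * L ^ 3) * Real.exp (-(256 * L ^ 3))) := by
        ring
    _ = ((n + 1).factorial : ℝ) / 2 := by
        rw [← Real.exp_add, add_neg_cancel, Real.exp_zero]; ring

lemma choose_le (N : ℕ) : ((2 ^ N).choose (N + 1) : ℝ) ≤ (2 : ℝ) ^ (N * (N + 1)) := by
  have h1 : (2 ^ N).choose (N + 1) ≤ (2 ^ N) ^ (N + 1) := Nat.choose_le_pow _ _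
  rw [← pow_mul] at h1
  exact_mod_cast h1

/-- The comparison of the counts. -/
lemma count_ok {N l n : ℕ} (hN : 16384 ≤ N) (hl : 15 ≤ l) (h : 2 ^ (l - 1) ≤ N)
    (hn : n + (24 * l ^ 2 + 5 * l + 2) = N) (D : ℝ)
    (hD : ((2 : ℝ) ^ n) ^ (n + 1) / (4 * (n + 2) * (n + 3)) ≤
      D * (N + 1) ^ N * (N : ℝ) ^ (n + 1)) :
    Real.exp (-(128 * N * Real.log N ^ 2)) * ((2 ^ N).choose (N + 1) : ℝ) ≤ D := by
  have hL := log_big hN
  have hk := k_le hl h
  have hN1 : (16384 : ℝ) ≤ N := by exact_mod_cast hN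
  have hN0 : (0 : ℝ) < N := by linarith
  set L := Real.log N with hLd
  set k := 24 * l ^ 2 + 5 * l + 2 with hkd
  have hNe : (N : ℝ) = Real.exp L := (Real.exp_log hN0).symm
  have hnN : (n : ℝ) + 3 ≤ N := by
    have : n + 3 ≤ N := by omega
    exact_mod_cast this
  -- the factors
  have f1 : (4 : ℝ) * (n + 2) * (n + 3) ≤ Real.exp (3 * L) := by
    have e1 : Real.exp (3 * L) = (N : ℝ) ^ 3 := by
      rw [hNe, ← Real.exp_nat_mul]; norm_num
    rw [e1]
    have hn0 : (0 : ℝ) ≤ n := Nat.cast_nonneg n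
    calc (4 : ℝ) * (n + 2) * (n + 3) ≤ N * N * N := by
          gcongr
          · linarith
          · linarith
      _ = (N : ℝ) ^ 3 := by ring
  have f2 : ((N : ℝ) + 1) ^ N ≤ Real.exp (2 * N * L) := by
    have e1 : Real.exp (2 * N * L) = ((N : ℝ) ^ 2) ^ N := by
      rw [hNe, ← Real.exp_nat_mul, ← Real.exp_nat_mul, ← hNe]; congr 1; push_cast; ring
    rw [e1]
    gcongr
    nlinarith
  have f3 : (N : ℝ) ^ (n + 1) ≤ Real.exp (N * L) := by
    have e1 : Real.exp (N * L) = (N : ℝ) ^ N := by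
      rw [Real.exp_nat_mul, ← hNe]
    rw [e1]
    apply pow_le_pow_right₀ (by linarith)
    omega
  have f4 : (2 : ℝ) ^ (N * (N + 1)) ≤ ((2 : ℝ) ^ n) ^ (n + 1) * Real.exp (83 * N * L ^ 2) := by
    have e1 : N * (N + 1) = n * (n + 1) + k * (N + n + 1) := by
      rw [← hn]; ring
    rw [e1, pow_add, pow_mul]
    gcongr
    calc (2 : ℝ) ^ (k * (N + n + 1)) ≤ (2 : ℝ) ^ (k * (2 * N)) := by
          apply pow_le_pow_right₀ (by norm_num)
          apply Nat.mul_le_mul_left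
          omega
      _ = Real.exp ((k * (2 * N) : ℕ) * Real.log 2) := by
          rw [Real.exp_nat_mul, Real.exp_log (by norm_num)]
      _ ≤ Real.exp (83 * N * L ^ 2) := by
          apply Real.exp_le_exp.2
          have h2 := Real.log_two_lt_d9
          have h20 : 0 ≤ Real.log 2 := Real.log_nonneg (by norm_num)
          push_cast
          calc (k : ℝ) * (2 * N) * Real.log 2 ≤ (59 * L ^ 2) * (2 * N) * 0.6931471808 := by
                gcongr
            _ ≤ 83 * N * L ^ 2 := by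
                have : 0 ≤ (N : ℝ) * L ^ 2 := by positivity
                nlinarith
  have hD0 : 0 ≤ D := by
    by_contra hneg
    push Not at hneg
    have h1 : D * (N + 1) ^ N * (N : ℝ) ^ (n + 1) < 0 := by
      have : 0 < ((N : ℝ) + 1) ^ N * (N : ℝ) ^ (n + 1) := by positivity
      nlinarith
    have h2 : 0 ≤ ((2 : ℝ) ^ n) ^ (n + 1) / (4 * (n + 2) * (n + 3)) := by positivity
    linarith
  have g1 : ((2 : ℝ) ^ n) ^ (n + 1) ≤
      D * Real.exp (3 * L + 3 * N * L) := by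
    rw [div_le_iff₀ (by positivity)] at hD
    calc ((2 : ℝ) ^ n) ^ (n + 1) ≤ D * (N + 1) ^ N * (N : ℝ) ^ (n + 1) *
          (4 * (n + 2) * (n + 3)) := hD
      _ ≤ D * Real.exp (2 * N * L) * Real.exp (N * L) * Real.exp (3 * L) := by gcongr
      _ = D * Real.exp (3 * L + 3 * N * L) := by
          rw [mul_assoc, mul_assoc, ← Real.exp_add, ← Real.exp_add]
          congr 2
          ring
  calc Real.exp (-(128 * N * L ^ 2)) * ((2 ^ N).choose (N + 1) : ℝ)
      ≤ Real.exp (-(128 * N * L ^ 2)) * (2 : ℝ) ^ (N * (N + 1)) := by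
        gcongr
        exact choose_le N
    _ ≤ Real.exp (-(128 * N * L ^ 2)) * (((2 : ℝ) ^ n) ^ (n + 1) * Real.exp (83 * N * L ^ 2)) := by
        gcongr
    _ ≤ Real.exp (-(128 * N * L ^ 2)) * ((D * Real.exp (3 * L + 3 * N * L)) *
        Real.exp (83 * N * L ^ 2)) := by gcongr
    _ = D * (Real.exp (-(128 * N * L ^ 2)) * Real.exp (3 * L + 3 * N * L) *
        Real.exp (83 * N * L ^ 2)) := by ring
    _ = D * Real.exp (-(128 * N * L ^ 2) + (3 * L + 3 * N * L) + 83 * N * L ^ 2) := by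
        rw [← Real.exp_add, ← Real.exp_add]
    _ ≤ D * 1 := by
        gcongr
        rw [Real.exp_le_one_iff]
        have a1 : L ≤ N * L ^ 2 := by nlinarith
        have a2 : N * L ≤ N * L ^ 2 := by nlinarith
        nlinarith
    _ = D := mul_one D

lemma sq_le_abs {a b : ℤ} (ha : 0 ≤ a) (h : ((a : ℤ) : ℝ) ^ 2 ≤ ((b : ℤ) : ℝ) ^ 2) :
    a ≤ |b| := by
  have h1 : a ^ 2 ≤ b ^ 2 := by exact_mod_cast h
  have := sq_le_sq.1 h1
  rwa [abs_of_nonneg ha] at this

lemma small_ok {n l : ℕ} (hl : 15 ≤ l) (hn : n + 3 ≤ 2 ^ l) :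
    (1 + (2 * (n + 1) * l : ℕ) : ℝ) / 2 ^ (5 * l) ≤ 1 / (4 * (n + 2) * (n + 3)) := by
  have hn0 : (0 : ℝ) ≤ n := Nat.cast_nonneg n
  have h1 : (n : ℝ) + 3 ≤ 2 ^ l := by exact_mod_cast hn
  have h2 : (l : ℝ) ≤ 2 ^ l := by exact_mod_cast (Nat.lt_two_pow_self (n := l)).le
  have h3 : (16 : ℝ) ≤ 2 ^ l := by
    calc (16 : ℝ) = 2 ^ 4 := by norm_num
      _ ≤ 2 ^ l := pow_le_pow_right₀ (by norm_num) (by omega)
  have h5 : (2 : ℝ) ^ (5 * l) = (2 ^ l) ^ 5 := by rw [mul_comm, pow_mul]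
  rw [div_le_div_iff₀ (by positivity) (by positivity), h5, one_mul]
  push_cast
  set M : ℝ := 2 ^ l with hM
  have hl0 : (0 : ℝ) ≤ l := Nat.cast_nonneg l
  calc (1 + 2 * ((n : ℝ) + 1) * l) * (4 * (n + 2) * (n + 3))
      ≤ (1 + 2 * M * M) * (4 * M * M) := by
        gcongr
        · linarith
        · linarith
    _ = 4 * M ^ 2 + 8 * M ^ 4 := by ring
    _ ≤ M * M ^ 4 := by
        have : M ^ 2 ≤ M ^ 4 := pow_le_pow_right₀ (by linarith) (by norm_num)
        have h0 : 0 ≤ M ^ 4 := by positivity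
        nlinarith
    _ = M ^ 5 := by ring

open Pool.Agent.TopDet in
open Classical in
/-- The main count. -/
lemma count_main (N : ℕ) (hN : 16384 ≤ N) (x : ℕ) (hx0 : x ≠ 0)
    (hx : (x : ℝ) ≤ √(N.factorial) * (1 / 2) ^ N * Real.exp (-(128 * Real.log N ^ 3))) :
    Real.exp (-(128 * N * Real.log N ^ 2)) * ((2 ^ N).choose (N + 1) : ℝ) ≤ detCount N x := by
  obtain ⟨l, hl, h1, h2⟩ := exists_l N hN
  have hb := pow_big l hl
  set n := N - (24 * l ^ 2 + 5 * l + 2) with hnd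
  have hn : n + (24 * l ^ 2 + 5 * l + 2) = N := by omega
  have hsize := size_ok hN hl h1 hn hx
  apply count_ok hN hl h1 hn
  have hc := cores n l (5 * l) (by omega) (by omega) (small_ok (by omega) (by omega))
  refine hc.trans ?_
  set S : Finset (Fin (n + 1) → Fin n → Bool) := Finset.univ.filter
    (fun R => ((n + 1).factorial : ℝ) / 2 ≤ gd R ∧ RkGe (n - 5 * l) R) with hS
  have e1 : ∑ R : Fin (n + 1) → Fin n → Bool,
      (if ((n + 1).factorial : ℝ) / 2 ≤ gd R ∧ RkGe (n - 5 * l) R then (1 : ℝ) else 0) =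
      S.card := by
    rw [hS, Finset.sum_boole]
  rw [e1]
  have h3 := card_cores x S (N := N) (by
    intro R hR
    obtain ⟨-, hR1, hR2⟩ := Finset.mem_filter.1 hR
    rw [gd_eq] at hR1
    have hsq : (4 : ℝ) ^ n * (2 ^ (3 * l + 1) * x) ^ 2 ≤ 4 ^ n * ((YZ R).det : ℝ) ^ 2 := by
      refine (hsize.trans hR1).trans (le_of_eq ?_)
      rw [mul_pow, ← pow_mul, mul_comm n 2, pow_mul]
      norm_num
    have hsq2 := le_of_mul_le_mul_left hsq (by positivity)
    have hx1 : 2 ^ (3 * l + 1) * (x : ℤ) ≤ |(YZ R).det| := by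
      apply sq_le_abs (by positivity)
      generalize (YZ R).det = d at hsq2 ⊢
      push_cast
      exact hsq2
    have hxpos : (0 : ℤ) < 2 ^ (3 * l + 1) * (x : ℤ) := by
      have : 0 < x := by omega
      positivity
    have hdet : (YZ R).det ≠ 0 := by
      intro h0
      rw [h0, abs_zero] at hx1
      omega
    exact reach2' (j := 3 * l + 1) (l := l) (by omega) (by rw [← hn]; ring) h2 (YZ R) (YZ_bin R)
      hdet (fun p hp => by
        have := nul_YZ R hR2 p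
        omega) x hx1)
  have h4 := card_WW N x hx0
  have h5 : S.card ≤ detCount N x * (N + 1) ^ N * N ^ (n + 1) :=
    h3.trans (Nat.mul_le_mul_right _ h4)
  exact_mod_cast h5

/-! ### Small orders -/

lemma le_log_sq (N : ℕ) (h2 : 2 ≤ N) (hN : N < 16384) : (N : ℝ) ≤ 256 * Real.log N ^ 2 := by
  set i := Nat.log 2 N with hi
  have h1 : 2 ^ i ≤ N := Nat.pow_log_le_self 2 (by omega)
  have h3 : N < 2 ^ (i + 1) := Nat.lt_pow_succ_log_self (by norm_num) N
  have h4 : 1 ≤ i := by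
    apply Nat.le_log_of_pow_le (by norm_num)
    simpa using h2
  have h5 : i ≤ 13 := by
    by_contra hc
    push Not at hc
    have : 2 ^ 14 ≤ 2 ^ i := Nat.pow_le_pow_right (by norm_num) (by omega)
    omega
  have h6 : (i : ℝ) * 0.6931 ≤ Real.log N := by
    have e1 : Real.log ((2 : ℝ) ^ i) ≤ Real.log N := by
      apply Real.log_le_log (by positivity)
      exact_mod_cast h1
    rw [Real.log_pow] at e1
    have := Real.log_two_gt_d9
    have hi0 : (0 : ℝ) ≤ i := Nat.cast_nonneg i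
    nlinarith
  have h7 : (N : ℝ) ≤ 2 ^ (i + 1) := by exact_mod_cast h3.le
  have h8 : (2 : ℝ) ^ (i + 1) ≤ 256 * ((i : ℝ) * 0.6931) ^ 2 := by
    interval_cases i <;> norm_num
  calc (N : ℝ) ≤ 2 ^ (i + 1) := h7
    _ ≤ 256 * ((i : ℝ) * 0.6931) ^ 2 := h8
    _ ≤ 256 * Real.log N ^ 2 := by gcongr

lemma small_bound (N : ℕ) (h1 : 1 ≤ N) (hN : N < 16384) :
    √(N.factorial) * (1 / 2) ^ N * Real.exp (-(128 * Real.log N ^ 3)) < 1 := by
  have hhalf : ((1 : ℝ) / 2) ^ N < 1 := pow_lt_one₀ (by norm_num) (by norm_num) (by omega)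
  have hhalf0 : (0 : ℝ) < (1 / 2) ^ N := by positivity
  have h3 : √(N.factorial) * Real.exp (-(128 * Real.log N ^ 3)) ≤ 1 := by
    rcases Nat.lt_or_ge N 2 with h | h
    · have : N = 1 := by omega
      subst this
      simp
    · have h4 := le_log_sq N h hN
      have hN0 : (0 : ℝ) < N := by
        have : 0 < N := by omega
        exact_mod_cast this
      have hL : 0 ≤ Real.log N := Real.log_nonneg (by exact_mod_cast h1)
      have h5 : √(N.factorial) ≤ Real.exp (N / 2 * Real.log N) := by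
        rw [Real.sqrt_le_left (Real.exp_pos _).le, ← Real.exp_nat_mul]
        have e1 : ((2 : ℕ) : ℝ) * (N / 2 * Real.log N) = N * Real.log N := by push_cast; ring
        rw [e1, Real.exp_nat_mul, Real.exp_log hN0]
        exact_mod_cast Nat.factorial_le_pow N
      calc √(N.factorial) * Real.exp (-(128 * Real.log N ^ 3))
          ≤ Real.exp (N / 2 * Real.log N) * Real.exp (-(128 * Real.log N ^ 3)) := by gcongr
        _ = Real.exp (N / 2 * Real.log N + -(128 * Real.log N ^ 3)) := by rw [← Real.exp_add]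
        _ ≤ 1 := by
            rw [Real.exp_le_one_iff]
            nlinarith
  have h0 : 0 ≤ √(N.factorial) * Real.exp (-(128 * Real.log N ^ 3)) := by positivity
  calc √(N.factorial) * (1 / 2) ^ N * Real.exp (-(128 * Real.log N ^ 3))
      = (√(N.factorial) * Real.exp (-(128 * Real.log N ^ 3))) * (1 / 2) ^ N := by ring
    _ ≤ 1 * (1 / 2) ^ N := by gcongr
    _ < 1 := by linarith

open Pool.Agent.TopDet in
/-- **Lower bound for the counts.** -/
theorem lower (n : ℕ) (hn : 1 ≤ n) (v : ℕ) (hv : 1 ≤ v)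
    (h : (v : ℝ) ≤ √(n.factorial) * (1 / 2) ^ n * Real.exp (-(128 * Real.log n ^ 3))) :
    Real.exp (-(128 * n * Real.log n ^ 2)) * ((2 ^ n).choose (n + 1) : ℝ) ≤ detCount n v := by
  rcases Nat.lt_or_ge n 16384 with h1 | h1
  · exfalso
    have h2 := small_bound n hn h1
    have h3 : (1 : ℝ) ≤ v := by exact_mod_cast hv
    linarith
  · exact count_main n h1 v (by omega) h

end Pool.Agent.DetCnt
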