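import Mathlib
import Pool.Agent.DetCnt.Param
import Pool.Agent.DetSpec.Main

set_option autoImplicit false
set_option linter.unusedSectionVars false

/-! MP_ef01bd_co, counts: many sets for every value below `exp (-ε n) max S_n`. -/

open Matrix

namespace Pool.Agent.DetCnt

open Pool.Agent.DetSpec

lemma mwt_le {η : ℝ} (h0 : 0 ≤ η) (h1 : η ≤ 1 / 2) {i n : ℕ} (A0 B : Fin i → Fin n → Bool) :
    mwt η A0 B ≤ (1 - η) ^ (n * i) := by
  have hw : ∀ x y : Bool, wt η x y ≤ 1 - η := by
    intro x y
    unfold wt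
    split_ifs <;> linarith
  have hw0 : ∀ x y : Bool, 0 ≤ wt η x y := by
    intro x y
    unfold wt
    split_ifs <;> linarith
  have hr : ∀ k, rwt η (A0 k) (B k) ≤ (1 - η) ^ n := by
    intro k
    unfold rwt
    calc ∏ j, wt η (A0 k j) (B k j) ≤ ∏ _j : Fin n, (1 - η) :=
          Finset.prod_le_prod (fun j _ => hw0 _ _) (fun j _ => hw _ _)
      _ = (1 - η) ^ n := by simp
  unfold mwt
  calc ∏ k, rwt η (A0 k) (B k) ≤ ∏ _k : Fin i, (1 - η) ^ n :=
        Finset.prod_le_prod (fun k _ => rwt_nonneg h0 h1 _ _) (fun k _ => hr k)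
    _ = (1 - η) ^ (n * i) := by rw [pow_mul]; simp

open Classical in
/-- The good matrices. -/
noncomputable def GG (n k : ℕ) (θ D : ℝ) : Finset (Fin n → Fin n → Bool) :=
  Finset.univ.filter (fun B => θ / 2 * D ≤ (matR B).det ∧
    ∀ (p : ℕ) [Fact p.Prime], nul p (matZ B) ≤ k)

/-- Many binary matrices with large determinant and small coranks. -/
lemma many_good {n : ℕ} (hn : 1 ≤ n) (A0 : Fin n → Fin n → Bool) (h : Pool.Agent.DetSpec.IsMax A0)
    (hpos : 0 < (matR A0).det) {η : ℝ} (h0 : 0 ≤ η) (h1 : η < 1 / 2) (k P : ℕ)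
    (hnk : (n : ℝ) * (1 - η) ^ k ≤ 1)
    (hsmall : (P : ℝ) * (3 * ((n : ℝ) * (1 - η) ^ k) ^ k) ≤ (1 - 2 * η) ^ n / 4)
    (hP : (n.factorial : ℝ) < (P : ℝ) ^ k) (hP1 : 1 ≤ P) :
    (1 - 2 * η) ^ n / 4 ≤ (1 - η) ^ (n * n) *
      ((GG n k ((1 - 2 * η) ^ n) (matR A0).det).card : ℝ) := by
  classical
  set D := (matR A0).det with hD
  set θ := (1 - 2 * η) ^ n with hθ
  have hc : 0 < 1 - 2 * η := by linarith
  have hθ0 : 0 < θ := pow_pos hc n
  -- every matrix with large determinant which is not good is bad at a small prime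
  have hbad : ∀ B : Fin n → Fin n → Bool, θ / 2 * D ≤ (matR B).det →
      B ∉ GG n k θ D → ∃ p ∈ (Finset.range P).filter Nat.Prime,
        ∃ hp : Fact p.Prime, Module.finrank (ZMod p) (rowspan (ZMod p) B) + k ≤ n := by
    intro B hB hBG
    have hcon : ¬ ∀ (p : ℕ) [Fact p.Prime], nul p (matZ B) ≤ k := by
      intro hall
      exact hBG (Finset.mem_filter.2 ⟨Finset.mem_univ _, hB, hall⟩)
    push Not at hcon
    obtain ⟨p, hp, hpk⟩ := hcon
    have hdet0 : 0 < (matR B).det := lt_of_lt_of_le (by positivity) hB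
    have hlt : p < P := by
      by_contra hge
      push Not at hge
      have hdvd := pow_nul_dvd_det p (matZ B)
      have hdetZ : 0 < (matZ B).det := by
        rw [matR_det] at hdet0
        exact_mod_cast hdet0
      have h2 : ((p : ℤ) ^ nul p (matZ B)) ≤ (matZ B).det := Int.le_of_dvd hdetZ hdvd
      have h3 := abs_det_le_factorial (matZ B) (matZ_bin B)
      rw [Fintype.card_fin] at h3
      have h4 : ((p : ℤ) ^ nul p (matZ B)) ≤ n.factorial :=
        h2.trans ((le_abs_self _).trans h3)
      have h5 : ((p : ℝ) ^ nul p (matZ B)) ≤ n.factorial := by exact_mod_cast h4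
      have hPp : (P : ℝ) ≤ p := by exact_mod_cast hge
      have hP1' : (1 : ℝ) ≤ P := by exact_mod_cast hP1
      have h6 : (P : ℝ) ^ k ≤ (p : ℝ) ^ nul p (matZ B) :=
        calc (P : ℝ) ^ k ≤ (p : ℝ) ^ k := pow_le_pow_left₀ (by positivity) hPp k
          _ ≤ _ := pow_le_pow_right₀ (by linarith) hpk.le
      linarith
    refine ⟨p, Finset.mem_filter.2 ⟨Finset.mem_range.2 hlt, hp.out⟩, hp, ?_⟩
    have := nul_eq_rowspan p B
    omega
  have hgood := good_weight A0 h hpos h0 h1
  -- union bound
  have hunion : ∑ B, (if θ / 2 * D ≤ (matR B).det then mwt η A0 B else 0) ≤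
      (∑ B ∈ GG n k θ D, mwt η A0 B) +
        ∑ p ∈ (Finset.range P).filter Nat.Prime, 3 * ((n : ℝ) * (1 - η) ^ k) ^ k := by
    calc ∑ B, (if θ / 2 * D ≤ (matR B).det then mwt η A0 B else 0)
        ≤ ∑ B : Fin n → Fin n → Bool, ((if B ∈ GG n k θ D then mwt η A0 B else 0) +
          ∑ p ∈ (Finset.range P).filter Nat.Prime,
          (if ∃ hp : Fact p.Prime, Module.finrank (ZMod p) (rowspan (ZMod p) B) + k ≤ n then
            mwt η A0 B else 0)) := by
          refine Finset.sum_le_sum (fun B _ => ?_)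
          have hw := mwt_nonneg h0 h1.le A0 B
          have hnn : ∀ p ∈ (Finset.range P).filter Nat.Prime, (0 : ℝ) ≤
            (if ∃ hp : Fact p.Prime, Module.finrank (ZMod p) (rowspan (ZMod p) B) + k ≤ n then
              mwt η A0 B else 0) := by
            intro p _
            split_ifs
            · exact hw
            · exact le_refl _
          by_cases hG : B ∈ GG n k θ D
          · have h6 := Finset.sum_nonneg hnn
            rw [if_pos hG]
            split_ifs
            · linarith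
            · linarith
          · rw [if_neg hG, zero_add]
            split_ifs with hB
            · obtain ⟨p, hpm, hpb⟩ := hbad B hB hG
              calc mwt η A0 B = (if ∃ hp : Fact p.Prime,
                  Module.finrank (ZMod p) (rowspan (ZMod p) B) + k ≤ n then
                  mwt η A0 B else 0) := (if_pos hpb).symm
                _ ≤ _ := Finset.single_le_sum (f := fun p => (if ∃ hp : Fact p.Prime,
                  Module.finrank (ZMod p) (rowspan (ZMod p) B) + k ≤ n then
                  mwt η A0 B else 0)) hnn hpm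
            · exact Finset.sum_nonneg hnn
      _ = (∑ B ∈ GG n k θ D, mwt η A0 B) + ∑ p ∈ (Finset.range P).filter Nat.Prime,
          ∑ B : Fin n → Fin n → Bool,
          (if ∃ hp : Fact p.Prime, Module.finrank (ZMod p) (rowspan (ZMod p) B) + k ≤ n then
            mwt η A0 B else 0) := by
          rw [Finset.sum_add_distrib, Finset.sum_comm]
          congr 1
          rw [← Finset.sum_filter]
          simp
      _ ≤ _ := by
          refine add_le_add le_rfl (Finset.sum_le_sum (fun p hp => ?_))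
          have hpp : Fact p.Prime := ⟨(Finset.mem_filter.1 hp).2⟩
          refine le_trans (le_of_eq ?_) (rank_tail (ZMod p) h0 h1.le n k hn hnk A0)
          refine Finset.sum_congr rfl (fun B _ => ?_)
          refine if_congr ?_ rfl rfl
          exact ⟨fun ⟨_, hh⟩ => hh, fun hh => ⟨hpp, hh⟩⟩
  have hcardP : ∑ p ∈ (Finset.range P).filter Nat.Prime, 3 * ((n : ℝ) * (1 - η) ^ k) ^ k ≤
      P * (3 * ((n : ℝ) * (1 - η) ^ k) ^ k) := by
    rw [Finset.sum_const, nsmul_eq_mul]
    have hq0 : 0 ≤ 1 - η := by linarith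
    refine mul_le_mul_of_nonneg_right ?_ (by positivity)
    have := Finset.card_filter_le (Finset.range P) Nat.Prime
    rw [Finset.card_range] at this
    exact_mod_cast this
  have hlast : ∑ B ∈ GG n k θ D, mwt η A0 B ≤ (1 - η) ^ (n * n) * ((GG n k θ D).card : ℝ) := by
    calc ∑ B ∈ GG n k θ D, mwt η A0 B ≤ ∑ _B ∈ GG n k θ D, (1 - η) ^ (n * n) :=
          Finset.sum_le_sum (fun B _ => mwt_le h0 h1.le A0 B)
      _ = _ := by rw [Finset.sum_const, nsmul_eq_mul, mul_comm]
  linarith

open Classical in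
lemma card_cores2 {N n : ℕ} (x : ℕ) (S : Finset (Fin n → Fin n → Bool))
    (h : ∀ R ∈ S, ∃ B : Matrix (Fin N) (Fin N) ℤ, IsBin B ∧ |B.det| = x ∧ Cont (matZ R) B) :
    S.card ≤ (WW N x).card * N ^ n := by
  have hsub : S ⊆ ((WW N x) ×ˢ (Finset.univ : Finset (Fin n → Fin N))).image
      (fun q => (fun i j => q.1 (q.2 i) (q.2 j) : Fin n → Fin n → Bool)) := by
    intro R hR
    obtain ⟨B, hB, hdet, ι, -, hι⟩ := h R hR
    obtain ⟨C, rfl⟩ := exists_matZ B hB
    refine Finset.mem_image.2 ⟨(C, ι), Finset.mem_product.2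
      ⟨Finset.mem_filter.2 ⟨Finset.mem_univ _, hdet⟩, Finset.mem_univ _⟩, ?_⟩
    funext i j
    have h1 := hι i j
    change (if C (ι i) (ι j) then (1 : ℤ) else 0) = (if R i j then 1 else 0) at h1
    change C (ι i) (ι j) = R i j
    cases hc : C (ι i) (ι j) <;> cases hr : R i j <;> simp [hc, hr] at h1 ⊢
  calc S.card ≤ _ := Finset.card_le_card hsub
    _ ≤ ((WW N x) ×ˢ (Finset.univ : Finset (Fin n → Fin N))).card := Finset.card_image_le
    _ = (WW N x).card * N ^ n := by
        rw [Finset.card_product, Finset.card_univ, Fintype.card_fun, Fintype.card_fin,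
          Fintype.card_fin]

end Pool.Agent.DetCnt
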