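import Mathlib
import Pool.Agent.DetCnt.Near

set_option autoImplicit false
set_option linter.unusedSectionVars false

/-! MP_ef01bd_co, counts: many sets for every value below `exp (-ε n) max S_n`, parameters. -/

open Matrix

namespace Pool.Agent.DetCnt

open Pool.Agent.DetSpec

/-- Growth of the logarithm. -/
lemma log_le_of_large (δ : ℝ) (hδ : 0 < δ) :
    ∃ N₀ : ℕ, ∀ N : ℕ, N₀ ≤ N → Real.log N ≤ δ * √(N : ℝ) := by
  obtain ⟨N₀, hN₀⟩ := exists_nat_ge ((4 / δ) ^ 4)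
  refine ⟨max N₀ 1, fun N hN => ?_⟩
  have hN1 : (1 : ℝ) ≤ N := by exact_mod_cast (le_max_right N₀ 1).trans hN
  have hNN : (4 / δ) ^ 4 ≤ (N : ℝ) := hN₀.trans (by exact_mod_cast (le_max_left N₀ 1).trans hN)
  have hN0 : (0 : ℝ) < N := by linarith
  set y := √(√(N : ℝ)) with hy
  have hy0 : 0 < y := Real.sqrt_pos.2 (Real.sqrt_pos.2 hN0)
  have hy2 : y ^ 2 = √(N : ℝ) := Real.sq_sqrt (Real.sqrt_nonneg _)
  have hy4 : y ^ 4 = N := by
    have : y ^ 4 = (y ^ 2) ^ 2 := by ring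
    rw [this, hy2, Real.sq_sqrt hN0.le]
  have h4 : 4 / δ ≤ y :=
    le_of_pow_le_pow_left₀ (by norm_num : (4 : ℕ) ≠ 0) hy0.le (by rw [hy4]; exact hNN)
  have h5 : Real.log N = 4 * Real.log y := by
    rw [← hy4, Real.log_pow]; norm_num
  have h6 : Real.log y ≤ y - 1 := Real.log_le_sub_one_of_pos hy0
  have h7 : 4 ≤ δ * y := by
    rw [div_le_iff₀ hδ] at h4
    linarith
  rw [h5, ← hy2]
  nlinarith

/-- The basic numerical facts. -/
lemma facts {N s : ℕ} {η : ℝ} (hη0 : 0 < η) (hN : 61504 ≤ N)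
    (hlog : Real.log N ≤ η / 100 * √(N : ℝ)) (hs : s = Nat.sqrt N + 1) (hsN : N < s ^ 2) :
    √(N : ℝ) ^ 2 = N ∧ 248 ≤ √(N : ℝ) ∧ √(N : ℝ) ≤ s ∧ (s : ℝ) ≤ 2 * √(N : ℝ) ∧
      9.7 ≤ Real.log N ∧ 970 ≤ η * √(N : ℝ) := by
  have hNr : (61504 : ℝ) ≤ N := by exact_mod_cast hN
  have h1 : √(N : ℝ) ^ 2 = N := Real.sq_sqrt (by linarith)
  have h2 : (248 : ℝ) ≤ √(N : ℝ) := Real.le_sqrt_of_sq_le (by linarith)
  have h3 : √(N : ℝ) ≤ s := by
    rw [Real.sqrt_le_left (Nat.cast_nonneg s)]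
    exact_mod_cast hsN.le
  have h4 : (s : ℝ) ≤ 2 * √(N : ℝ) := by
    have h5 : ((Nat.sqrt N : ℕ) : ℝ) ≤ √(N : ℝ) := Real.nat_sqrt_le_real_sqrt
    rw [hs]
    push_cast
    linarith
  have h6 := log_big (N := N) (by omega)
  exact ⟨h1, h2, h3, h4, h6, by linarith⟩

lemma est {N n s : ℕ} {η : ℝ} (hη0 : 0 < η) (hη : η ≤ 1 / 16) (hN : 61504 ≤ N)
    (hlog : Real.log N ≤ η / 100 * √(N : ℝ)) (hnN : n ≤ N)
    (hs : s = Nat.sqrt N + 1) (hsN : N < s ^ 2) :
    (n : ℝ) * (1 - η) ^ (4 * s) ≤ 1 ∧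
    ((N ^ s : ℕ) : ℝ) * (3 * ((n : ℝ) * (1 - η) ^ (4 * s)) ^ (4 * s)) ≤ (1 - 2 * η) ^ n / 4 := by
  obtain ⟨f1, f2, f3, f4, f5, f6⟩ := facts hη0 hN hlog hs hsN
  set S := √(N : ℝ) with hS
  set L := Real.log N with hL
  have hNr : (61504 : ℝ) ≤ N := by exact_mod_cast hN
  have hNpos : (0 : ℝ) < N := by linarith
  have hexpL : Real.exp L = N := Real.exp_log hNpos
  have hnr : (n : ℝ) ≤ N := by exact_mod_cast hnN
  have hs0 : (0 : ℝ) ≤ s := Nat.cast_nonneg s
  have hq : (1 - η) ^ (4 * s) ≤ Real.exp (-(4 * η * s)) := by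
    have h1 : 1 - η ≤ Real.exp (-η) := by
      have := Real.add_one_le_exp (-η); linarith
    calc (1 - η) ^ (4 * s) ≤ (Real.exp (-η)) ^ (4 * s) := pow_le_pow_left₀ (by linarith) h1 _
      _ = Real.exp (-(4 * η * s)) := by
          rw [← Real.exp_nat_mul]
          congr 1
          push_cast
          ring
  have hq0 : 0 ≤ (1 - η) ^ (4 * s) := pow_nonneg (by linarith) _
  have hnq : (n : ℝ) * (1 - η) ^ (4 * s) ≤ Real.exp (L - 4 * η * s) := by
    calc (n : ℝ) * (1 - η) ^ (4 * s) ≤ N * Real.exp (-(4 * η * s)) :=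
          mul_le_mul hnr hq hq0 hNpos.le
      _ = Real.exp (L - 4 * η * s) := by
          rw [sub_eq_add_neg, Real.exp_add, hexpL]
  have hneg : L - 4 * η * s ≤ 0 := by
    have : η * S ≤ η * s := mul_le_mul_of_nonneg_left f3 hη0.le
    nlinarith
  refine ⟨hnq.trans (by rw [Real.exp_le_one_iff]; exact hneg), ?_⟩
  have h1 : ((n : ℝ) * (1 - η) ^ (4 * s)) ^ (4 * s) ≤ Real.exp (4 * s * (L - 4 * η * s)) := by
    calc ((n : ℝ) * (1 - η) ^ (4 * s)) ^ (4 * s) ≤ (Real.exp (L - 4 * η * s)) ^ (4 * s) :=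
          pow_le_pow_left₀ (mul_nonneg (Nat.cast_nonneg n) hq0) hnq _
      _ = Real.exp (4 * s * (L - 4 * η * s)) := by
          rw [← Real.exp_nat_mul]
          congr 1
          push_cast
          ring
  have h2 : ((N ^ s : ℕ) : ℝ) = Real.exp (s * L) := by
    rw [Real.exp_nat_mul, hexpL]
    push_cast
    rfl
  have h3 : (s : ℝ) * L + 4 * s * (L - 4 * η * s) ≤ η * N / 10 - 16 * (η * N) := by
    have e1 : η * (N : ℝ) ≤ η * (s : ℝ) ^ 2 := by
      refine mul_le_mul_of_nonneg_left ?_ hη0.le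
      exact_mod_cast hsN.le
    have e2 : (s : ℝ) * L ≤ 2 * S * (η / 100 * S) :=
      mul_le_mul f4 hlog (by linarith) (by linarith)
    have e3 : 2 * S * (η / 100 * S) = η * N / 50 := by
      rw [← f1]; ring
    have e4 : (s : ℝ) * L + 4 * s * (L - 4 * η * s) = 5 * (s * L) - 16 * (η * (s : ℝ) ^ 2) := by
      ring
    rw [e4]
    linarith
  have h4 : Real.exp (-(4 * (η * N))) ≤ (1 - 2 * η) ^ n := by
    calc Real.exp (-(4 * (η * N))) ≤ Real.exp (n * (-(4 * η))) := by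
          apply Real.exp_le_exp.2
          have := mul_le_mul_of_nonneg_left hnr hη0.le
          linarith
      _ = (Real.exp (-(4 * η))) ^ n := by rw [Real.exp_nat_mul]
      _ ≤ (1 - 2 * η) ^ n :=
          pow_le_pow_left₀ (Real.exp_pos _).le (exp_ineq hη0.le (by linarith)) n
  have hηN : 970 ≤ η * N := by
    rw [← f1]
    nlinarith
  calc ((N ^ s : ℕ) : ℝ) * (3 * ((n : ℝ) * (1 - η) ^ (4 * s)) ^ (4 * s))
      ≤ Real.exp (s * L) * (3 * Real.exp (4 * s * (L - 4 * η * s))) := by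
        rw [h2]; gcongr
    _ = 3 * Real.exp ((s : ℝ) * L + 4 * s * (L - 4 * η * s)) := by
        rw [Real.exp_add]; ring
    _ ≤ 3 * Real.exp (η * N / 10 - 16 * (η * N)) := by gcongr
    _ ≤ Real.exp (-(4 * (η * N))) / 4 := by
        have e5 : Real.exp (-(4 * (η * N))) =
            Real.exp (η * N / 10 - 16 * (η * N)) * Real.exp (119 / 10 * (η * N)) := by
          rw [← Real.exp_add]; congr 1; ring
        rw [e5]
        have e6 : 12 ≤ Real.exp (119 / 10 * (η * N)) := by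
          have := Real.add_one_le_exp (119 / 10 * (η * N))
          linarith
        have e7 := Real.exp_pos (η * N / 10 - 16 * (η * N))
        nlinarith
    _ ≤ (1 - 2 * η) ^ n / 4 := by linarith

/-- The number of good matrices. -/
lemma card_GG {N n : ℕ} {η c : ℝ} (hη0 : 0 < η) (hη : η ≤ 1 / 16) (hnN : n ≤ N) (hn2 : N ≤ 2 * n)
    (h : (1 - 2 * η) ^ n / 4 ≤ (1 - η) ^ (n * n) * c) (hc : 0 ≤ c) :
    Real.exp (η * (N : ℝ) ^ 2 / 4 - 4 * (η * N)) / 4 ≤ c := by
  have hnr : (n : ℝ) ≤ N := by exact_mod_cast hnN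
  have hn2r : (N : ℝ) ≤ 2 * n := by exact_mod_cast hn2
  have h1 : (1 - η) ^ (n * n) ≤ Real.exp (-(η * (N : ℝ) ^ 2 / 4)) := by
    have h1 : 1 - η ≤ Real.exp (-η) := by
      have := Real.add_one_le_exp (-η); linarith
    calc (1 - η) ^ (n * n) ≤ (Real.exp (-η)) ^ (n * n) := pow_le_pow_left₀ (by linarith) h1 _
      _ = Real.exp (-(η * ((n : ℝ) * n))) := by
          rw [← Real.exp_nat_mul]
          congr 1
          push_cast
          ring
      _ ≤ Real.exp (-(η * (N : ℝ) ^ 2 / 4)) := by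
          apply Real.exp_le_exp.2
          have h2 : (N : ℝ) ^ 2 ≤ 4 * ((n : ℝ) * n) := by
            have hN0 : (0 : ℝ) ≤ N := Nat.cast_nonneg N
            nlinarith
          have := mul_le_mul_of_nonneg_left h2 hη0.le
          linarith
  have h4 : Real.exp (-(4 * (η * N))) ≤ (1 - 2 * η) ^ n := by
    calc Real.exp (-(4 * (η * N))) ≤ Real.exp (n * (-(4 * η))) := by
          apply Real.exp_le_exp.2
          have := mul_le_mul_of_nonneg_left hnr hη0.le
          linarith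
      _ = (Real.exp (-(4 * η))) ^ n := by rw [Real.exp_nat_mul]
      _ ≤ (1 - 2 * η) ^ n :=
          pow_le_pow_left₀ (Real.exp_pos _).le (exp_ineq hη0.le (by linarith)) n
  have h5 : Real.exp (-(4 * (η * N))) / 4 ≤ Real.exp (-(η * (N : ℝ) ^ 2 / 4)) * c :=
    calc Real.exp (-(4 * (η * N))) / 4 ≤ (1 - 2 * η) ^ n / 4 := by linarith
      _ ≤ (1 - η) ^ (n * n) * c := h
      _ ≤ Real.exp (-(η * (N : ℝ) ^ 2 / 4)) * c := mul_le_mul_of_nonneg_right h1 hc
  have h6 : Real.exp (η * (N : ℝ) ^ 2 / 4 - 4 * (η * N)) =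
      Real.exp (η * (N : ℝ) ^ 2 / 4) * Real.exp (-(4 * (η * N))) := by
    rw [← Real.exp_add]; congr 1
  have h7 : Real.exp (η * (N : ℝ) ^ 2 / 4) * Real.exp (-(η * (N : ℝ) ^ 2 / 4)) = 1 := by
    rw [← Real.exp_add]; simp
  calc Real.exp (η * (N : ℝ) ^ 2 / 4 - 4 * (η * N)) / 4
      = Real.exp (η * (N : ℝ) ^ 2 / 4) * (Real.exp (-(4 * (η * N))) / 4) := by rw [h6]; ring
    _ ≤ Real.exp (η * (N : ℝ) ^ 2 / 4) * (Real.exp (-(η * (N : ℝ) ^ 2 / 4)) * c) :=
        mul_le_mul_of_nonneg_left h5 (Real.exp_pos _).le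
    _ = c := by rw [← mul_assoc, h7, one_mul]

open Classical in
open Pool.Agent.TopDet in
lemma near_main {N : ℕ} {η : ℝ} (hη0 : 0 < η) (hη : η ≤ 1 / 16) (hN : 61504 ≤ N)
    (hlog : Real.log N ≤ η / 100 * √(N : ℝ)) (x : ℕ) (hx0 : x ≠ 0)
    (hx : (x : ℝ) ≤ Real.exp (-(16 * (η * N))) * maxDet N) :
    Real.exp (η / 8 * (N : ℝ) ^ 2) ≤ detCount N x := by
  obtain ⟨l, s, j, n, hl15, hNl, hlN, hs, hsN, hs129, hls, hj, hNn, hn2, g⟩ := params N (by omega)
  obtain ⟨f1, f2, f3, f4, f5, f6⟩ := facts hη0 hN hlog hs hsN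
  have hnle : n ≤ N := by omega
  set S := √(N : ℝ) with hS
  set L := Real.log N with hL
  have hNr : (61504 : ℝ) ≤ N := by exact_mod_cast hN
  have hNpos : (0 : ℝ) < N := by linarith
  have hexpL : Real.exp L = N := Real.exp_log hNpos
  have hηN : 970 ≤ η * N := by
    rw [← f1]
    nlinarith
  have h24 : ((24 * l ^ 2 + 2 * l + 13 : ℕ) : ℝ) ≤ 116 * S := by
    have h10 : (((24 * l ^ 2 + 2 * l + 13) ^ 2 : ℕ) : ℝ) ≤ ((13456 * N : ℕ) : ℝ) := by
      exact_mod_cast g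
    have h8 : ((24 * l ^ 2 + 2 * l + 13 : ℕ) : ℝ) ^ 2 ≤ (116 * S) ^ 2 := by
      rw [mul_pow, f1]
      push_cast at h10 ⊢
      linarith
    exact le_of_sq_le_sq h8 (by positivity)
  have hn2N : N ≤ 2 * n := by
    have e1 : ((N : ℕ) : ℝ) = n + j + 2 * l * (1 + 12 * l) := by exact_mod_cast hNn
    have e2 : (2 : ℝ) * l + j = 4 * s := by exact_mod_cast hj
    push_cast at h24
    have e3 : (124 : ℝ) * S ≤ N / 2 := by
      rw [← f1]; nlinarith
    have e4 : (N : ℝ) ≤ 2 * n := by nlinarith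
    exact_mod_cast e4
  obtain ⟨A0, hA0⟩ := exists_isMax n hn2
  have hD := isMax_pos A0 hA0
  obtain ⟨e1, e2⟩ := est hη0 hη hN hlog hnle hs hsN
  have hP : (n.factorial : ℝ) < ((N ^ s : ℕ) : ℝ) ^ (4 * s) := by
    have h1 : n.factorial < (N ^ s) ^ (4 * s) := by
      calc n.factorial ≤ N.factorial := Nat.factorial_le hnle
        _ ≤ N ^ N := Nat.factorial_le_pow N
        _ < N ^ (s * (4 * s)) := by
            apply Nat.pow_lt_pow_right (by omega)
            have : s * (4 * s) = 4 * s ^ 2 := by ring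
            omega
        _ = (N ^ s) ^ (4 * s) := pow_mul _ _ _
    exact_mod_cast h1
  have hmany := many_good (by omega : 1 ≤ n) A0 hA0 hD hη0.le (by linarith)
    (4 * s) (N ^ s) e1 e2 hP (Nat.one_le_pow _ _ (by omega))
  have hcardGG := card_GG hη0 hη hnle hn2N hmany (Nat.cast_nonneg _)
  -- all good matrices are contained in a matrix of order `N` with determinant `± x`
  have hmaxN : (maxDet N : ℝ) ≤ (N : ℝ) ^ (N - n) * maxDet n := by
    exact_mod_cast maxDet_le hnle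
  have hE := exp_bound N l s (N - n + (j + 1)) (by omega) hs (by
    have h6 : 2 * l * (1 + 12 * l) = 24 * l ^ 2 + 2 * l := by ring
    rw [h6] at hNn
    omega) g
  have hθ : Real.exp (-(4 * (η * N))) ≤ (1 - 2 * η) ^ n := by
    have hnr : (n : ℝ) ≤ N := by exact_mod_cast hnle
    calc Real.exp (-(4 * (η * N))) ≤ Real.exp (n * (-(4 * η))) := by
          apply Real.exp_le_exp.2
          have := mul_le_mul_of_nonneg_left hnr hη0.le
          linarith
      _ = (Real.exp (-(4 * η))) ^ n := by rw [Real.exp_nat_mul]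
      _ ≤ (1 - 2 * η) ^ n :=
          pow_le_pow_left₀ (Real.exp_pos _).le (exp_ineq hη0.le (by linarith)) n
  have hmaxn := maxDet_eq A0 hA0
  have hcore : ∀ R ∈ GG n (4 * s) ((1 - 2 * η) ^ n) (matR A0).det,
      ∃ B : Matrix (Fin N) (Fin N) ℤ, IsBin B ∧ |B.det| = x ∧ Cont (matZ R) B := by
    intro R hR
    obtain ⟨-, hR1, hR2⟩ := Finset.mem_filter.1 hR
    have hRpos : 0 < (matR R).det := by
      refine lt_of_lt_of_le ?_ hR1
      have : 0 < (1 - 2 * η) ^ n := pow_pos (by linarith) n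
      positivity
    have hRZ : 0 < (matZ R).det := by
      rw [matR_det] at hRpos
      exact_mod_cast hRpos
    refine reach2' (by omega : 1 ≤ l) hNn hNl (matZ R) (matZ_bin R) hRZ.ne' (by
      intro p hp
      rw [hj]
      exact hR2 p) x ?_
    have hj2 : (2 : ℝ) ^ (j + 1) ≤ (N : ℝ) ^ (j + 1) :=
      pow_le_pow_left₀ (by norm_num) (by linarith) _
    have hmd : (0 : ℝ) ≤ maxDet n := Nat.cast_nonneg _
    have hmain : (2 : ℝ) ^ j * x ≤ ((matZ R).det : ℝ) := by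
      rw [← matR_det]
      refine le_trans ?_ hR1
      have k1 : (2 : ℝ) ^ j * x ≤ (2 : ℝ) ^ j * (Real.exp (-(16 * (η * N))) *
          ((N : ℝ) ^ (N - n) * maxDet n)) := by
        refine mul_le_mul_of_nonneg_left (hx.trans ?_) (by positivity)
        exact mul_le_mul_of_nonneg_left hmaxN (Real.exp_pos _).le
      have k2 : (2 : ℝ) ^ (j + 1) * ((N : ℝ) ^ (N - n) * Real.exp (-(12 * (η * N)))) ≤ 1 := by
        have k3 : Real.exp (-(12 * (η * N))) ≤ Real.exp (-(128 * √(N : ℝ) * Real.log N)) := by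
          apply Real.exp_le_exp.2
          have k4 : 128 * S * L ≤ 128 * S * (η / 100 * S) :=
            mul_le_mul_of_nonneg_left hlog (by linarith)
          have k5 : 128 * S * (η / 100 * S) = 128 / 100 * (η * N) := by
            rw [← f1]; ring
          linarith
        calc (2 : ℝ) ^ (j + 1) * ((N : ℝ) ^ (N - n) * Real.exp (-(12 * (η * N))))
            ≤ (N : ℝ) ^ (j + 1) * ((N : ℝ) ^ (N - n) *
              Real.exp (-(128 * √(N : ℝ) * Real.log N))) := by gcongr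
          _ = (N : ℝ) ^ (N - n + (j + 1)) * Real.exp (-(128 * √(N : ℝ) * Real.log N)) := by
              rw [pow_add]; ring
          _ ≤ 1 := hE
      have k6 : Real.exp (-(16 * (η * N))) =
          Real.exp (-(12 * (η * N))) * Real.exp (-(4 * (η * N))) := by
        rw [← Real.exp_add]; congr 1; ring
      calc (2 : ℝ) ^ j * x ≤ _ := k1
        _ = (2 : ℝ) ^ (j + 1) * ((N : ℝ) ^ (N - n) * Real.exp (-(12 * (η * N)))) *
            (Real.exp (-(4 * (η * N))) / 2 * maxDet n) := by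
            rw [k6, pow_succ]; ring
        _ ≤ 1 * (Real.exp (-(4 * (η * N))) / 2 * maxDet n) := by
            refine mul_le_mul_of_nonneg_right k2 (by positivity)
        _ = Real.exp (-(4 * (η * N))) / 2 * maxDet n := one_mul _
        _ ≤ (1 - 2 * η) ^ n / 2 * (matR A0).det := by
            refine mul_le_mul (by linarith) hmaxn hmd ?_
            have : 0 < (1 - 2 * η) ^ n := pow_pos (by linarith) n
            positivity
    have hmainZ : (2 : ℤ) ^ j * (x : ℤ) ≤ (matZ R).det := by exact_mod_cast hmain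
    exact hmainZ.trans (le_abs_self _)
  have hc1 := card_cores2 x _ hcore
  have hc2 := card_WW N x hx0
  have hc3 : ((GG n (4 * s) ((1 - 2 * η) ^ n) (matR A0).det).card : ℝ) ≤
      detCount N x * ((N : ℝ) + 1) ^ N * (N : ℝ) ^ n := by
    have : (GG n (4 * s) ((1 - 2 * η) ^ n) (matR A0).det).card ≤
        detCount N x * (N + 1) ^ N * N ^ n := hc1.trans (Nat.mul_le_mul_right _ hc2)
    exact_mod_cast this
  have hd0 : (0 : ℝ) ≤ detCount N x := Nat.cast_nonneg _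
  -- sizes
  have hL2 : Real.log ((N : ℝ) + 1) ≤ 2 * L := by
    have k1 : (N : ℝ) + 1 ≤ (N : ℝ) ^ 2 := by nlinarith
    have k2 := Real.log_le_log (by linarith : (0 : ℝ) < (N : ℝ) + 1) k1
    rw [Real.log_pow] at k2
    push_cast at k2
    exact k2
  have hpow1 : ((N : ℝ) + 1) ^ N ≤ Real.exp (2 * (N * L)) := by
    have k1 : ((N : ℝ) + 1) ^ N = Real.exp (N * Real.log ((N : ℝ) + 1)) := by
      rw [Real.exp_nat_mul, Real.exp_log (by linarith)]
    rw [k1]
    apply Real.exp_le_exp.2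
    have := mul_le_mul_of_nonneg_left hL2 hNpos.le
    linarith
  have hpow2 : (N : ℝ) ^ n ≤ Real.exp (N * L) := by
    calc (N : ℝ) ^ n ≤ (N : ℝ) ^ N := pow_le_pow_right₀ (by linarith) hnle
      _ = Real.exp (N * L) := by rw [Real.exp_nat_mul, hexpL]
  have hfin : Real.exp (η * (N : ℝ) ^ 2 / 4 - 4 * (η * N)) / 4 ≤
      detCount N x * Real.exp (3 * (N * L)) := by
    calc _ ≤ _ := hcardGG
      _ ≤ _ := hc3
      _ ≤ detCount N x * Real.exp (2 * (N * L)) * Real.exp (N * L) := by gcongr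
      _ = detCount N x * Real.exp (3 * (N * L)) := by
          rw [mul_assoc, ← Real.exp_add]; congr 2; ring
  have hbig : η / 8 * (N : ℝ) ^ 2 + 3 * (N * L) ≤ η * (N : ℝ) ^ 2 / 4 - 4 * (η * N) - 3 := by
    have k1 : (N : ℝ) * L ≤ N * (η / 100 * S) := mul_le_mul_of_nonneg_left hlog hNpos.le
    have k2 : S ≤ N / 248 := by
      rw [← f1]; nlinarith
    have k3 : (N : ℝ) * (η / 100 * S) ≤ N * (η / 100 * (N / 248)) := by gcongr
    have k4 : (N : ℝ) * (η / 100 * (N / 248)) = η * (N : ℝ) ^ 2 / 24800 := by ring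
    have k5 : 61504 * (η * N) ≤ η * (N : ℝ) ^ 2 := by
      have : η * (N : ℝ) ^ 2 = N * (η * N) := by ring
      rw [this]
      exact mul_le_mul_of_nonneg_right hNr (by linarith)
    linarith
  have h4e : (4 : ℝ) ≤ Real.exp 3 := by
    have := Real.add_one_le_exp (3 : ℝ); linarith
  have hfin2 : Real.exp (η / 8 * (N : ℝ) ^ 2) * Real.exp (3 * (N * L)) ≤
      detCount N x * Real.exp (3 * (N * L)) := by
    calc Real.exp (η / 8 * (N : ℝ) ^ 2) * Real.exp (3 * (N * L))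
        = Real.exp (η / 8 * (N : ℝ) ^ 2 + 3 * (N * L)) := by rw [Real.exp_add]
      _ ≤ Real.exp (η * (N : ℝ) ^ 2 / 4 - 4 * (η * N) - 3) := Real.exp_le_exp.2 hbig
      _ = Real.exp (η * (N : ℝ) ^ 2 / 4 - 4 * (η * N)) / Real.exp 3 := by
          rw [Real.exp_sub]
      _ ≤ Real.exp (η * (N : ℝ) ^ 2 / 4 - 4 * (η * N)) / 4 := by gcongr
      _ ≤ _ := hfin
  exact le_of_mul_le_mul_right hfin2 (Real.exp_pos _)

end Pool.Agent.DetCnt
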