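import Mathlib
import Pool.Agent.DetCnt.Mgf
import Pool.Agent.DetCnt.Main

set_option autoImplicit false
set_option linter.unusedSectionVars false

/-! MP_ef01bd_co, counts: large determinants are rare. -/

open Matrix

namespace Pool.Agent.DetCnt

open Pool.Agent.DetSpec

lemma gd_nonneg {i n : ℕ} (R : Fin i → Fin n → Bool) : 0 ≤ gd R := by
  unfold gd
  rw [← Matrix.conjTranspose_eq_transpose_of_trivial]
  exact (Matrix.posSemidef_self_mul_conjTranspose (Ym R)).det_nonneg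

lemma dot_pv {n : ℕ} (b : Fin n → Bool) :
    (Fin.cons 1 (pv b) : Fin (n + 1) → ℝ) ⬝ᵥ (Fin.cons 1 (pv b) : Fin (n + 1) → ℝ) = n + 1 := by
  rw [dot_cons]
  have h1 : (fun k : Fin n => (Fin.cons 1 (pv b) : Fin (n + 1) → ℝ) k.succ) ⬝ᵥ pv b = n := by
    have : ∀ k : Fin n, pv b k * pv b k = 1 := by
      intro k
      unfold pv
      split_ifs <;> norm_num
    simp only [Fin.cons_succ, dotProduct, this]
    simp
  rw [h1]
  simp
  ring

/-- The trivial bound for one row. -/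
lemma gd_le {i n : ℕ} (b : Fin n → Bool) (R : Fin i → Fin n → Bool) :
    gd (Fin.cons b R : Fin (i + 1) → Fin n → Bool) ≤ (n + 1) * gd R := by
  by_cases h : gd R = 0
  · have h1 : gd (Fin.cons b R : Fin (i + 1) → Fin n → Bool) = 0 := by
      unfold gd
      rw [Ym_cons]
      exact gram_zero _ _ h
    rw [h1, h, mul_zero]
  · have h1 : gd (Fin.cons b R : Fin (i + 1) → Fin n → Bool) =
        gd R * qf (prj (Ym R)) (Fin.cons 1 (pv b)) := by
      unfold gd
      rw [Ym_cons]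
      exact gram_step _ _ h
    have h2 := qf_le_self (prj (Ym R)) (prj_symm _) (prj_sq _ h) (Fin.cons 1 (pv b))
    rw [dot_pv] at h2
    rw [h1, mul_comm]
    exact mul_le_mul_of_nonneg_right h2 (gd_nonneg R)

lemma mom1 (n i0 D Λ : ℕ) (hD : i0 + D = n + 1) (hD1 : 1 ≤ D) (hΛ : 4 * Λ ≤ D) (i : ℕ)
    (hi : i ≤ i0) :
    ∑ R : Fin i → Fin n → Bool, gd R ^ Λ ≤
      (2 ^ n) ^ i * (∏ k ∈ Finset.range i, ((n + 1 : ℝ) - k)) ^ Λ *
        Real.exp (i * (2 * Λ ^ 2 / D)) := by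
  induction i with
  | zero => simp [gd]
  | succ i ih =>
    have h1 := ih (by omega)
    have hD0 : (0 : ℝ) < D := by exact_mod_cast hD1
    have hdD : (D : ℝ) ≤ (n + 1 : ℝ) - i := by
      have : D + i ≤ n + 1 := by omega
      have : ((D + i : ℕ) : ℝ) ≤ ((n + 1 : ℕ) : ℝ) := by exact_mod_cast this
      push_cast at this
      linarith
    have hΛ' : 4 * (Λ : ℝ) ≤ (n + 1 : ℝ) - i := by
      have : ((4 * Λ : ℕ) : ℝ) ≤ D := by exact_mod_cast hΛ
      push_cast at this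
      linarith
    have hd0 : (0 : ℝ) < (n + 1 : ℝ) - i := by linarith
    rw [sum_cons, Finset.sum_comm]
    refine (Finset.sum_le_sum (fun R _ => mom_row (by omega) R Λ hΛ')).trans ?_
    rw [← Finset.mul_sum, Finset.prod_range_succ]
    have h2 : Real.exp (2 * Λ ^ 2 / ((n + 1 : ℝ) - i)) ≤ Real.exp (2 * Λ ^ 2 / D) := by
      apply Real.exp_le_exp.2
      gcongr
    have h3 : 0 ≤ ∏ k ∈ Finset.range i, ((n + 1 : ℝ) - k) := by
      refine Finset.prod_nonneg (fun k hk => ?_)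
      have := Finset.mem_range.1 hk
      have : (k : ℝ) ≤ n + 1 := by
        have : k ≤ n + 1 := by omega
        exact_mod_cast this
      linarith
    calc 2 ^ n * ((n + 1 : ℝ) - i) ^ Λ * Real.exp (2 * Λ ^ 2 / ((n + 1 : ℝ) - i)) *
          ∑ R : Fin i → Fin n → Bool, gd R ^ Λ
        ≤ 2 ^ n * ((n + 1 : ℝ) - i) ^ Λ * Real.exp (2 * Λ ^ 2 / D) *
          ((2 ^ n) ^ i * (∏ k ∈ Finset.range i, ((n + 1 : ℝ) - k)) ^ Λ *
            Real.exp (i * (2 * Λ ^ 2 / D))) := by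
          have h4 : 0 ≤ ∑ R : Fin i → Fin n → Bool, gd R ^ Λ :=
            Finset.sum_nonneg (fun R _ => pow_nonneg (gd_nonneg R) _)
          gcongr
      _ = (2 ^ n) ^ (i + 1) * ((∏ k ∈ Finset.range i, ((n + 1 : ℝ) - k)) *
            ((n + 1 : ℝ) - i)) ^ Λ * (Real.exp (i * (2 * Λ ^ 2 / D)) *
            Real.exp (2 * Λ ^ 2 / D)) := by
          rw [pow_succ, mul_pow]; ring
      _ = _ := by
          rw [← Real.exp_add]
          congr 2
          push_cast
          ring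

lemma mom2 (n i0 D Λ : ℕ) (hD : i0 + D = n + 1) (hD1 : 1 ≤ D) (hΛ : 4 * Λ ≤ D) (j : ℕ) :
    ∑ R : Fin (i0 + j) → Fin n → Bool, gd R ^ Λ ≤
      (2 ^ n) ^ (i0 + j) * ((∏ k ∈ Finset.range i0, ((n + 1 : ℝ) - k)) * (n + 1) ^ j) ^ Λ *
        Real.exp (i0 * (2 * Λ ^ 2 / D)) := by
  induction j with
  | zero =>
    have := mom1 n i0 D Λ hD hD1 hΛ i0 le_rfl
    simpa using this
  | succ j ih =>
    change ∑ R : Fin (i0 + j + 1) → Fin n → Bool, gd R ^ Λ ≤ _
    rw [sum_cons, Finset.sum_comm]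
    have h1 : ∀ R : Fin (i0 + j) → Fin n → Bool,
        ∑ b : Fin n → Bool, gd (Fin.cons b R : Fin (i0 + j + 1) → Fin n → Bool) ^ Λ ≤
          2 ^ n * (n + 1) ^ Λ * gd R ^ Λ := by
      intro R
      calc ∑ b : Fin n → Bool, gd (Fin.cons b R : Fin (i0 + j + 1) → Fin n → Bool) ^ Λ
          ≤ ∑ b : Fin n → Bool, ((n + 1) * gd R) ^ Λ :=
            Finset.sum_le_sum (fun b _ => pow_le_pow_left₀ (gd_nonneg _) (gd_le b R) _)
        _ = (∑ _b : Fin n → Bool, (1 : ℝ)) * ((n + 1) * gd R) ^ Λ := by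
            rw [Finset.sum_mul, one_mul]
        _ = _ := by rw [card_bool, mul_pow]; ring
    refine (Finset.sum_le_sum (fun R _ => h1 R)).trans ?_
    rw [← Finset.mul_sum]
    calc 2 ^ n * (n + 1 : ℝ) ^ Λ * ∑ R : Fin (i0 + j) → Fin n → Bool, gd R ^ Λ
        ≤ 2 ^ n * (n + 1 : ℝ) ^ Λ * ((2 ^ n) ^ (i0 + j) *
          ((∏ k ∈ Finset.range i0, ((n + 1 : ℝ) - k)) * (n + 1) ^ j) ^ Λ *
            Real.exp (i0 * (2 * Λ ^ 2 / D))) := by gcongr
      _ = _ := by
          rw [show i0 + (j + 1) = (i0 + j) + 1 by ring, pow_succ ((2 : ℝ) ^ n),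
            pow_succ ((n : ℝ) + 1), mul_pow, mul_pow, mul_pow]
          ring

lemma prod_desc (n i0 D : ℕ) (hD : i0 + D = n + 1) :
    (∏ k ∈ Finset.range i0, ((n + 1 : ℝ) - k)) * D.factorial = (n + 1).factorial := by
  have h1 : (((n + 1).descFactorial i0 : ℕ) : ℝ) =
      ∏ k ∈ Finset.range i0, ((n + 1 : ℝ) - k) := by
    rw [Nat.descFactorial_eq_prod_range]
    push_cast
    refine Finset.prod_congr rfl (fun k hk => ?_)
    have := Finset.mem_range.1 hk
    rw [Nat.cast_sub (by omega)]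
    push_cast
    ring
  have h2 := Nat.factorial_mul_descFactorial (n := n + 1) (k := i0) (by omega)
  rw [show n + 1 - i0 = D by omega] at h2
  rw [← h1, mul_comm]
  exact_mod_cast h2

/-- All moments. -/
lemma mom3 (n D Λ : ℕ) (hD : D ≤ n + 1) (hD1 : 1 ≤ D) (hΛ : 4 * Λ ≤ D) :
    ∑ R : Fin (n + 1) → Fin n → Bool, gd R ^ Λ ≤
      (2 ^ n) ^ (n + 1) * ((n + 1).factorial * ((n + 1) ^ D / D.factorial)) ^ Λ *
        Real.exp ((n + 1) * (2 * Λ ^ 2 / D)) := by
  obtain ⟨i0, hi0⟩ : ∃ i0, i0 + D = n + 1 := ⟨n + 1 - D, by omega⟩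
  have h1 := mom2 n i0 D Λ hi0 hD1 hΛ D
  have h2 := prod_desc n i0 D hi0
  have hf : (0 : ℝ) < D.factorial := by positivity
  have h3 : (∏ k ∈ Finset.range i0, ((n + 1 : ℝ) - k)) * (n + 1) ^ D =
      (n + 1).factorial * ((n + 1) ^ D / D.factorial) := by
    rw [← h2]
    field_simp
  rw [h3, hi0] at h1
  refine h1.trans ?_
  gcongr
  have : i0 ≤ n + 1 := by omega
  exact_mod_cast this

open Classical in
/-- Markov's inequality. -/
lemma markov (n D Λ : ℕ) (hD : D ≤ n + 1) (hD1 : 1 ≤ D) (hΛ : 4 * Λ ≤ D) (T x : ℝ) (hT : 0 < T)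
    (hx : ((n + 1).factorial : ℝ) * ((n + 1) ^ D / D.factorial) ≤ x * T) :
    ((Finset.univ.filter (fun R : Fin (n + 1) → Fin n → Bool => T ≤ gd R)).card : ℝ) ≤
      (2 ^ n) ^ (n + 1) * (x ^ Λ * Real.exp ((n + 1) * (2 * Λ ^ 2 / D))) := by
  have h1 := mom3 n D Λ hD hD1 hΛ
  have h2 : ((Finset.univ.filter (fun R : Fin (n + 1) → Fin n → Bool => T ≤ gd R)).card : ℝ) *
      T ^ Λ ≤ ∑ R : Fin (n + 1) → Fin n → Bool, gd R ^ Λ := by
    rw [Finset.card_filter, Nat.cast_sum, Finset.sum_mul]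
    refine Finset.sum_le_sum (fun R _ => ?_)
    by_cases h : T ≤ gd R
    · rw [if_pos h]
      push_cast
      rw [one_mul]
      exact pow_le_pow_left₀ hT.le h _
    · rw [if_neg h]
      push_cast
      rw [zero_mul]
      exact pow_nonneg (gd_nonneg R) _
  have h3 : ((n + 1).factorial * ((n + 1 : ℝ) ^ D / D.factorial)) ^ Λ ≤ x ^ Λ * T ^ Λ := by
    rw [← mul_pow]
    exact pow_le_pow_left₀ (by positivity) hx _
  have h4 : ((Finset.univ.filter (fun R : Fin (n + 1) → Fin n → Bool => T ≤ gd R)).card : ℝ) *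
      T ^ Λ ≤ ((2 ^ n) ^ (n + 1) * (x ^ Λ * Real.exp ((n + 1) * (2 * Λ ^ 2 / D)))) * T ^ Λ := by
    refine (h2.trans h1).trans ?_
    calc (2 ^ n) ^ (n + 1) * ((n + 1).factorial * ((n + 1 : ℝ) ^ D / D.factorial)) ^ Λ *
          Real.exp ((n + 1) * (2 * Λ ^ 2 / D))
        ≤ (2 ^ n) ^ (n + 1) * (x ^ Λ * T ^ Λ) * Real.exp ((n + 1) * (2 * Λ ^ 2 / D)) := by gcongr
      _ = _ := by ring
  exact le_of_mul_le_mul_right h4 (by positivity)

open Classical in
/-- Large determinants are rare: tuples. -/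
lemma upper_tuples (n : ℕ) (ε : ℝ) (hε : 0 < ε) (hε1 : ε ≤ 1) (hn : 2048 ≤ ε ^ 3 * n) :
    ((Finset.univ.filter (fun R : Fin (n + 1) → Fin n → Bool =>
      Real.exp (2 * ε * n) * n.factorial ≤ gd R)).card : ℝ) ≤
      (2 ^ n) ^ (n + 1) * Real.exp (-(ε ^ 4 * n ^ 2 / 4096)) := by
  have hn0 : (0 : ℝ) ≤ n := Nat.cast_nonneg n
  have hε3 : ε ^ 3 ≤ 1 := pow_le_one₀ hε.le hε1
  have hε2 : ε ^ 3 ≤ ε ^ 2 := pow_le_pow_of_le_one hε.le hε1 (by norm_num)
  have hn2 : 2048 ≤ ε ^ 2 * n := hn.trans (by gcongr)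
  have hn1 : 2048 ≤ (n : ℝ) := hn.trans (by nlinarith)
  obtain ⟨D, hD⟩ : ∃ D : ℕ, D = ⌊ε ^ 2 * n / 64⌋₊ := ⟨_, rfl⟩
  obtain ⟨Λ, hΛ⟩ : ∃ Λ : ℕ, Λ = ⌊ε * D / 8⌋₊ := ⟨_, rfl⟩
  have hDle : (D : ℝ) ≤ ε ^ 2 * n / 64 := by
    rw [hD]; exact Nat.floor_le (by positivity)
  have hDge : ε ^ 2 * n / 128 ≤ D := by
    have h1 : ε ^ 2 * n / 64 < D + 1 := by rw [hD]; exact Nat.lt_floor_add_one _
    linarith
  have hΛle : (Λ : ℝ) ≤ ε * D / 8 := by
    rw [hΛ]; exact Nat.floor_le (by positivity)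
  have hΛge : ε ^ 3 * n / 2048 ≤ Λ := by
    have h1 : ε * D / 8 < Λ + 1 := by rw [hΛ]; exact Nat.lt_floor_add_one _
    have h2 : ε * (ε ^ 2 * n / 128) ≤ ε * D := by gcongr
    nlinarith
  have hD1 : 1 ≤ D := by
    have : (0 : ℝ) < D := lt_of_lt_of_le (by positivity) hDge
    exact_mod_cast this
  have hD1r : (1 : ℝ) ≤ D := by exact_mod_cast hD1
  have hDn : D ≤ n + 1 := by
    have h1 : (D : ℝ) ≤ n := by
      have : ε ^ 2 ≤ 1 := pow_le_one₀ hε.le hε1
      nlinarith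
    have : D ≤ n := by exact_mod_cast h1
    omega
  have h4Λ : 4 * Λ ≤ D := by
    have h1 : 4 * (Λ : ℝ) ≤ D := by nlinarith
    exact_mod_cast h1
  -- the size of the moments
  have hx : ((n + 1).factorial : ℝ) * ((n + 1) ^ D / D.factorial) ≤
      Real.exp (-(ε * n)) * (Real.exp (2 * ε * n) * n.factorial) := by
    have e1 : (((n : ℝ) + 1) ^ D / D.factorial) ≤
        (8 / ε) ^ D * Real.exp (ε * (n + 1) / 8) := by
      have h1 := Real.pow_div_factorial_le_exp (ε * (n + 1) / 8) (by positivity) D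
      have h2 : ((n : ℝ) + 1) ^ D / D.factorial =
          (8 / ε) ^ D * ((ε * (n + 1) / 8) ^ D / D.factorial) := by
        rw [mul_div_assoc', ← mul_pow]
        congr 2
        field_simp
      rw [h2]
      gcongr
    have e2 : (8 / ε) ^ D ≤ Real.exp (ε * n / 8) := by
      calc (8 / ε) ^ D ≤ (Real.exp (8 / ε)) ^ D := by
            gcongr
            have := Real.add_one_le_exp (8 / ε)
            linarith
        _ = Real.exp (D * (8 / ε)) := by rw [← Real.exp_nat_mul]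
        _ ≤ Real.exp (ε * n / 8) := by
            apply Real.exp_le_exp.2
            calc (D : ℝ) * (8 / ε) ≤ (ε ^ 2 * n / 64) * (8 / ε) := by gcongr
              _ = ε * n / 8 := by field_simp; norm_num
    have e3 : (n : ℝ) + 1 ≤ Real.exp (ε * n / 8) := by
      have h1 : 1 + ε * n / 8 + (ε * n / 8) ^ 2 / 2 ≤ Real.exp (ε * n / 8) :=
        Real.quadratic_le_exp_of_nonneg (by positivity)
      have h2 : (n : ℝ) ≤ (ε * n / 8) ^ 2 / 2 := by
        have : (ε * n / 8) ^ 2 / 2 = (ε ^ 2 * n) * n / 128 := by ring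
        rw [this]
        nlinarith
      have h3 : 0 ≤ ε * n / 8 := by positivity
      linarith
    have e4 : ((n + 1).factorial : ℝ) = (n + 1) * n.factorial := by
      rw [Nat.factorial_succ]; push_cast; ring
    rw [e4]
    calc ((n : ℝ) + 1) * n.factorial * ((n + 1) ^ D / D.factorial)
        ≤ Real.exp (ε * n / 8) * n.factorial * (Real.exp (ε * n / 8) *
          Real.exp (ε * (n + 1) / 8)) := by
          gcongr
          exact e1.trans (by gcongr)
      _ = (Real.exp (ε * n / 8) * Real.exp (ε * n / 8) * Real.exp (ε * (n + 1) / 8)) *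
          n.factorial := by ring
      _ = Real.exp (ε * n / 8 + ε * n / 8 + ε * (n + 1) / 8) * n.factorial := by
          rw [← Real.exp_add, ← Real.exp_add]
      _ ≤ Real.exp (-(ε * n) + 2 * ε * n) * n.factorial := by
          refine mul_le_mul_of_nonneg_right (Real.exp_le_exp.2 ?_) (by positivity)
          nlinarith
      _ = _ := by rw [Real.exp_add]; ring
  have key := markov n D Λ hDn hD1 h4Λ (Real.exp (2 * ε * n) * n.factorial)
    (Real.exp (-(ε * n))) (by positivity) hx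
  refine key.trans ?_
  gcongr
  rw [← Real.exp_nat_mul, ← Real.exp_add]
  apply Real.exp_le_exp.2
  have h5 : 2 * (Λ : ℝ) ^ 2 / D ≤ ε * Λ / 4 := by
    rw [div_le_iff₀ (by positivity)]
    have : (Λ : ℝ) * Λ ≤ Λ * (ε * D / 8) := by gcongr
    nlinarith
  have h6 : (n + 1 : ℝ) * (2 * Λ ^ 2 / D) ≤ (n + 1) * (ε * Λ / 4) := by gcongr
  have hΛ0 : (0 : ℝ) ≤ Λ := Nat.cast_nonneg Λ
  have h7 : (n + 1 : ℝ) * (ε * Λ / 4) ≤ ε * n * Λ / 2 := by
    have : (n + 1 : ℝ) ≤ 2 * n := by linarith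
    have h8 : 0 ≤ ε * Λ / 4 := by positivity
    nlinarith
  have h9 : ε * n * (ε ^ 3 * n / 2048) ≤ ε * n * Λ := by gcongr
  nlinarith

/-! ### from tuples to sets -/

lemma choose_ge (n : ℕ) (hn : 1 ≤ n) :
    ((2 : ℝ) ^ n) ^ (n + 1) ≤ (2 * (n + 1 : ℝ)) ^ (n + 1) * ((2 ^ n).choose (n + 1) : ℝ) := by
  have h1 := Nat.pow_sub_le_descFactorial (2 ^ n) (n + 1)
  rw [Nat.descFactorial_eq_factorial_mul_choose] at h1
  have h2 : n + 1 ≤ 2 ^ n := Nat.lt_two_pow_self
  have h3 : 2 ^ n ≤ 2 * (2 ^ n + 1 - (n + 1)) := by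
    have h4 : 2 * n ≤ 2 ^ n := by
      obtain ⟨m, rfl⟩ : ∃ m, n = m + 1 := ⟨n - 1, by omega⟩
      rw [pow_succ]
      have : m + 1 ≤ 2 ^ m := Nat.lt_two_pow_self
      omega
    omega
  have h5 : (2 ^ n) ^ (n + 1) ≤ (2 * (n + 1)) ^ (n + 1) * (2 ^ n).choose (n + 1) := by
    calc (2 ^ n) ^ (n + 1) ≤ (2 * (2 ^ n + 1 - (n + 1))) ^ (n + 1) := Nat.pow_le_pow_left h3 _
      _ = 2 ^ (n + 1) * (2 ^ n + 1 - (n + 1)) ^ (n + 1) := by rw [mul_pow]
      _ ≤ 2 ^ (n + 1) * ((n + 1).factorial * (2 ^ n).choose (n + 1)) :=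
          Nat.mul_le_mul_left _ h1
      _ ≤ 2 ^ (n + 1) * ((n + 1) ^ (n + 1) * (2 ^ n).choose (n + 1)) := by
          gcongr
          exact Nat.factorial_le_pow (n + 1)
      _ = _ := by rw [mul_pow]; ring
  exact_mod_cast h5

open Classical in
open Pool.Agent.TopDet in
/-- Sets and tuples. -/
lemma count_le_tuples (n v : ℕ) (T : ℝ) (hT : T ≤ (2 ^ n * (v : ℝ)) ^ 2) :
    detCount n v ≤ (Finset.univ.filter (fun R : Fin (n + 1) → Fin n → Bool => T ≤ gd R)).card := by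
  rw [detCount, Nat.card_eq_fintype_card, Fintype.card_subtype]
  refine (Finset.card_le_card (?_ : _ ⊆ (Finset.univ.filter
    (fun R : Fin (n + 1) → Fin n → Bool => T ≤ gd R)).image
      (fun R => Finset.univ.image R))).trans Finset.card_image_le
  intro S hS
  obtain ⟨r, -, hr2, hr3⟩ := (Finset.mem_filter.1 hS).2
  refine Finset.mem_image.2 ⟨r, Finset.mem_filter.2 ⟨Finset.mem_univ _, ?_⟩, hr2⟩
  have h1 : borderedMatrix r = YZ r := by
    ext i j
    refine Fin.cases rfl (fun k => rfl) j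
  rw [h1] at hr3
  rw [gd_eq]
  refine hT.trans (le_of_eq ?_)
  rw [← hr3, mul_pow, mul_pow]
  congr 1
  rw [← Int.cast_natCast, Int.natCast_natAbs, Int.cast_abs, sq_abs]

open Pool.Agent.TopDet in
/-- **Upper bound for the counts of large determinants.** -/
theorem upper (ε : ℝ) (hε : 0 < ε) : ∃ (c : ℝ) (n₀ : ℕ), 0 < c ∧ ∀ n : ℕ, n₀ ≤ n → ∀ v : ℕ,
    Real.exp (ε * n) * (√(n.factorial) * (1 / 2) ^ n) ≤ v →
    (detCount n v : ℝ) ≤ Real.exp (-(c * n ^ 2)) * ((2 ^ n).choose (n + 1) : ℝ) := by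
  obtain ⟨e, he⟩ : ∃ e : ℝ, e = min ε 1 := ⟨_, rfl⟩
  have he0 : 0 < e := by rw [he]; exact lt_min hε one_pos
  have he1 : e ≤ 1 := by rw [he]; exact min_le_right _ _
  have heε : e ≤ ε := by rw [he]; exact min_le_left _ _
  obtain ⟨c, hc⟩ : ∃ c : ℝ, c = e ^ 4 / 8192 := ⟨_, rfl⟩
  have hc0 : 0 < c := by rw [hc]; positivity
  obtain ⟨n₀, hn₀⟩ := exists_nat_ge (max (2048 / e ^ 3) ((16 / c) ^ 2))
  refine ⟨c, n₀ + 1, hc0, ?_⟩
  intro n hn v hv
  have hn' : (n₀ : ℝ) ≤ n := by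
    have : n₀ ≤ n := by omega
    exact_mod_cast this
  have hn1 : 2048 ≤ e ^ 3 * n := by
    have := (le_max_left (2048 / e ^ 3) ((16 / c) ^ 2)).trans (hn₀.trans hn')
    rw [div_le_iff₀ (by positivity)] at this
    linarith
  have hn2 : 16 / c ≤ √n := by
    apply Real.le_sqrt_of_sq_le
    exact (le_max_right _ _).trans (hn₀.trans hn')
  have hn3 : (1 : ℝ) ≤ n := by
    have : 1 ≤ n := by omega
    exact_mod_cast this
  have h1 := count_le_tuples n v (Real.exp (2 * e * n) * n.factorial) (by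
    have h2 : Real.exp (e * n) * (√(n.factorial) * (1 / 2) ^ n) ≤ v := by
      refine le_trans ?_ hv
      gcongr
    have h3 : Real.exp (e * n) * √(n.factorial) ≤ 2 ^ n * v := by
      have h4 : (2 : ℝ) ^ n * (1 / 2) ^ n = 1 := by rw [← mul_pow]; norm_num
      calc Real.exp (e * n) * √(n.factorial)
          = 2 ^ n * (Real.exp (e * n) * (√(n.factorial) * (1 / 2) ^ n)) := by
            linear_combination (-(Real.exp (e * n) * √(n.factorial))) * h4
        _ ≤ 2 ^ n * v := by gcongr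
    calc Real.exp (2 * e * n) * n.factorial = (Real.exp (e * n) * √(n.factorial)) ^ 2 := by
          rw [mul_pow, Real.sq_sqrt (by positivity), ← Real.exp_nat_mul]
          congr 2
          push_cast
          ring
      _ ≤ (2 ^ n * v) ^ 2 := by gcongr)
  have h2 := upper_tuples n e he0 he1 hn1
  have h3 := choose_ge n (by omega)
  have h4 : (2 * (n + 1 : ℝ)) ^ (n + 1) ≤ Real.exp (c * n ^ 2) := by
    have h5 : Real.log (2 * (n + 1 : ℝ)) ≤ 4 * √n := by
      have h6 : (2 : ℝ) * (n + 1) ≤ (2 * √n) ^ 2 := by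
        rw [mul_pow, Real.sq_sqrt (by linarith)]
        linarith
      calc Real.log (2 * (n + 1 : ℝ)) ≤ Real.log ((2 * √n) ^ 2) :=
            Real.log_le_log (by positivity) h6
        _ = 2 * Real.log (2 * √n) := by rw [Real.log_pow]; norm_num
        _ ≤ 2 * (2 * √n) := by
            have := Real.log_le_self (by positivity : 0 ≤ 2 * √(n : ℝ))
            linarith
        _ = 4 * √n := by ring
    calc (2 * (n + 1 : ℝ)) ^ (n + 1) = Real.exp ((n + 1 : ℕ) * Real.log (2 * (n + 1 : ℝ))) := by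
          rw [Real.exp_nat_mul, Real.exp_log (by positivity)]
      _ ≤ Real.exp (c * n ^ 2) := by
          apply Real.exp_le_exp.2
          push_cast
          have h7 : (n + 1 : ℝ) * Real.log (2 * (n + 1 : ℝ)) ≤ (2 * n) * (4 * √n) := by
            have h8 : 0 ≤ Real.log (2 * (n + 1 : ℝ)) := Real.log_nonneg (by linarith)
            gcongr
            linarith
          have h9 : 16 ≤ c * √n := by
            rw [div_le_iff₀ hc0] at hn2
            linarith
          have h10 : (n : ℝ) = √n * √n := (Real.mul_self_sqrt (by linarith)).symm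
          have h11 : (2 * n) * (4 * √(n : ℝ)) ≤ c * n ^ 2 := by
            have h12 : c * (n : ℝ) ^ 2 = (c * √n) * (n * √n) := by
              calc c * (n : ℝ) ^ 2 = c * (n * n) := by ring
                _ = c * (n * (√n * √n)) := by rw [← h10]
                _ = _ := by ring
            rw [h12]
            have h13 : 0 ≤ (n : ℝ) * √n := by positivity
            nlinarith
          linarith
  have hcc : e ^ 4 * n ^ 2 / 4096 = 2 * (c * n ^ 2) := by rw [hc]; ring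
  rw [hcc] at h2
  calc (detCount n v : ℝ) ≤ (2 ^ n) ^ (n + 1) * Real.exp (-(2 * (c * n ^ 2))) := by
        refine le_trans ?_ h2
        exact_mod_cast h1
    _ ≤ ((2 * (n + 1 : ℝ)) ^ (n + 1) * ((2 ^ n).choose (n + 1) : ℝ)) *
        Real.exp (-(2 * (c * n ^ 2))) := by gcongr
    _ ≤ (Real.exp (c * n ^ 2) * ((2 ^ n).choose (n + 1) : ℝ)) *
        Real.exp (-(2 * (c * n ^ 2))) := by gcongr
    _ = (Real.exp (c * n ^ 2) * Real.exp (-(2 * (c * n ^ 2)))) *
        ((2 ^ n).choose (n + 1) : ℝ) := by ring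
    _ = _ := by
        rw [← Real.exp_add]
        congr 2
        ring

end Pool.Agent.DetCnt
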